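import Mathlib
import Pool.Agent.Helper9.NS
import Pool.Agent.Helper26.VC.Chow
import Pool.Agent.Helper83.VF.Defs
import Pool.Agent.Helper51.EW.Defs

/-!
# Double planes branched along a sextic curve

Let `f` be a form of degree six in three variables over `k`. The surface is `w ^ 2 = f (x)`, in the
weighted projective space with coordinates `x 0`, `x 1`, `x 2` of weight one and `w` of weight three:
its points have homogeneous coordinates `(x; w)` with `x ≠ 0`, and for nonzero `c` the coordinates
`(c x; c ^ 3 w)` describe the same point as `(x; w)`. It is the double cover of the projective plane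
with branch curve `f = 0`.
A morphism to it from the smooth projective curve with function field `K` is the same as a point
with coordinates in `K`; its value at a place `v` of `K` is obtained by choosing homogeneous
coordinates such that all of them are regular at `v` and those of `x` do not all vanish at `v`, and
evaluating them at `v`.
-/

namespace Pool.Agent.Helper83.DP

open VC VF Function

universe u

/-- Homogeneous coordinates, in `K`, of a point of `w ^ 2 = f (x)`. -/
structure Coord {k : Type u} [Field k] (f : MvPolynomial (Fin 3) k) (K : Type u) [Field K]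
    [Algebra k K] where
  /-- the coordinates of the point of the plane -/
  x : Fin 3 → K
  /-- the square root -/
  w : K
  x_ne : x ≠ 0
  eqn : w ^ 2 = MvPolynomial.aeval x f

/-- Two systems of homogeneous coordinates describe the same point. -/
def Same {k : Type u} [Field k] {f : MvPolynomial (Fin 3) k} {K : Type u} [Field K] [Algebra k K]
    (p q : Coord f K) : Prop :=
  ∃ c : K, c ≠ 0 ∧ (∀ i, q.x i = c * p.x i) ∧ q.w = c ^ 3 * p.w

section

variable {k : Type u} [Field k] {f : MvPolynomial (Fin 3) k} {K : Type u} [Field K] [Algebra k K]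

lemma Same.refl (p : Coord f K) : Same p p :=
  ⟨1, one_ne_zero, fun i => by rw [one_mul], by simp⟩

lemma Same.symm {p q : Coord f K} (h : Same p q) : Same q p := by
  obtain ⟨c, hc, h1, h2⟩ := h
  refine ⟨c⁻¹, inv_ne_zero hc, fun i => ?_, ?_⟩
  · rw [h1, inv_mul_cancel_left₀ hc]
  · rw [h2, inv_pow, inv_mul_cancel_left₀ (pow_ne_zero _ hc)]

lemma Same.trans {p q r : Coord f K} (h : Same p q) (h' : Same q r) : Same p r := by
  obtain ⟨c, hc, h1, h2⟩ := h
  obtain ⟨c', hc', h1', h2'⟩ := h'
  refine ⟨c' * c, mul_ne_zero hc' hc, fun i => ?_, ?_⟩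
  · rw [h1', h1]; ring
  · rw [h2', h2]; ring

/-- The equivalence of homogeneous coordinates. -/
instance coordSetoid (f : MvPolynomial (Fin 3) k) (K : Type u) [Field K] [Algebra k K] :
    Setoid (Coord f K) where
  r := Same
  iseqv := ⟨Same.refl, Same.symm, Same.trans⟩

/-- The points with coordinates in `K`. -/
def DPt (f : MvPolynomial (Fin 3) k) (K : Type u) [Field K] [Algebra k K] : Type u :=
  Quotient (coordSetoid f K)

/-- The point with given homogeneous coordinates. -/
def DPt.mk (a : Coord f K) : DPt f K := Quotient.mk _ a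

/-- The point `p` is the value of the point `x` with coordinates in `K` at the place `v` of `K`:
there are homogeneous coordinates `a` of `x` and `b` of `p` such that the coordinates `a` have the
values `b` at `v`. -/
def IsVal (v : Place k K) (x : DPt f K) (p : DPt f k) : Prop :=
  ∃ (a : Coord f K) (b : Coord f k), x = DPt.mk a ∧ p = DPt.mk b ∧
    (∀ i, a.x i - algebraMap k K (b.x i) ∈ v.ring.nonunits) ∧
    a.w - algebraMap k K b.w ∈ v.ring.nonunits

lemma mk_eq_iff {a b : Coord f K} : DPt.mk a = DPt.mk b ↔ Same a b := Quotient.eq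

lemma exists_mk (x : DPt f K) : ∃ a, x = DPt.mk a := by
  obtain ⟨a, ha⟩ := Quotient.exists_rep x
  exact ⟨a, ha.symm⟩

lemma aeval_smul (hf : f.IsHomogeneous 6) (c : K) (x : Fin 3 → K) :
    MvPolynomial.aeval (fun i => c * x i) f = c ^ 6 * MvPolynomial.aeval x f := by
  rw [MvPolynomial.aeval_def, MvPolynomial.aeval_def, MvPolynomial.eval₂_eq',
    MvPolynomial.eval₂_eq', Finset.mul_sum]
  apply Finset.sum_congr rfl
  intro d hd
  have h1 : ∑ i, d i = 6 := by
    have := hf (MvPolynomial.mem_support_iff.mp hd)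
    rw [Finsupp.weight_apply, Finsupp.sum_fintype _ _ (fun i => by simp)] at this
    simpa using this
  simp only [mul_pow, Finset.prod_mul_distrib]
  rw [Finset.prod_pow_eq_pow_sum, h1]
  ring

lemma isRes_aeval {v : Place k K} {u : Fin 3 → K} {r : Fin 3 → k} (h : ∀ i, IsRes v (u i) (r i))
    (F : MvPolynomial (Fin 3) k) :
    IsRes v (MvPolynomial.aeval u F) (MvPolynomial.aeval r F) := by
  induction F using MvPolynomial.induction_on with
  | C a =>
    rw [MvPolynomial.algHom_C, MvPolynomial.algHom_C]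
    exact isRes_const a
  | add p q hp hq => rw [map_add, map_add]; exact hp.add hq
  | mul_X p i hp =>
    rw [map_mul, map_mul, MvPolynomial.aeval_X, MvPolynomial.aeval_X]
    exact hp.mul (h i)

/-- Scaling the coordinates. -/
def scale (hf : f.IsHomogeneous 6) (a : Coord f K) (c : K) (hc : c ≠ 0) : Coord f K where
  x i := c * a.x i
  w := c ^ 3 * a.w
  x_ne := by
    obtain ⟨j, hj⟩ := Function.ne_iff.mp a.x_ne
    intro h
    exact mul_ne_zero hc hj (congrFun h j)
  eqn := by
    rw [aeval_smul hf, ← a.eqn]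
    ring

lemma same_scale (hf : f.IsHomogeneous 6) (a : Coord f K) (c : K) (hc : c ≠ 0) :
    DPt.mk (scale hf a c hc) = DPt.mk a :=
  (mk_eq_iff.mpr ⟨c, hc, fun _ => rfl, rfl⟩).symm

section value

variable [IsAlgClosed k] [CharZero k] {v : Place k K}

lemma val_unique (hK : IsFunctionField k K) {x : DPt f K} {p q : DPt f k}
    (h : IsVal v x p) (h' : IsVal v x q) : p = q := by
  obtain ⟨a, b, rfl, rfl, h2, h3⟩ := h
  obtain ⟨a', b', hx, rfl, h2', h3'⟩ := h'
  obtain ⟨c, hc, e2, e4⟩ := mk_eq_iff.mp hx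
  replace h2 : ∀ i, IsRes v (a.x i) (b.x i) := h2
  replace h3 : IsRes v a.w b.w := h3
  replace h2' : ∀ i, IsRes v (a'.x i) (b'.x i) := h2'
  replace h3' : IsRes v a'.w b'.w := h3'
  obtain ⟨i, hi⟩ := Function.ne_iff.mp b.x_ne
  obtain ⟨i', hi'⟩ := Function.ne_iff.mp b'.x_ne
  have f2 := (h2 i).inv_mem hi
  have f2' := (h2' i').inv_mem hi'
  have c1 : c ∈ v.ring := by
    have : c = a'.x i * (a.x i)⁻¹ := by
      rw [e2 i, mul_inv_cancel_right₀ f2.1]
    rw [this]
    exact v.ring.mul_mem _ _ (h2' i).mem f2.2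
  have c2 : c⁻¹ ∈ v.ring := by
    have : c⁻¹ = a.x i' * (a'.x i')⁻¹ := by
      have h0 : a.x i' ≠ 0 := by
        intro h0
        apply f2'.1
        rw [e2 i', h0, mul_zero]
      rw [e2 i']
      field_simp
    rw [this]
    exact v.ring.mul_mem _ _ (h2 i').mem f2'.2
  obtain ⟨c0, hc0, hcr⟩ := Helper51.EW.exists_res_ne hK c1 hc c2
  rw [mk_eq_iff]
  refine ⟨c0, hc0, fun s => ?_, ?_⟩
  · have := hcr.mul (h2 s)
    rw [← e2 s] at this
    exact (h2' s).unique this
  · have := (hcr.pow 3).mul h3
    rw [← e4] at this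
    exact h3'.unique this

/-- A morphism from a curve has a value at every point. -/
lemma exists_val (hf : f.IsHomogeneous 6) (hK : IsFunctionField k K) (x : DPt f K)
    (v : Place k K) : ∃ p, IsVal v x p := by
  obtain ⟨a, rfl⟩ := exists_mk x
  obtain ⟨j, hj, hj'⟩ := exists_max v.ring a.x a.x_ne
  set a1 := scale hf a (a.x j)⁻¹ (inv_ne_zero hj) with ha1
  have h1 : ∀ s, a1.x s ∈ v.ring := by
    intro s
    change (a.x j)⁻¹ * a.x s ∈ _
    rw [mul_comm]
    exact hj' s
  choose r hr using fun s => exists_res hK (h1 s)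
  have hq : IsRes v (MvPolynomial.aeval a1.x f) (MvPolynomial.aeval r f) :=
    isRes_aeval hr f
  have h3 : a1.w ∈ v.ring := by
    rw [← a1.eqn] at hq
    by_contra h0
    have h4 := (ValuationSubring.mem_or_inv_mem v.ring a1.w).resolve_left h0
    apply h0
    have hw0 : a1.w ≠ 0 := by
      intro h5
      rw [h5] at h0
      exact h0 v.ring.zero_mem
    have e : a1.w = a1.w ^ 2 * a1.w⁻¹ := by
      field_simp
    rw [e]
    exact v.ring.mul_mem _ _ hq.mem h4
  obtain ⟨m, hm⟩ := exists_res hK h3
  have hrj : r j = 1 := by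
    have e : a1.x j = 1 := by
      change (a.x j)⁻¹ * a.x j = 1
      rw [inv_mul_cancel₀ hj]
    have := hr j
    rw [e] at this
    exact this.unique isRes_one
  refine ⟨DPt.mk ⟨r, m, ?_, ?_⟩, a1, _, ?_, rfl, hr, hm⟩
  · intro h
    rw [h] at hrj
    exact zero_ne_one hrj
  · rw [← a1.eqn] at hq
    exact (hm.pow 2).unique hq
  · rw [ha1, same_scale]

end value

end

/-- The double plane `w ^ 2 = f (x)`, `f` a form of degree six. -/
noncomputable abbrev surface {k : Type u} [Field k] [IsAlgClosed k] [CharZero k]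
    (f : MvPolynomial (Fin 3) k) (hf : f.IsHomogeneous 6) : Variety k where
  Pt := DPt f k
  Mor K _ _ := DPt f K
  eval hK x v := (exists_val hf hK x v).choose

section eval

variable {k : Type u} [Field k] [IsAlgClosed k] [CharZero k] {f : MvPolynomial (Fin 3) k}
  (hf : f.IsHomogeneous 6) {K : Type u} [Field K] [Algebra k K]

lemma eval_spec (hK : IsFunctionField k K) (x : DPt f K) (v : Place k K) :
    IsVal v x ((surface f hf).eval hK x v) := (exists_val hf hK x v).choose_spec

lemma eval_eq (hK : IsFunctionField k K) (v : Place k K) (a : Coord f K) (b : Coord f k)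
    (h2 : ∀ i, IsRes v (a.x i) (b.x i)) (h3 : IsRes v a.w b.w) :
    (surface f hf).eval hK (DPt.mk a) v = DPt.mk b :=
  val_unique hK (eval_spec hf hK _ v) ⟨a, b, rfl, rfl, h2, h3⟩

/-- Coordinates adapted to a place. -/
lemma exists_coords (hK : IsFunctionField k K) (v : Place k K) (x : DPt f K) :
    ∃ (a : Coord f K) (b : Coord f k), x = DPt.mk a ∧ (surface f hf).eval hK x v = DPt.mk b ∧
      (∀ i, IsRes v (a.x i) (b.x i)) ∧ IsRes v a.w b.w :=
  eval_spec hf hK x v

/-- The value of a constant morphism. -/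
lemma exists_const (K : Type u) [Field K] [Algebra k K] (hK : IsFunctionField k K)
    (p : (surface f hf).Pt) :
    ∃ c : (surface f hf).Mor K, ∀ v, (surface f hf).eval hK c v = p := by
  obtain ⟨b, rfl⟩ := exists_mk p
  refine ⟨DPt.mk ⟨fun i => algebraMap k K (b.x i), algebraMap k K b.w, ?_, ?_⟩,
    fun v => eval_eq hf hK v _ b (fun i => isRes_const _) (isRes_const _)⟩
  · obtain ⟨j, hj⟩ := Function.ne_iff.mp b.x_ne
    intro h0
    exact hj ((_root_.map_eq_zero _).mp (congrFun h0 j))
  · have e : MvPolynomial.aeval (fun i => algebraMap k K (b.x i)) f =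
        algebraMap k K (MvPolynomial.aeval b.x f) := MvPolynomial.aeval_algebraMap_apply K b.x f
    rw [e, ← b.eqn, map_pow]

end eval

/-! ### The involution -/

section points

variable {k : Type u} [Field k] {f : MvPolynomial (Fin 3) k} {K : Type u} [Field K] [Algebra k K]

/-- The involution on coordinates. -/
def negC (a : Coord f K) : Coord f K where
  x := a.x
  w := -a.w
  x_ne := a.x_ne
  eqn := by rw [neg_sq, a.eqn]

/-- The involution `w ↦ - w`. -/
def neg (p : DPt f K) : DPt f K :=
  Quotient.map negC (by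
    rintro a b ⟨c, hc, h1, h4⟩
    refine ⟨c, hc, h1, ?_⟩
    change -b.w = c ^ 3 * (-a.w)
    rw [h4]; ring) p

lemma neg_mk (a : Coord f K) : neg (DPt.mk a) = DPt.mk (negC a) := rfl

lemma neg_neg' (p : DPt f K) : neg (neg p) = p := by
  obtain ⟨a, rfl⟩ := exists_mk p
  rw [neg_mk, neg_mk, mk_eq_iff]
  refine ⟨1, one_ne_zero, fun i => (one_mul _).symm, ?_⟩
  simp [negC]

variable [IsAlgClosed k] [CharZero k] (hf : f.IsHomogeneous 6)

lemma induced_neg : Induced (surface f hf) (surface f hf) neg := by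
  intro K _ _ hK c
  refine ⟨neg c, fun v => ?_⟩
  obtain ⟨a, b, rfl, h2, h3, h5⟩ := exists_coords hf hK v c
  rw [h2, neg_mk, neg_mk]
  exact eval_eq hf hK v (negC a) (negC b) h3 h5.neg

end points

/-! ### Total functions for points -/

section total

variable {k : Type u} [Field k] {f : MvPolynomial (Fin 3) k} {K : Type u} [Field K] [Algebra k K]

/-- Coordinates in a larger field. -/
def Coord.map {L : Type u} [Field L] [Algebra k L] (ι : K →ₐ[k] L) (a : Coord f K) :
    Coord f L where
  x i := ι (a.x i)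
  w := ι a.w
  x_ne := by
    obtain ⟨j, hj⟩ := Function.ne_iff.mp a.x_ne
    intro h0
    exact hj ((_root_.map_eq_zero _).mp (congrFun h0 j))
  eqn := by
    rw [← map_pow, a.eqn]
    exact MvPolynomial.comp_aeval_apply _ ι f

instance [IsAlgClosed k] : Nonempty (DPt f K) := by
  obtain ⟨w, hw⟩ := IsAlgClosed.exists_pow_nat_eq (MvPolynomial.aeval ![(1 : k), 0, 0] f)
    (n := 2) (by norm_num)
  exact ⟨DPt.mk (Coord.map (Algebra.ofId k K) ⟨![1, 0, 0], w,
    fun h => one_ne_zero (congrFun h 0), hw⟩)⟩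

open Classical in
/-- The point `(x; w)`, if these are coordinates of a point. -/
noncomputable def dpt [IsAlgClosed k] (f : MvPolynomial (Fin 3) k) {K : Type u} [Field K]
    [Algebra k K] (x : Fin 3 → K) (w : K) : DPt f K :=
  if h : x ≠ 0 ∧ w ^ 2 = MvPolynomial.aeval x f then DPt.mk ⟨x, w, h.1, h.2⟩ else
    Classical.arbitrary _

lemma dpt_eq [IsAlgClosed k] {x : Fin 3 → K} {w : K} (hx : x ≠ 0)
    (h : w ^ 2 = MvPolynomial.aeval x f) : dpt f x w = DPt.mk ⟨x, w, hx, h⟩ :=
  dif_pos ⟨hx, h⟩

lemma exists_dpt [IsAlgClosed k] (p : DPt f K) : ∃ (x : Fin 3 → K) (w : K), x ≠ 0 ∧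
    w ^ 2 = MvPolynomial.aeval x f ∧ p = dpt f x w := by
  obtain ⟨a, rfl⟩ := exists_mk p
  exact ⟨a.x, a.w, a.x_ne, a.eqn, (dpt_eq a.x_ne a.eqn).symm⟩

lemma neg_dpt [IsAlgClosed k] {x : Fin 3 → K} {w : K} (hx : x ≠ 0)
    (h : w ^ 2 = MvPolynomial.aeval x f) : neg (dpt f x w) = dpt f x (-w) := by
  rw [dpt_eq hx h, dpt_eq hx (by rw [neg_sq]; exact h)]
  rfl

/-- Scaling of the coordinates. -/
lemma dpt_smul [IsAlgClosed k] (hf : f.IsHomogeneous 6) {x : Fin 3 → K} {w c : K} (hx : x ≠ 0)
    (hc : c ≠ 0) (h : w ^ 2 = MvPolynomial.aeval x f) :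
    dpt f (fun i => c * x i) (c ^ 3 * w) = dpt f x w := by
  have hx' : (fun i => c * x i) ≠ 0 := by
    obtain ⟨j, hj⟩ := Function.ne_iff.mp hx
    intro h0
    exact mul_ne_zero hc hj (congrFun h0 j)
  rw [dpt_eq hx h, dpt_eq hx' (by rw [aeval_smul hf, ← h]; ring)]
  symm
  rw [mk_eq_iff]
  exact ⟨c, hc, fun _ => rfl, rfl⟩

/-- The value of a point with regular coordinates. -/
lemma eval_dpt [IsAlgClosed k] [CharZero k] (hf : f.IsHomogeneous 6) (hK : IsFunctionField k K)
    (v : Place k K) {x : Fin 3 → K} {w : K} (h : w ^ 2 = MvPolynomial.aeval x f)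
    {y : Fin 3 → k} {m : k} (hy : y ≠ 0) (h2 : ∀ i, IsRes v (x i) (y i)) (h3 : IsRes v w m) :
    (surface f hf).eval hK (dpt f x w) v = dpt f y m := by
  have hx : x ≠ 0 := by
    obtain ⟨j, hj⟩ := Function.ne_iff.mp hy
    intro h0
    have := h2 j
    rw [h0] at this
    exact hj (this.unique isRes_zero)
  have h' : m ^ 2 = MvPolynomial.aeval y f := by
    have e2 : IsRes v (MvPolynomial.aeval x f) (MvPolynomial.aeval y f) :=
      isRes_aeval h2 f
    rw [← h] at e2
    exact (h3.pow 2).unique e2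
  rw [dpt_eq hx h, dpt_eq hy h']
  exact eval_eq hf hK v _ _ h2 h3

end total

end Pool.Agent.Helper83.DP
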