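import Mathlib
import Pool.Agent.Helper9.NS
import Pool.Agent.Helper83.DP.Defs

/-!
# Block DP-CM: the restriction of a sextic form to a line
`cm f p v m` is the coefficient of `X ^ m` in `f (p + X v)`.
Proofs. `cm_map`: `Polynomial.mapAlgHom φ` maps `aeval (fun i => C (p i) + X * C (v i)) f` to the same
for `φ ∘ p`, `φ ∘ v` (`MvPolynomial.comp_aeval_apply`), `Polynomial.coeff_map`. `isRes_cm`: induction on
`f` as in `isRes_aeval` (for all `m` at the same time; products: `Polynomial.coeff_mul_X` and
`coeff_mul_C`), or: the coefficients of a polynomial in `p`, `v`. `cm_high`, `aeval_line`, `cm_symm`: it is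
enough to treat monomials (`f = ∑ d ∈ f.support, monomial d (coeff d f)`, total degree six): for a monomial
`f (s p + t v) = ∏ i, (s p i + t v i) ^ d i`; alternatively induction for homogeneous polynomials, or:
the polynomial `G = aeval (fun i => C (p i) + X * C (v i)) f` has degree `≤ 6`, and
`f (s p + t v)`, as an element of `R[S, T]`, is homogeneous of degree six, ... `cm_zero`: evaluate at `X = 0`.
`cm_one`: derivative at `X = 0` (`MvPolynomial.induction_on`, product rule).
-/

set_option linter.unusedSectionVars false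

namespace Pool.Agent.Helper83.DP

open VC VF Function Polynomial

universe u

section ring

variable {k : Type u} [Field k] {R : Type*} [CommRing R] [Algebra k R]

/-- The coefficient of `X ^ m` in `f (p + X v)`. -/
noncomputable def cm (f : MvPolynomial (Fin 3) k) (p v : Fin 3 → R) (m : ℕ) : R :=
  (MvPolynomial.aeval (fun i => C (p i) + X * C (v i)) f : R[X]).coeff m

private lemma cm_C (a : k) (p v : Fin 3 → R) (m : ℕ) :
    cm (MvPolynomial.C a) p v m = if m = 0 then algebraMap k R a else 0 := by
  unfold cm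
  rw [MvPolynomial.algHom_C, Polynomial.algebraMap_apply, Polynomial.coeff_C]

private lemma cm_add (f g : MvPolynomial (Fin 3) k) (p v : Fin 3 → R) (m : ℕ) :
    cm (f + g) p v m = cm f p v m + cm g p v m := by
  unfold cm
  rw [map_add, Polynomial.coeff_add]

private lemma cm_mul_X_zero (f : MvPolynomial (Fin 3) k) (j : Fin 3) (p v : Fin 3 → R) :
    cm (f * MvPolynomial.X j) p v 0 = cm f p v 0 * p j := by
  unfold cm
  rw [map_mul, MvPolynomial.aeval_X, Polynomial.mul_coeff_zero]
  simp

private lemma cm_mul_X_succ (f : MvPolynomial (Fin 3) k) (j : Fin 3) (p v : Fin 3 → R) (m : ℕ) :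
    cm (f * MvPolynomial.X j) p v (m + 1) = cm f p v (m + 1) * p j + cm f p v m * v j := by
  unfold cm
  rw [map_mul, MvPolynomial.aeval_X, mul_add, Polynomial.coeff_add, Polynomial.coeff_mul_C,
    ← mul_assoc, Polynomial.coeff_mul_C, Polynomial.coeff_mul_X]

/-- The homogenisation of a polynomial of degree at most `d`. -/
private noncomputable def hz (d : ℕ) (G : R[X]) (s t : R) : R :=
  ∑ m ∈ Finset.range (d + 1), G.coeff m * s ^ (d - m) * t ^ m

private lemma hz_lin {d : ℕ} {G : R[X]} (hG : G.natDegree ≤ d) (a b s t : R) :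
    (G * (C a + X * C b)).natDegree ≤ d + 1 ∧
      hz (d + 1) (G * (C a + X * C b)) s t = hz d G s t * (s * a + t * b) := by
  constructor
  · refine Polynomial.natDegree_mul_le.trans (add_le_add hG ?_)
    refine (Polynomial.natDegree_add_le _ _).trans (max_le (by simp) ?_)
    refine Polynomial.natDegree_mul_le.trans ?_
    rw [Polynomial.natDegree_C, add_zero]
    exact Polynomial.natDegree_X_le
  · have e : ∀ m, (G * (C a + X * C b)).coeff m = G.coeff m * a + (G * X).coeff m * b := by
      intro m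
      rw [mul_add, Polynomial.coeff_add, Polynomial.coeff_mul_C, ← mul_assoc,
        Polynomial.coeff_mul_C]
    unfold hz
    have e1 : ∑ m ∈ Finset.range (d + 1 + 1), (G * (C a + X * C b)).coeff m * s ^ (d + 1 - m) *
        t ^ m = ∑ m ∈ Finset.range (d + 1 + 1), G.coeff m * s ^ (d + 1 - m) * t ^ m * a +
          ∑ m ∈ Finset.range (d + 1 + 1), (G * X).coeff m * s ^ (d + 1 - m) * t ^ m * b := by
      rw [← Finset.sum_add_distrib]
      apply Finset.sum_congr rfl
      intro m _
      rw [e]
      ring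
    rw [e1, Finset.sum_range_succ _ (d + 1), Finset.sum_range_succ' _ (d + 1),
      Polynomial.coeff_eq_zero_of_natDegree_lt (Nat.lt_succ_of_le hG), Polynomial.mul_coeff_zero,
      Polynomial.coeff_X_zero, mul_add, Finset.sum_mul, Finset.sum_mul]
    simp only [zero_mul, mul_zero, add_zero]
    congr 1
    · apply Finset.sum_congr rfl
      intro m hm
      rw [Finset.mem_range] at hm
      rw [show d + 1 - m = (d - m) + 1 by omega]
      ring
    · apply Finset.sum_congr rfl
      intro m hm
      rw [Polynomial.coeff_mul_X, show d + 1 - (m + 1) = d - m by omega]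
      ring

private lemma hz_pow {d : ℕ} {G : R[X]} (hG : G.natDegree ≤ d) (a b s t : R) (e : ℕ) :
    (G * (C a + X * C b) ^ e).natDegree ≤ d + e ∧
      hz (d + e) (G * (C a + X * C b) ^ e) s t = hz d G s t * (s * a + t * b) ^ e := by
  induction e with
  | zero => simpa using hG
  | succ e ih =>
    obtain ⟨h1, h2⟩ := ih
    obtain ⟨h3, h4⟩ := hz_lin h1 a b s t
    rw [pow_succ, ← mul_assoc, ← add_assoc, h4, h2, pow_succ, ← mul_assoc]
    exact ⟨h3, rfl⟩

private lemma hz_mon (p v : Fin 3 → R) (d : Fin 3 →₀ ℕ) (hd : ∑ i, d i = 6) (s t : R) :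
    (∏ i, (C (p i) + X * C (v i)) ^ d i).natDegree ≤ 6 ∧
      hz 6 (∏ i, (C (p i) + X * C (v i)) ^ d i) s t = ∏ i, (s * p i + t * v i) ^ d i := by
  rw [Fin.sum_univ_three] at hd
  rw [Fin.prod_univ_three, Fin.prod_univ_three]
  have h0 : (1 : R[X]).natDegree ≤ 0 := by simp
  obtain ⟨h1, h1'⟩ := hz_pow h0 (p 0) (v 0) s t (d 0)
  obtain ⟨h2, h2'⟩ := hz_pow h1 (p 1) (v 1) s t (d 1)
  obtain ⟨h3, h3'⟩ := hz_pow h2 (p 2) (v 2) s t (d 2)
  rw [one_mul] at h3 h3' h2' h1'
  rw [zero_add, hd] at h3 h3'
  rw [zero_add] at h2' h1'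
  have h4 : hz 0 (1 : R[X]) s t = 1 := by simp [hz]
  refine ⟨h3, ?_⟩
  rw [h3', h2', h1', h4, one_mul]

private lemma sum_six {f : MvPolynomial (Fin 3) k} (hf : f.IsHomogeneous 6) {d : Fin 3 →₀ ℕ}
    (hd : d ∈ f.support) : ∑ i, d i = 6 := by
  have := hf (MvPolynomial.mem_support_iff.mp hd)
  rw [Finsupp.weight_apply, Finsupp.sum_fintype _ _ (fun i => by simp)] at this
  simpa using this

private lemma cm_sum (f : MvPolynomial (Fin 3) k) (p v : Fin 3 → R) (m : ℕ) :
    cm f p v m = ∑ d ∈ f.support, algebraMap k R (f.coeff d) *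
      (∏ i, (C (p i) + X * C (v i)) ^ d i).coeff m := by
  unfold cm
  rw [MvPolynomial.aeval_def, MvPolynomial.eval₂_eq', Polynomial.finsetSum_coeff]
  apply Finset.sum_congr rfl
  intro d _
  rw [Polynomial.algebraMap_apply, Polynomial.coeff_C_mul]

lemma cm_map {R' : Type*} [CommRing R'] [Algebra k R'] (φ : R →ₐ[k] R')
    (f : MvPolynomial (Fin 3) k) (p v : Fin 3 → R) (m : ℕ) :
    cm f (fun i => φ (p i)) (fun i => φ (v i)) m = φ (cm f p v m) := by
  induction f using MvPolynomial.induction_on generalizing m with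
  | C a =>
    rw [cm_C, cm_C]
    split_ifs
    · rw [AlgHom.commutes]
    · rw [map_zero]
  | add f g hf hg => rw [cm_add, cm_add, map_add, hf, hg]
  | mul_X f j hf =>
    rcases m with - | m
    · rw [cm_mul_X_zero, cm_mul_X_zero, map_mul, hf]
    · rw [cm_mul_X_succ, cm_mul_X_succ, map_add, map_mul, map_mul, hf, hf]

lemma cm_zero (f : MvPolynomial (Fin 3) k) (p v : Fin 3 → R) :
    cm f p v 0 = MvPolynomial.aeval p f := by
  induction f using MvPolynomial.induction_on with
  | C a => rw [cm_C, if_pos rfl, MvPolynomial.algHom_C]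
  | add f g hf hg => rw [cm_add, map_add, hf, hg]
  | mul_X f j hf => rw [cm_mul_X_zero, map_mul, MvPolynomial.aeval_X, hf]

lemma cm_one (f : MvPolynomial (Fin 3) k) (p v : Fin 3 → R) :
    cm f p v 1 = ∑ i, v i * MvPolynomial.aeval p (MvPolynomial.pderiv i f) := by
  induction f using MvPolynomial.induction_on with
  | C a =>
    rw [cm_C, if_neg one_ne_zero]
    simp
  | add f g hf hg =>
    rw [cm_add, hf, hg, ← Finset.sum_add_distrib]
    apply Finset.sum_congr rfl
    intro i _
    rw [map_add, map_add, mul_add]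
  | mul_X f j hf =>
    rw [cm_mul_X_succ, hf, cm_zero, Finset.sum_mul]
    have e : ∀ i, v i * MvPolynomial.aeval p (MvPolynomial.pderiv i (f * MvPolynomial.X j)) =
        v i * MvPolynomial.aeval p (MvPolynomial.pderiv i f) * p j +
          (if i = j then MvPolynomial.aeval p f * v j else 0) := by
      intro i
      rw [MvPolynomial.pderiv_mul, map_add, map_mul, map_mul, MvPolynomial.aeval_X,
        MvPolynomial.pderiv_X]
      by_cases h : i = j
      · subst h
        rw [Pi.single_eq_same, map_one, if_pos rfl]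
        ring
      · rw [Pi.single_eq_of_ne (Ne.symm h), map_zero, if_neg h]
        ring
    rw [Finset.sum_congr rfl (fun i _ => e i), Finset.sum_add_distrib, Finset.sum_ite_eq' ]
    simp

lemma cm_high {f : MvPolynomial (Fin 3) k} (hf : f.IsHomogeneous 6) (p v : Fin 3 → R) {m : ℕ}
    (hm : 6 < m) : cm f p v m = 0 := by
  rw [cm_sum]
  apply Finset.sum_eq_zero
  intro d hd
  rw [Polynomial.coeff_eq_zero_of_natDegree_lt
    (lt_of_le_of_lt (hz_mon p v d (sum_six hf hd) 0 0).1 hm), mul_zero]

/-- The form on a line. -/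
theorem aeval_line {f : MvPolynomial (Fin 3) k} (hf : f.IsHomogeneous 6) (p v : Fin 3 → R)
    (s t : R) : MvPolynomial.aeval (fun i => s * p i + t * v i) f =
      cm f p v 0 * s ^ 6 + cm f p v 1 * s ^ 5 * t + cm f p v 2 * s ^ 4 * t ^ 2 +
        cm f p v 3 * s ^ 3 * t ^ 3 + cm f p v 4 * s ^ 2 * t ^ 4 + cm f p v 5 * s * t ^ 5 +
        cm f p v 6 * t ^ 6 := by
  have h1 : MvPolynomial.aeval (fun i => s * p i + t * v i) f =
      ∑ m ∈ Finset.range (6 + 1), cm f p v m * s ^ (6 - m) * t ^ m := by
    rw [MvPolynomial.aeval_def, MvPolynomial.eval₂_eq']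
    have h2 : ∀ d ∈ f.support, algebraMap k R (f.coeff d) * ∏ i, (s * p i + t * v i) ^ d i =
        ∑ m ∈ Finset.range (6 + 1), algebraMap k R (f.coeff d) *
          (∏ i, (C (p i) + X * C (v i)) ^ d i).coeff m * s ^ (6 - m) * t ^ m := by
      intro d hd
      rw [← (hz_mon p v d (sum_six hf hd) s t).2]
      unfold hz
      rw [Finset.mul_sum]
      apply Finset.sum_congr rfl
      intro m _
      ring
    rw [Finset.sum_congr rfl h2, Finset.sum_comm]
    apply Finset.sum_congr rfl
    intro m _
    rw [cm_sum, Finset.sum_mul, Finset.sum_mul]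
  rw [h1]
  simp only [Finset.sum_range_succ, Finset.sum_range_zero]
  ring

theorem cm_symm {f : MvPolynomial (Fin 3) k} (hf : f.IsHomogeneous 6) (p v : Fin 3 → R) {m : ℕ}
    (hm : m ≤ 6) : cm f v p m = cm f p v (6 - m) := by
  have h1 := aeval_line hf (fun i => C (p i)) (fun i => C (v i)) X (1 : R[X])
  have h2 : ∀ j, cm f (fun i => C (p i)) (fun i => C (v i)) j = C (cm f p v j) := by
    intro j
    exact cm_map (IsScalarTower.toAlgHom k R R[X]) f p v j
  have h3 : (fun i => X * C (p i) + 1 * C (v i)) = fun i => C (v i) + X * C (p i) := by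
    funext i
    ring
  simp only [h2, h3, one_pow, mul_one] at h1
  have h4 := congrArg (fun G : R[X] => G.coeff m) h1
  change cm f v p m = _ at h4
  rw [h4]
  simp only [Polynomial.coeff_add, Polynomial.coeff_C_mul, Polynomial.coeff_X_pow,
    Polynomial.coeff_C, Polynomial.coeff_X]
  interval_cases m <;> simp

/-- Euler's relation. -/
theorem euler {f : MvPolynomial (Fin 3) k} (hf : f.IsHomogeneous 6) (p : Fin 3 → R) :
    ∑ i, p i * MvPolynomial.aeval p (MvPolynomial.pderiv i f) = 6 * MvPolynomial.aeval p f := by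
  have h1 := congrArg (MvPolynomial.aeval p) hf.sum_X_mul_pderiv
  rw [map_sum, map_nsmul, nsmul_eq_mul] at h1
  simp only [map_mul, MvPolynomial.aeval_X] at h1
  exact_mod_cast h1

end ring

section res

variable {k : Type u} [Field k] {K : Type u} [Field K] [Algebra k K]

lemma isRes_cm {v : Place k K} (f : MvPolynomial (Fin 3) k) {p q : Fin 3 → K} {p₀ q₀ : Fin 3 → k}
    (hp : ∀ i, IsRes v (p i) (p₀ i)) (hq : ∀ i, IsRes v (q i) (q₀ i)) (m : ℕ) :
    IsRes v (cm f p q m) (cm f p₀ q₀ m) := by
  induction f using MvPolynomial.induction_on generalizing m with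
  | C a =>
    rw [cm_C, cm_C]
    split_ifs
    · exact isRes_const a
    · exact isRes_zero
  | add f g hf hg => rw [cm_add, cm_add]; exact (hf m).add (hg m)
  | mul_X f j hf =>
    rcases m with - | m
    · rw [cm_mul_X_zero, cm_mul_X_zero]
      exact (hf 0).mul (hp j)
    · rw [cm_mul_X_succ, cm_mul_X_succ]
      exact ((hf (m + 1)).mul (hp j)).add ((hf m).mul (hq j))

end res

end Pool.Agent.Helper83.DP
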