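import Mathlib
import Pool.Agent.Helper9.NS
import Pool.Agent.Helper83.DP.Cm
import Pool.Agent.Helper83.QF.Inv
import Pool.Agent.Helper83.VF.Fields
import Pool.Agent.Helper83.KV.FF

/-!
# Block DP-BR: the branch of the curve at the point of contact
Hypotheses `Nrm f`: the point `(1, 0, 0)` is a smooth point of the curve `f = 0` with tangent `x 2 = 0`, and
`f (s, t, 0) = t ^ 2 * qu c (s, t)`, where `c j = cm f (1,0,0) (0,1,0) (j + 2)`; `bI c ≠ 0`, so `c ≠ 0`.
Proof of `exists_branch`. Let `K₀ = RatFunc k` (`y` = the variable) and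
`P = MvPolynomial.aeval ![1, C y, X] f ∈ K₀[X]`; its coefficients are polynomials in `y`.
`P.coeff 0 = f (1, y, 0) = y ^ 2 * qu c (1, y) ≠ 0`; `P.coeff 1 = (∂f/∂x₂) (1, y, 0)`, a polynomial in `y` with
value `γ = (∂f/∂x₂) (1, 0, 0) ≠ 0` at `0`. Let `M` be a splitting field of `P` over `K₀`: a function field
(`VF.ff_ext`), and `e` a place of `M` over `y = 0` (`IsRes e y 0`; existence of a place over a place of `K₀`:
`VP.exists_res`, or: `y` is transcendental so it has a zero: the sum of the orders of `y` is zero, see `VF.path`,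
`exists_zero_at` in `Helper83/KV/App.lean`). CLAIM: one of the roots `z` of `P` in `M` satisfies
`IsRes e z 0`. `P = lead * ∏ (X - z i)`, `P.coeff 0 ≠ 0` so the `z i` are not zero and
`P.coeff 1 = - P.coeff 0 * ∑ 1 / z i` (derivative at `0` of the product). If no `z i` is in the
maximal ideal of `e.ring` then all `1 / z i ∈ e.ring`, and `P.coeff 0` is in the maximal ideal (residue
`0`, because of `y ^ 2`), so `P.coeff 1` has residue `0`, but its residue is `γ`.
-/

set_option linter.unusedSectionVars false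

namespace Pool.Agent.Helper83.DP

open VC VF Function Polynomial

universe u

variable {k : Type u} [Field k] [IsAlgClosed k] [CharZero k]

/-- The normalized situation: `(1, 0, 0)` is a smooth point of the curve, the tangent at this point
is the line `x 2 = 0`, the four other points of intersection contain a double but no triple
point. -/
structure Nrm {k : Type u} [Field k] (f : MvPolynomial (Fin 3) k) : Prop where
  h0 : MvPolynomial.aeval ![(1 : k), 0, 0] f = 0
  h1 : cm f ![(1 : k), 0, 0] ![0, 1, 0] 1 = 0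
  hd : QF.dsc (fun j : Fin 5 => cm f ![(1 : k), 0, 0] ![0, 1, 0] (j.val + 2)) = 0
  hI : QF.bI (fun j : Fin 5 => cm f ![(1 : k), 0, 0] ![0, 1, 0] (j.val + 2)) ≠ 0
  hs : MvPolynomial.aeval ![(1 : k), 0, 0] (MvPolynomial.pderiv 2 f) ≠ 0

private lemma coeff_one38 {K : Type*} [Field K] (s : Multiset K) (hs : ∀ a ∈ s, a ≠ 0) :
    ((s.map (fun a => (X - C a : K[X]))).prod).coeff 1 =
      -(((s.map (fun a => (X - C a : K[X]))).prod).coeff 0 * (s.map (fun a => a⁻¹)).sum) := by
  induction s using Multiset.induction_on with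
  | empty => simp [coeff_one]
  | cons a s ih =>
    have ha := hs a (Multiset.mem_cons_self a s)
    have h1 := ih (fun b hb => hs b (Multiset.mem_cons_of_mem hb))
    rw [Multiset.map_cons, Multiset.prod_cons, Multiset.map_cons, Multiset.sum_cons]
    set Q : K[X] := (s.map (fun a => (X - C a : K[X]))).prod with hQ
    have c0 : ((X - C a) * Q).coeff 0 = -(a * Q.coeff 0) := by
      rw [sub_mul, coeff_sub, coeff_X_mul_zero, coeff_C_mul]
      ring
    have c1 : ((X - C a) * Q).coeff 1 = Q.coeff 0 - a * Q.coeff 1 := by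
      have e : (X * Q).coeff 1 = Q.coeff 0 := by
        rw [show (1 : ℕ) = 0 + 1 from rfl, coeff_X_mul]
      rw [sub_mul, coeff_sub, coeff_C_mul, e]
    rw [c0, c1, h1]
    field_simp
    ring

private lemma aeval_eval38 {K : Type u} [Field K] [Algebra k K] (y : K) (f : MvPolynomial (Fin 3) k) :
    Polynomial.aeval y (MvPolynomial.aeval (![1, X, 0] : Fin 3 → k[X]) f) =
      MvPolynomial.aeval ![1, y, 0] f := by
  have h := MvPolynomial.comp_aeval_apply (R := k) (![1, X, 0] : Fin 3 → k[X])
    (Polynomial.aeval y : k[X] →ₐ[k] K) f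
  have e : (fun i => (Polynomial.aeval y : k[X] →ₐ[k] K) ((![1, X, 0] : Fin 3 → k[X]) i)) =
      ![1, y, 0] := by
    funext i
    fin_cases i
    · simp
    · simp
    · simp
  rw [e] at h
  exact h

private lemma coeff_zero38 {f : MvPolynomial (Fin 3) k} (hf : f.IsHomogeneous 6) :
    MvPolynomial.aeval (![1, X, 0] : Fin 3 → k[X]) f =
      C (cm f ![(1 : k), 0, 0] ![0, 1, 0] 0) + C (cm f ![(1 : k), 0, 0] ![0, 1, 0] 1) * X +
      C (cm f ![(1 : k), 0, 0] ![0, 1, 0] 2) * X ^ 2 +
      C (cm f ![(1 : k), 0, 0] ![0, 1, 0] 3) * X ^ 3 +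
      C (cm f ![(1 : k), 0, 0] ![0, 1, 0] 4) * X ^ 4 +
      C (cm f ![(1 : k), 0, 0] ![0, 1, 0] 5) * X ^ 5 +
      C (cm f ![(1 : k), 0, 0] ![0, 1, 0] 6) * X ^ 6 := by
  have h1 := aeval_line hf (R := k[X]) (fun i => Algebra.ofId k k[X] ((![(1 : k), 0, 0]) i))
    (fun i => Algebra.ofId k k[X] ((![(0 : k), 1, 0]) i)) 1 X
  have e : (fun i => (1 : k[X]) * Algebra.ofId k k[X] ((![(1 : k), 0, 0]) i) +
      X * Algebra.ofId k k[X] ((![(0 : k), 1, 0]) i)) = ![1, X, 0] := by
    funext i
    fin_cases i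
    · simp
    · simp
    · simp
  rw [e] at h1
  rw [h1]
  simp only [cm_map, one_pow, mul_one]
  rfl

theorem exists_branch {f : MvPolynomial (Fin 3) k} (hf : f.IsHomogeneous 6) (h : Nrm f) :
    ∃ (L : Type u) (_ : Field L) (_ : Algebra k L) (y z : L) (e1 : Place k L),
      IsFunctionField k L ∧ Transcendental k y ∧ MvPolynomial.aeval ![1, y, z] f = 0 ∧
        IsRes e1 y 0 ∧ IsRes e1 z 0 := by
  -- the polynomial in two variables
  set p' : Fin 3 → k[X] := ![1, X, 0] with hp'
  set v' : Fin 3 → k[X] := ![0, 0, 1] with hv'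
  set F : k[X][X] := MvPolynomial.aeval (fun i => C (p' i) + X * C (v' i)) f with hF
  have F0 : F.coeff 0 = MvPolynomial.aeval p' f := cm_zero f p' v'
  have F1 : F.coeff 1 = MvPolynomial.aeval p' (MvPolynomial.pderiv 2 f) := by
    have h1 := cm_one f p' v'
    rw [Fin.sum_univ_three] at h1
    have h2 : F.coeff 1 = cm f p' v' 1 := rfl
    rw [h2, h1]
    simp [hv']
  have F0c := coeff_zero38 hf
  rw [← hp', ← F0] at F0c
  have hc0 : cm f ![(1 : k), 0, 0] ![0, 1, 0] 0 = 0 := by rw [cm_zero]; exact h.h0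
  have hF0ne : F.coeff 0 ≠ 0 := by
    intro h0
    rw [h0, hc0, h.h1] at F0c
    apply h.hI
    have hc : ∀ j : Fin 5, cm f ![(1 : k), 0, 0] ![0, 1, 0] (j.val + 2) = 0 := by
      intro j
      have h1 := congrArg (fun q : k[X] => q.coeff (j.val + 2)) F0c
      simp only [coeff_zero, coeff_add, coeff_C_mul, coeff_X_pow, map_zero, zero_mul] at h1
      fin_cases j
      · simpa using h1.symm
      · simpa using h1.symm
      · simpa using h1.symm
      · simpa using h1.symm
      · simpa using h1.symm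
    unfold QF.bI
    simp only [hc]
    ring
  have hF0e : (F.coeff 0).eval 0 = 0 := by
    rw [F0c, hc0, h.h1]
    simp
  have hF1e : (F.coeff 1).eval 0 ≠ 0 := by
    rw [F1, ← Polynomial.coe_aeval_eq_eval, hp', aeval_eval38]
    exact h.hs
  -- the field
  obtain ⟨K, iK, iA, iR, iT, hK, hs⟩ := exists_splits (ff_ratFunc (k := k))
    (F.map (algebraMap k[X] (RatFunc k)))
  set y : K := algebraMap (RatFunc k) K RatFunc.X with hy
  have hyt : Transcendental k y :=
    (transcendental_algebraMap_iff (algebraMap (RatFunc k) K).injective).mpr transcendental_ratX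
  set φ : k[X] →ₐ[k] K := Polynomial.aeval y with hφ
  have hmap : (F.map (algebraMap k[X] (RatFunc k))).map (algebraMap (RatFunc k) K) =
      F.map (φ : k[X] →+* K) := by
    rw [Polynomial.map_map]
    congr 1
    apply Polynomial.ringHom_ext
    · intro a
      have e1 : (φ : k[X] →+* K) (C a) = algebraMap k K a := by
        change φ (C a) = _
        rw [hφ, Polynomial.aeval_C]
      rw [e1, RingHom.comp_apply]
      change algebraMap (RatFunc k) K (algebraMap k[X] (RatFunc k) (algebraMap k k[X] a)) = _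
      rw [← IsScalarTower.algebraMap_apply k k[X] (RatFunc k),
        ← IsScalarTower.algebraMap_apply k (RatFunc k) K]
    · have e1 : (φ : k[X] →+* K) X = y := by
        change φ X = _
        rw [hφ, Polynomial.aeval_X]
      rw [e1, RingHom.comp_apply, RatFunc.algebraMap_X]
  rw [hmap] at hs
  set P : K[X] := F.map (φ : k[X] →+* K) with hP
  have hP0 : P.coeff 0 = φ (F.coeff 0) := by rw [hP, Polynomial.coeff_map]; rfl
  have hP1 : P.coeff 1 = φ (F.coeff 1) := by rw [hP, Polynomial.coeff_map]; rfl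
  have hP0ne : P.coeff 0 ≠ 0 := by
    rw [hP0]
    exact aeval_ne_zero hyt hF0ne
  have hPne : P ≠ 0 := by
    intro h0
    rw [h0, coeff_zero] at hP0ne
    exact hP0ne rfl
  -- the place
  obtain ⟨e, he⟩ := exists_place hK hyt
  have hey : IsRes e y 0 := isRes_zero_iff.mpr he
  have hr0 : IsRes e (P.coeff 0) 0 := by
    have h1 : IsRes e (Polynomial.aeval y (F.coeff 0)) ((F.coeff 0).eval 0) := hey.poly
    rw [hF0e] at h1
    rw [hP0]
    exact h1
  have hr1 : IsRes e (P.coeff 1) ((F.coeff 1).eval 0) := by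
    have h1 : IsRes e (Polynomial.aeval y (F.coeff 1)) ((F.coeff 1).eval 0) := hey.poly
    rw [hP1]
    exact h1
  have hroots : ∀ a ∈ P.roots, a ≠ 0 := by
    rintro a ha rfl
    rw [Polynomial.mem_roots hPne, Polynomial.IsRoot.def, ← Polynomial.coeff_zero_eq_eval_zero] at ha
    exact hP0ne ha
  -- a root with value zero
  obtain ⟨z, hz, hz0⟩ : ∃ z ∈ P.roots, z ∈ e.ring.nonunits := by
    by_contra hcon
    push Not at hcon
    have h1 : ∀ a ∈ P.roots, a⁻¹ ∈ e.ring := by
      intro a ha
      have h2 := hcon a ha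
      rw [ValuationSubring.mem_nonunits_iff_or] at h2
      push Not at h2
      exact h2.2
    have h2 : (P.roots.map (fun a => a⁻¹)).sum ∈ e.ring := by
      apply multiset_sum_mem
      intro b hb
      obtain ⟨a, ha, rfl⟩ := Multiset.mem_map.mp hb
      exact h1 a ha
    have h3 : P.coeff 1 = -(P.coeff 0 * (P.roots.map (fun a => a⁻¹)).sum) := by
      have h4 := hs.eq_prod_roots
      have h5 := coeff_one38 P.roots hroots
      have e0 : P.coeff 0 = P.leadingCoeff *
          ((P.roots.map (fun a => (X - C a : K[X]))).prod).coeff 0 := by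
        conv_lhs => rw [h4]
        rw [coeff_C_mul]
      have e1 : P.coeff 1 = P.leadingCoeff *
          ((P.roots.map (fun a => (X - C a : K[X]))).prod).coeff 1 := by
        conv_lhs => rw [h4]
        rw [coeff_C_mul]
      rw [e0, e1, h5]
      ring
    obtain ⟨d, hd⟩ := exists_res hK h2
    have h4 : IsRes e (P.coeff 1) (-(0 * d)) := by
      rw [h3]
      exact (hr0.mul hd).neg
    have h5 := hr1.unique h4
    rw [zero_mul, neg_zero] at h5
    exact hF1e h5
  refine ⟨K, iK, iA, y, z, e, hK, hyt, ?_, hey, isRes_zero_iff.mpr hz0⟩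
  have h1 : P.eval z = 0 := (Polynomial.mem_roots hPne).mp hz
  rw [hP, Polynomial.eval_map] at h1
  let ψ : k[X][X] →ₐ[k] K :=
    { Polynomial.eval₂RingHom (φ : k[X] →+* K) z with
      commutes' := fun r => by
        change Polynomial.eval₂ (φ : k[X] →+* K) z (C (algebraMap k k[X] r)) = _
        rw [Polynomial.eval₂_C]
        exact φ.commutes r }
  have h2 : ψ F = 0 := h1
  have h3 := MvPolynomial.comp_aeval_apply (R := k) (fun i => C (p' i) + X * C (v' i)) ψ f
  rw [← hF, h2] at h3
  rw [h3]
  congr 2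
  funext i
  have h4 : ∀ q : k[X], ψ (C q) = φ q := by
    intro q
    change Polynomial.eval₂ (φ : k[X] →+* K) z (C q) = _
    rw [Polynomial.eval₂_C]
    rfl
  have h5 : ψ X = z := by
    change Polynomial.eval₂ (φ : k[X] →+* K) z X = _
    rw [Polynomial.eval₂_X]
  rw [map_add, map_mul, h4, h4, h5]
  fin_cases i
  · simp [hp', hv']
  · simp [hp', hv', hφ]
  · simp [hp', hv']

end Pool.Agent.Helper83.DP
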