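import Mathlib
import Pool.Agent.Helper9.NS
import Pool.Agent.Helper83.DP.Cm
import Pool.Agent.Helper83.VF.Fields
import Pool.Agent.Helper83.VN.Bad
import Pool.Agent.Helper17.FF.Genus

/-!
# Block DP-DOM: every point is on a curve almost all of whose points are over the lines `T_P`
`OnT G P x`: the point `x` of the plane lies on the line with coefficients `(G 0 : G 1 : G 2) (P)`.
Proof of `onT_of`. Let `h = (∑ i, x i * G i) / G 2`, not in `k`. It has a zero at a place `P` (a nonconstant
function has a zero: sum of the orders is zero; `exists_zero_at` in `Helper83/KV/App.lean`). Let `j` be an index such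
that `G i / G j ∈ P.ring` for all `i` (`VF.exists_max`), `l = 1 / G j`, `g i` the residue of `l * G i`, `g j = 1`.
`∑ g i * x i` is the residue of `h * (l * G 2)`, which is `0`.
`dom_line`: let `p = dpt f y0 m`. For `P ∈ B` let `g_P` be the normalized residue of `G` at `P` (as above),
`U_P = {x | ∑ g_P i * x i = 0}`, a proper subspace of `k ^ 3`; `W = {x | ∃ c : k, ∑ x i * G i = c * G 2}`, a
subspace, proper by `hG`. Since `k` is infinite there is `y1` outside the finitely many proper
subspaces `U_P` (`P ∈ B`), `W` and `k y0` (`Subspace.biUnion_ne_univ_of_top_nmem` or similar: a finite union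
of proper subspaces is not everything). Let `K` be the field with `τ` transcendental and
`w ^ 2 = f (y0 + τ (y1 - y0))` (`exists_poly_roots`), `c = dpt f (y0 + τ (y1 - y0)) w`. At a place over `τ = 0` the value
of `c` is `dpt f y0 m` or `dpt f y0 (-m)`; in the second case replace `w` by `- w`. For each of the
subspaces `U` there is at most one `τ₀ ∈ k` with `y0 + τ₀ (y1 - y0) ∈ U` (otherwise `y1 - y0 ∈ U` and
`y0 ∈ U`, so `y1 ∈ U`), also for `U = 0`. By `VN.fin_pl` the places where `τ` has a pole or one of these finitely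
many values are finite in number. At the other places `τ` has a residue `τ₀`, the value of `c` is
`dpt f (y0 + τ₀ (y1 - y0)) m'` and `x = y0 + τ₀ (y1 - y0)` satisfies `OnT G P x` for some `P` by `onT_of`
(`x ∉ W`), `P ∉ B` since `x ∉ U_P` (the vector `g` in `OnT` is unique up to a factor in `k`).
-/

set_option linter.unusedSectionVars false

namespace Pool.Agent.Helper83.DP

open VC VF Function Polynomial

universe u

variable {k : Type u} [Field k] [IsAlgClosed k] [CharZero k] {L : Type u} [Field L] [Algebra k L]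

/-- The point `x` of the plane lies on the line with coefficients `G` at the place `P`. -/
def OnT {k L : Type u} [Field k] [Field L] [Algebra k L] (G : Fin 3 → L) (P : Place k L)
    (x : Fin 3 → k) : Prop :=
  ∃ (l : L) (g : Fin 3 → k), l ≠ 0 ∧ g ≠ 0 ∧ (∀ i, IsRes P (l * G i) (g i)) ∧
    ∑ i, g i * x i = 0

lemma dom_transc {h : L} (hh : ∀ c : k, h ≠ algebraMap k L c) : Transcendental k h := by
  intro ha
  have hint : IsIntegral k h := ha.isIntegral
  have h1 : (minpoly k h).degree = 1 :=
    IsAlgClosed.degree_eq_one_of_irreducible k (minpoly.irreducible hint)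
  obtain ⟨c, hc⟩ := minpoly.mem_range_of_degree_eq_one k h h1
  exact hh c hc.symm

/-- Normalized residues of the coefficients. -/
lemma dom_norm (hL : IsFunctionField k L) {G : Fin 3 → L} (h2 : G 2 ≠ 0) (P : Place k L) :
    ∃ (j : Fin 3) (g : Fin 3 → k), G j ≠ 0 ∧ g j = 1 ∧ ∀ i, IsRes P ((G j)⁻¹ * G i) (g i) := by
  obtain ⟨j, hj, hj'⟩ := exists_max P.ring G (fun h => h2 (congrFun h 2))
  have h1 : ∀ i, ∃ c, IsRes P ((G j)⁻¹ * G i) c := by
    intro i
    rw [mul_comm]
    exact exists_res hL (hj' i)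
  choose g hg using h1
  refine ⟨j, g, hj, ?_, hg⟩
  have h3 := hg j
  rw [inv_mul_cancel₀ hj] at h3
  exact h3.unique isRes_one

theorem onT_of (hL : IsFunctionField k L) {G : Fin 3 → L} (h2 : G 2 ≠ 0) {x : Fin 3 → k}
    (hx : ∀ c : k, ∑ i, algebraMap k L (x i) * G i ≠ algebraMap k L c * G 2) :
    ∃ P : Place k L, OnT G P x := by
  have hh : ∀ c : k, (∑ i, algebraMap k L (x i) * G i) / G 2 ≠ algebraMap k L c := by
    intro c hc
    apply hx c
    rw [← hc, div_mul_cancel₀ _ h2]
  obtain ⟨P, hP⟩ := exists_place hL (dom_transc hh)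
  obtain ⟨j, g, hj, hgj, hg⟩ := dom_norm hL h2 P
  refine ⟨P, (G j)⁻¹, g, inv_ne_zero hj, ?_, hg, ?_⟩
  · intro h0
    rw [h0] at hgj
    exact zero_ne_one hgj
  · have h3 : IsRes P (∑ i, ((G j)⁻¹ * G i) * algebraMap k L (x i)) (∑ i, g i * x i) :=
      IsRes.sum _ fun i _ => (hg i).mul (isRes_const _)
    have h4 : IsRes P ((∑ i, algebraMap k L (x i) * G i) / G 2 * ((G j)⁻¹ * G 2)) (0 * g 2) :=
      (isRes_zero_iff.mpr hP).mul (hg 2)
    have e : ∑ i, ((G j)⁻¹ * G i) * algebraMap k L (x i) =
        (∑ i, algebraMap k L (x i) * G i) / G 2 * ((G j)⁻¹ * G 2) := by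
      rw [div_mul_eq_mul_div, eq_div_iff h2, Finset.sum_mul, Finset.sum_mul]
      exact Finset.sum_congr rfl fun i _ => by ring
    rw [e] at h3
    have h5 := h3.unique h4
    rw [h5, zero_mul]

/-- The vector of coefficients is unique up to a factor. -/
lemma dom_unique {G : Fin 3 → L} {P : Place k L} {x : Fin 3 → k} {j : Fin 3}
    {g : Fin 3 → k} (hj : G j ≠ 0) (hg : ∀ i, IsRes P ((G j)⁻¹ * G i) (g i))
    (h : OnT G P x) : ∑ i, g i * x i = 0 := by
  obtain ⟨l, g', hl, hg0, hg', hs⟩ := h
  have h1 : ∀ i, g' i = g' j * g i := by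
    intro i
    have h2 := (hg' j).mul (hg i)
    have e : l * G j * ((G j)⁻¹ * G i) = l * G i := by
      field_simp
    rw [e] at h2
    exact (hg' i).unique h2
  have h3 : g' j ≠ 0 := by
    intro h0
    apply hg0
    funext i
    rw [h1 i, h0, zero_mul]
    rfl
  have h4 : g' j * ∑ i, g i * x i = 0 := by
    rw [Finset.mul_sum, ← hs]
    exact Finset.sum_congr rfl fun i _ => by rw [h1 i]; ring
  exact (mul_eq_zero.mp h4).resolve_left h3

/-- The plane with coefficients `g`. -/
def domU (g : Fin 3 → k) : Submodule k (Fin 3 → k) where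
  carrier := {x | ∑ i, g i * x i = 0}
  zero_mem' := by simp
  add_mem' := by
    intro a b ha hb
    rw [Set.mem_ofPred_eq] at ha hb ⊢
    simp only [Pi.add_apply, mul_add, Finset.sum_add_distrib]
    rw [ha, hb, add_zero]
  smul_mem' := by
    intro c a ha
    rw [Set.mem_ofPred_eq] at ha ⊢
    have e : ∑ i, g i * (c • a) i = c * ∑ i, g i * a i := by
      rw [Finset.mul_sum]
      exact Finset.sum_congr rfl fun i _ => by rw [Pi.smul_apply, smul_eq_mul]; ring
    rw [e, ha, mul_zero]

/-- The vectors whose combination is a constant. -/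
def domW (G : Fin 3 → L) : Submodule k (Fin 3 → k) where
  carrier := {x | ∃ c : k, ∑ i, algebraMap k L (x i) * G i = algebraMap k L c * G 2}
  zero_mem' := ⟨0, by simp⟩
  add_mem' := by
    rintro a b ⟨c, hc⟩ ⟨d, hd⟩
    refine ⟨c + d, ?_⟩
    simp only [Pi.add_apply, map_add, add_mul, Finset.sum_add_distrib]
    rw [hc, hd]
  smul_mem' := by
    rintro c a ⟨d, hd⟩
    refine ⟨c * d, ?_⟩
    have e : ∑ i, algebraMap k L ((c • a) i) * G i =
        algebraMap k L c * ∑ i, algebraMap k L (a i) * G i := by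
      rw [Finset.mul_sum]
      exact Finset.sum_congr rfl fun i _ => by rw [Pi.smul_apply, smul_eq_mul, map_mul]; ring
    rw [e, hd, map_mul]
    ring

theorem dom_line {f : MvPolynomial (Fin 3) k} (hf : f.IsHomogeneous 6)
    (hL : IsFunctionField k L) {G : Fin 3 → L} (h2 : G 2 ≠ 0)
    (hG : ∃ i, ∀ c : k, G i ≠ algebraMap k L c * G 2) {B : Set (Place k L)} (hB : B.Finite)
    (p : (surface f hf).Pt) :
    ∃ (K : Type u) (_ : Field K) (_ : Algebra k K) (hK : IsFunctionField k K)
      (c : (surface f hf).Mor K) (v : Place k K), (surface f hf).eval hK c v = p ∧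
      {w : Place k K | ¬ ∃ (x : Fin 3 → k) (m : k), x ≠ 0 ∧ m ^ 2 = MvPolynomial.aeval x f ∧
        (surface f hf).eval hK c w = dpt f x m ∧ ∃ P, P ∉ B ∧ OnT G P x}.Finite := by
  classical
  obtain ⟨y0, m, hy0, hm, rfl⟩ := exists_dpt p
  choose J g hJ hgJ hg using fun P => dom_norm hL h2 P
  let 𝒰 : Finset (Submodule k (Fin 3 → k)) :=
    (hB.toFinset.image fun P => domU (g P)) ∪ {domW G, Submodule.span k {y0}}
  have hinf : Infinite k := inferInstance
  have htop : ⊤ ∉ 𝒰 := by
    intro h
    rw [Finset.mem_union, Finset.mem_image, Finset.mem_insert, Finset.mem_singleton] at h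
    rcases h with ⟨P, -, h⟩ | h | h
    · have h3 : (Pi.single (J P) 1 : Fin 3 → k) ∈ domU (g P) := by rw [h]; trivial
      change ∑ i, g P i * (Pi.single (J P) 1 : Fin 3 → k) i = 0 at h3
      rw [Finset.sum_eq_single (J P)] at h3
      · rw [Pi.single_eq_same, mul_one, hgJ] at h3
        exact one_ne_zero h3
      · intro i _ hi
        rw [Pi.single_eq_of_ne hi, mul_zero]
      · intro h4
        exact absurd (Finset.mem_univ _) h4
    · obtain ⟨i, hi⟩ := hG
      have h3 : (Pi.single i 1 : Fin 3 → k) ∈ domW G := by rw [← h]; trivial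
      obtain ⟨c, hc⟩ := h3
      rw [Finset.sum_eq_single i] at hc
      · rw [Pi.single_eq_same, map_one, one_mul] at hc
        exact hi c hc
      · intro j _ hj
        rw [Pi.single_eq_of_ne hj, map_zero, zero_mul]
      · intro h4
        exact absurd (Finset.mem_univ _) h4
    · have h3 := finrank_span_singleton (K := k) hy0
      rw [← h, finrank_top, Module.finrank_fin_fun] at h3
      omega
  have hcov := Subspace.biUnion_ne_univ_of_top_notMem htop
  obtain ⟨y1, hy1⟩ : ∃ y1 : Fin 3 → k, ∀ U ∈ 𝒰, y1 ∉ U := by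
    by_contra hcon
    push Not at hcon
    apply hcov
    rw [Set.eq_univ_iff_forall]
    intro y
    obtain ⟨U, hU, hy⟩ := hcon y
    exact Set.mem_iUnion₂.mpr ⟨U, hU, hy⟩
  -- the points of the line
  let z : k → Fin 3 → k := fun c i => y0 i + c * (y1 i - y0 i)
  have hbad : (⋃ U ∈ 𝒰, {c : k | z c ∈ U}).Finite := by
    refine Set.Finite.biUnion 𝒰.finite_toSet fun U hU => Set.Subsingleton.finite ?_
    intro c hc d hd
    by_contra hne
    have hcd : c - d ≠ 0 := sub_ne_zero.mpr hne
    have h3 : z c - z d ∈ U := U.sub_mem hc hd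
    have e3 : z c - z d = (c - d) • (y1 - y0) := by
      funext i
      simp only [z, Pi.sub_apply, Pi.smul_apply, smul_eq_mul]
      ring
    rw [e3] at h3
    have h4 : y1 - y0 ∈ U := (U.smul_mem_iff hcd).mp h3
    have e5 : y1 = z c + (1 - c) • (y1 - y0) := by
      funext i
      simp only [z, Pi.add_apply, Pi.sub_apply, Pi.smul_apply, smul_eq_mul]
      ring
    apply hy1 U hU
    rw [e5]
    exact U.add_mem hc (U.smul_mem _ h4)
  -- the field
  obtain ⟨K, _, _, τ, y, hK, hτ, hy⟩ := exists_poly_roots (k := k) (n := 1) two_ne_zero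
    (fun _ => (MvPolynomial.aeval (fun i => C (y0 i) + X * C (y1 i - y0 i)) f : k[X]))
  let x : Fin 3 → K := fun i => algebraMap k K (y0 i) + τ * algebraMap k K (y1 i - y0 i)
  have hyx : y 0 ^ 2 = MvPolynomial.aeval x f := by
    rw [hy 0, MvPolynomial.comp_aeval_apply]
    congr 1
    congr 1
    funext i
    rw [map_add, map_mul, aeval_C, aeval_C, aeval_X]
  have hres : ∀ (v : Place k K) (c : k), IsRes v τ c → ∀ i, IsRes v (x i) (z c i) :=
    fun v c hc i => (isRes_const _).add (hc.mul (isRes_const _))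
  obtain ⟨v, hv⟩ := exists_place hK hτ
  have hz0 : z 0 = y0 := by
    funext i
    simp only [z]
    ring
  have hv0 := hres v 0 (isRes_zero_iff.mpr hv)
  rw [hz0] at hv0
  obtain ⟨w, hw, hwm⟩ : ∃ w : K, w ^ 2 = MvPolynomial.aeval x f ∧ IsRes v w m := by
    have h3 : IsRes v (y 0 ^ 2) (m ^ 2) := by
      rw [hyx, hm]
      exact isRes_aeval hv0 f
    obtain ⟨e, he, he2⟩ := exists_res_of_pow hK two_ne_zero h3
    rcases sq_eq_sq_iff_eq_or_eq_neg.mp he2 with h4 | h4
    · exact ⟨y 0, hyx, by rwa [h4] at he⟩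
    · refine ⟨-y 0, by rw [neg_sq]; exact hyx, ?_⟩
      have h5 := he.neg
      rwa [h4, neg_neg] at h5
  refine ⟨K, inferInstance, inferInstance, hK, dpt f x w, v, eval_dpt hf hK v hw hy0 hv0 hwm, ?_⟩
  refine (VN.fin_pl hK hτ hbad).subset ?_
  intro w' hw'
  by_contra hcon
  apply hw'
  rw [Set.mem_ofPred_eq] at hcon
  push Not at hcon
  obtain ⟨h3, h4⟩ := hcon
  obtain ⟨c, hc⟩ := exists_res hK h3
  have h5 : ∀ U ∈ 𝒰, z c ∉ U := by
    intro U hU h6
    exact h4 c (Set.mem_iUnion₂.mpr ⟨U, hU, h6⟩) hc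
  have hx' := hres w' c hc
  have h6 : IsRes w' (w ^ 2) (MvPolynomial.aeval (z c) f) := by
    rw [hw]
    exact isRes_aeval hx' f
  obtain ⟨e, he, he2⟩ := exists_res_of_pow hK two_ne_zero h6
  have hz : z c ≠ 0 := by
    intro h7
    refine h5 (Submodule.span k {y0}) ?_ (by rw [h7]; exact Submodule.zero_mem _)
    exact Finset.mem_union_right _ (Finset.mem_insert_of_mem (Finset.mem_singleton_self _))
  refine ⟨z c, e, hz, he2, eval_dpt hf hK w' hw hz hx' he, ?_⟩
  have hW : z c ∉ domW G :=
    h5 _ (Finset.mem_union_right _ (Finset.mem_insert_self _ _))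
  obtain ⟨P, hP⟩ := onT_of hL h2 (x := z c) (fun d hd => hW ⟨d, hd⟩)
  refine ⟨P, fun hPB => ?_, hP⟩
  refine h5 (domU (g P)) ?_ (dom_unique (hJ P) (hg P) hP)
  exact Finset.mem_union_left _ (Finset.mem_image_of_mem _ (hB.mem_toFinset.mpr hPB))

end Pool.Agent.Helper83.DP
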