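import Mathlib
import Pool.Agent.Helper9.NS
import Pool.Agent.Helper83.VF.Fields
import Pool.Agent.Helper83.VF.Kill
import Pool.Agent.Helper83.DP.Cm

/-!
# Block DP-EVN: even functions are constant
Adapt `Helper83/QF/Evn.lean`: for `p = dpt f y m`, `p' = dpt f y' m'` take (`exists_poly_roots`) the field `K`
with `τ` transcendental and `w ^ 2 = f (y + τ (y' - y))`; the point `dpt f (y + τ (y' - y)) w` has at the
places over `τ = 0` the value `dpt f y (± m)` and over `τ = 1` the value `dpt f y' (± m')` (`eval_dpt`,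
`neg_dpt`); `VF.path`. `ram_const`: the function `p ↦ ψ p + ψ (neg p)` satisfies `Kills`
(`Kills.add`, `Kills.comp`, `induced_neg`) and is even, and `neg (dpt f y 0) = dpt f y 0`.
-/

set_option linter.unusedSectionVars false

namespace Pool.Agent.Helper83.DP

open VC VF Function Polynomial

universe u

variable {k : Type u} [Field k] [IsAlgClosed k] [CharZero k] {f : MvPolynomial (Fin 3) k}
  (hf : f.IsHomogeneous 6)

omit [IsAlgClosed k] [CharZero k] in
private lemma aeval_along38 {K : Type u} [Field K] [Algebra k K] (τ : K)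
    (F : MvPolynomial (Fin 3) k) (r r' : Fin 3 → k) :
    Polynomial.aeval τ (MvPolynomial.aeval
      (fun i : Fin 3 => (C (r i) + X * C (r' i - r i) : k[X])) F) =
      MvPolynomial.aeval (fun i => algebraMap k K (r i) + τ * algebraMap k K (r' i - r i)) F := by
  have h2 : (Polynomial.aeval τ) ((MvPolynomial.aeval
      (fun i : Fin 3 => (C (r i) + X * C (r' i - r i) : k[X]))) F) =
      ((Polynomial.aeval τ : k[X] →ₐ[k] K).comp (MvPolynomial.aeval
      (fun i : Fin 3 => (C (r i) + X * C (r' i - r i) : k[X])))) F := rfl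
  rw [h2, MvPolynomial.comp_aeval]
  congr 2
  funext i
  simp only [map_add, map_mul, aeval_C, aeval_X]

private lemma even_aff38 {ψ : (surface f hf).Pt → k} (h : Kills (surface f hf) ψ)
    (he : ∀ p, ψ (neg p) = ψ p) {y y' : Fin 3 → k} (hy : y ≠ 0) (hy' : y' ≠ 0) {m m' : k}
    (h1 : m ^ 2 = MvPolynomial.aeval y f) (h1' : m' ^ 2 = MvPolynomial.aeval y' f) :
    ψ (dpt f y m) = ψ (dpt f y' m') := by
  obtain ⟨K, _, _, τ, W, hK, hτ, hW⟩ := exists_poly_roots (k := k) two_ne_zero
    (fun _ : Fin 1 => (MvPolynomial.aeval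
      (fun i : Fin 3 => (C (y i) + X * C (y' i - y i) : k[X])) f))
  have hw0 := hW 0
  set w := W 0 with hw
  set x : Fin 3 → K := fun j => algebraMap k K (y j) + τ * algebraMap k K (y' j - y j) with hx
  have hKw : w ^ 2 = MvPolynomial.aeval x f := by rw [hw0, aeval_along38]
  have key : ∀ (t : k) (z : Fin 3 → k) (g : k), z ≠ 0 →
      (∀ j, z j = y j + t * (y' j - y j)) → g ^ 2 = MvPolynomial.aeval z f →
      ∀ v : Place k K, IsRes v τ t → ψ ((surface f hf).eval hK (dpt f x w) v) =
        ψ (dpt f z g) := by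
    intro t z g hz hzt hg v hv
    have hxe : ∀ j, IsRes v (x j) (z j) := by
      intro j
      rw [hzt j]
      exact (isRes_const _).add (hv.mul (isRes_const _))
    obtain ⟨g', hg', hg2⟩ := exists_res_of_pow hK two_ne_zero (x := w) (v := v)
      (c := MvPolynomial.aeval z f) (by rw [hKw]; exact isRes_aeval hxe f)
    rw [eval_dpt hf hK v hKw hz hxe hg']
    rw [← hg] at hg2
    rcases sq_eq_sq_iff_eq_or_eq_neg.mp hg2 with h2 | h2
    · rw [h2]
    · rw [h2, ← neg_dpt hz hg, he]
  exact path h hK _ hτ zero_ne_one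
    (key 0 y m hy (fun i => by ring) h1)
    (key 1 y' m' hy' (fun i => by ring) h1')

theorem even_const {ψ : (surface f hf).Pt → k} (h : Kills (surface f hf) ψ)
    (he : ∀ p, ψ (neg p) = ψ p) (p q : (surface f hf).Pt) : ψ p = ψ q := by
  obtain ⟨y, m, hy, h1, rfl⟩ := exists_dpt p
  obtain ⟨y', m', hy', h1', rfl⟩ := exists_dpt q
  exact even_aff38 hf h he hy hy' h1 h1'

theorem ram_const {ψ : (surface f hf).Pt → k} (h : Kills (surface f hf) ψ) {y y' : Fin 3 → k}
    (hy : y ≠ 0) (hy' : y' ≠ 0) (h1 : MvPolynomial.aeval y f = 0)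
    (h1' : MvPolynomial.aeval y' f = 0) : ψ (dpt f y 0) = ψ (dpt f y' 0) := by
  have h2 : Kills (surface f hf) (fun p => ψ p + ψ (neg p)) := h.add (h.comp (induced_neg hf))
  have h3 : ∀ p : (surface f hf).Pt, ψ (neg p) + ψ (neg (neg p)) = ψ p + ψ (neg p) := by
    intro p
    rw [neg_neg', add_comm]
  have h4 := even_const hf h2 h3 (dpt f y 0) (dpt f y' 0)
  have e : ∀ {z : Fin 3 → k}, z ≠ 0 → MvPolynomial.aeval z f = 0 →
      neg (dpt f z (0 : k)) = dpt f z 0 := by
    intro z hz hz0
    rw [neg_dpt hz (by rw [hz0]; ring), neg_zero]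
  simp only [e hy h1, e hy' h1'] at h4
  have h5 : (2 : k) * ψ (dpt f y 0) = 2 * ψ (dpt f y' 0) := by
    rw [two_mul, two_mul]
    exact h4
  exact mul_left_cancel₀ two_ne_zero h5

end Pool.Agent.Helper83.DP
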