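import Mathlib
import Pool.Agent.Helper9.NS
import Pool.Agent.Helper83.VF.Fields
import Pool.Agent.Helper70.VP.RH2
import Pool.Agent.Helper83.QF.Bc

/-!
# Block DP-EXT: adjoining a root
Proof. Let `L` be the splitting field of `Q` over `K` (or `AdjoinRoot` of an irreducible factor): finite over
`K`, a function field (`VF.ff_ext`, see `Helper83/KV/FF.lean`, `exists_ff`, for the construction with a
subfield of an algebraic closure). `VP.exists_res hK hL e0` gives a place `e1` of `L` with
`VQ.res hK hL e1 = e0`. The last property: as in the proof of `QF.wmap_eval` (`Helper83/QF/Bc.lean`).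
-/

set_option linter.unusedSectionVars false

namespace Pool.Agent.Helper83.DP

open VC VF Function Polynomial

universe u

variable {k : Type u} [Field k] [IsAlgClosed k] [CharZero k]

theorem exists_root_ext {K : Type u} [Field K] [Algebra k K] (hK : IsFunctionField k K)
    (e0 : Place k K) (Q : K[X]) (hQ : 0 < Q.natDegree) :
    ∃ (L : Type u) (_ : Field L) (_ : Algebra k L) (ι : K →ₐ[k] L) (ρ : L) (e1 : Place k L),
      IsFunctionField k L ∧ Q.eval₂ (ι : K →+* L) ρ = 0 ∧
        ∀ (x : K) (c : k), IsRes e0 x c → IsRes e1 (ι x) c := by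
  obtain ⟨r, hr⟩ := IsAlgClosed.exists_eval₂_eq_zero (algebraMap K (AlgebraicClosure K)) Q
    (by
      intro h0
      rw [Polynomial.natDegree_eq_of_degree_eq_some h0] at hQ
      exact absurd hQ (lt_irrefl 0))
  let L : IntermediateField K (AlgebraicClosure K) := IntermediateField.adjoin K {r}
  have hfin : FiniteDimensional K L :=
    IntermediateField.adjoin.finiteDimensional (Algebra.IsAlgebraic.isAlgebraic r).isIntegral
  have hL : IsFunctionField k L := ff_ext (F := K) hK
  obtain ⟨e1, he1⟩ := VP.exists_res hK hL e0
  have hrL : r ∈ L := IntermediateField.subset_adjoin _ _ rfl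
  refine ⟨L, inferInstance, inferInstance, IsScalarTower.toAlgHom k K L, ⟨r, hrL⟩, e1, hL, ?_, ?_⟩
  · have hinj : Function.Injective (algebraMap L (AlgebraicClosure K)) :=
      (algebraMap L (AlgebraicClosure K)).injective
    apply hinj
    rw [map_zero, Polynomial.hom_eval₂, ← hr]
    rfl
  · intro x c h
    rw [← he1] at h
    have h5 : x - algebraMap k K c ∈ (VQ.res hK hL e1).ring.nonunits := h
    change x - algebraMap k K c ∈
      (e1.ring.comap (IsScalarTower.toAlgHom k K L).toRingHom).nonunits at h5
    rw [mem_nonunits_comap] at h5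
    have h6 : (IsScalarTower.toAlgHom k K L).toRingHom (x - algebraMap k K c) =
        IsScalarTower.toAlgHom k K L x - algebraMap k L c := by
      change IsScalarTower.toAlgHom k K L (x - algebraMap k K c) = _
      rw [map_sub, AlgHom.commutes]
    rw [h6] at h5
    exact h5

end Pool.Agent.Helper83.DP
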