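import Mathlib
import Pool.Agent.Helper9.NS
import Pool.Agent.Helper83.DP.Cm
import Pool.Agent.Helper83.QF.Inv
import Pool.Agent.Helper51.VB.Defs

/-!
# Block DP-SP: the curve of genus one over a tangent line
`p` and `r` are points of the curve `f = 0`, the line through them is tangent at `p`:
`f (s r + t p) = s ^ 2 t (g₁ s ^ 3 + g₂ s ^ 2 t + g₃ s t ^ 2 + g₄ t ^ 3)`, `g j = cm f r p j` (`aeval_line`). With
`s = X - g₂ / 3`, `t = g₁` this is `g₁ ^ 2 (X - g₂ / 3) ^ 2 (X ^ 3 - 3 al X - 2 be)`.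
`Sp.eqn`: `aeval_line` and `ring` (`linear_combination`). `Sp.ne`: otherwise, by independence, `g₁ = 0`.
`Sp.surj`: multiply the coordinates by `g₁ / t` (`dpt_smul`): `X = s g₁ / t + g₂ / 3`,
`Y = (g₁ / t) ^ 3 w / (g₁ (s g₁ / t))`.
-/

set_option linter.unusedSectionVars false

namespace Pool.Agent.Helper83.DP

open VC VF Function Polynomial
open Pool.Agent.Helper51.VN (OnE)

universe u

section

variable {k : Type u} [Field k] {K : Type u} [Field K] [Algebra k K]

/-- The points `p`, `r` of the curve are different, the line through them is the tangent at `p`, and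
it is not tangent at `r`. -/
structure Sp (f : MvPolynomial (Fin 3) k) (p r : Fin 3 → K) : Prop where
  h0 : cm f r p 0 = 0
  h5 : cm f r p 5 = 0
  h6 : cm f r p 6 = 0
  ind : ∃ i j, p i * r j ≠ p j * r i
  g1 : cm f r p 1 ≠ 0

/-- The first coefficient. -/
noncomputable def al4 (f : MvPolynomial (Fin 3) k) (p r : Fin 3 → K) : K :=
  (cm f r p 2 ^ 2 - 3 * cm f r p 1 * cm f r p 3) / 9

/-- The second coefficient. -/
noncomputable def be6 (f : MvPolynomial (Fin 3) k) (p r : Fin 3 → K) : K :=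
  -cm f r p 2 ^ 3 / 27 + cm f r p 1 * cm f r p 2 * cm f r p 3 / 6 -
    cm f r p 1 ^ 2 * cm f r p 4 / 2

/-- The coordinates of the point of the plane. -/
noncomputable def px3 (f : MvPolynomial (Fin 3) k) (p r : Fin 3 → K) (X : K) : Fin 3 → K :=
  fun i => (X - cm f r p 2 / 3) * r i + cm f r p 1 * p i

/-- The coordinate `w`. -/
noncomputable def pw3 (f : MvPolynomial (Fin 3) k) (p r : Fin 3 → K) (X Y : K) : K :=
  cm f r p 1 * (X - cm f r p 2 / 3) * Y

variable [CharZero K] {f : MvPolynomial (Fin 3) k} {p r : Fin 3 → K}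

/-- The form at the points of the line. -/
private lemma form61 (hf : f.IsHomogeneous 6) (h : Sp f p r) (X : K) :
    MvPolynomial.aeval (px3 f p r X) f = cm f r p 1 ^ 2 * (X - cm f r p 2 / 3) ^ 2 *
      (X ^ 3 - 3 * al4 f p r * X - 2 * be6 f p r) := by
  unfold px3
  rw [aeval_line hf r p, h.h0, h.h5, h.h6]
  unfold al4 be6
  field_simp
  ring

theorem Sp.eqn (hf : f.IsHomogeneous 6) (h : Sp f p r) {X Y : K}
    (hE : OnE (al4 f p r) (be6 f p r) X Y) :
    pw3 f p r X Y ^ 2 = MvPolynomial.aeval (px3 f p r X) f := by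
  rw [form61 hf h X, ← hE]
  unfold pw3
  ring

private lemma ne61 (h : Sp f p r) {s t : K} (ht : t ≠ 0) : (fun i => s * r i + t * p i) ≠ 0 := by
  intro h0
  obtain ⟨i, j, hij⟩ := h.ind
  have h1 : s * r i + t * p i = 0 := congrFun h0 i
  have h2 : s * r j + t * p j = 0 := congrFun h0 j
  apply hij
  apply mul_left_cancel₀ ht
  linear_combination r j * h1 - r i * h2

theorem Sp.ne (h : Sp f p r) (X : K) : px3 f p r X ≠ 0 := ne61 h h.g1

theorem Sp.surj [IsAlgClosed k] [CharZero k] (hf : f.IsHomogeneous 6) {p r : Fin 3 → k} (h : Sp f p r)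
    {s t w : k} (hs : s ≠ 0) (ht : t ≠ 0)
    (hw : w ^ 2 = MvPolynomial.aeval (fun i => s * r i + t * p i) f) :
    ∃ X Y : k, OnE (al4 f p r) (be6 f p r) X Y ∧
      dpt f (fun i => s * r i + t * p i) w = dpt f (px3 f p r X) (pw3 f p r X Y) := by
  have hg := h.g1
  set g := cm f r p 1 with hgd
  set g2 := cm f r p 2 with hg2
  set c := g / t with hcd
  have hc : c ≠ 0 := div_ne_zero hg ht
  have hct : c * t = g := by rw [hcd]; field_simp
  have e1 : px3 f p r (s * c + g2 / 3) = fun i => c * (s * r i + t * p i) := by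
    funext i
    unfold px3
    rw [← hgd, ← hg2]
    linear_combination (-p i) * hct
  have e2 : pw3 f p r (s * c + g2 / 3) (c ^ 2 * w / (g * s)) = c ^ 3 * w := by
    unfold pw3
    rw [← hgd, ← hg2]
    field_simp
    ring
  refine ⟨s * c + g2 / 3, c ^ 2 * w / (g * s), ?_, ?_⟩
  · have h1 := form61 hf h (s * c + g2 / 3)
    rw [e1, aeval_smul hf, ← hw, ← hgd, ← hg2] at h1
    unfold OnE
    have h2 : g ^ 2 * (s * c) ^ 2 ≠ 0 := by positivity
    apply mul_left_cancel₀ h2
    have h3 : g ^ 2 * (s * c) ^ 2 * (c ^ 2 * w / (g * s)) ^ 2 = c ^ 6 * w ^ 2 := by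
      field_simp
    rw [h3, h1]
    ring
  · rw [e1, e2]
    exact (dpt_smul hf (ne61 h ht) hc hw).symm

end

end Pool.Agent.Helper83.DP
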