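import Mathlib
import Pool.Agent.Helper9.NS
import Pool.Agent.Helper83.DP.Sp
import Pool.Agent.Helper83.DP.Br
import Pool.Agent.Helper83.GK.Ell
import Pool.Agent.Helper51.VB.Ctc

/-!
# Block DP-GEO: the family of curves over the tangent lines

`exists_good`: the elements `p i`, `r i`, `p i r j - p j r i ≠ 0` (for one pair), `cm f r p 1 ≠ 0`,
`grd f p 2 ≠ 0` of `L`: a nonzero element has order zero at almost all places (`finite_support_ord`), so all
of them are regular and the last three units at almost all places; residues of units are not zero;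
`rs_eq`, `isRes_rs`.
`sp_ev`: for `q = .emb ι`: `cm_map ι`, and `ι` is injective. For `q = .cst P`: `isRes_cm` for the residues `rs P (p i)`,
`rs P (r i)` gives `rs P (cm f r p m) = cm f (rs ∘ r) (rs ∘ p) m`, and then everything is mapped by
`algebraMap k K` (`cm_map (Algebra.ofId k K)`). `al4_ev`, `be6_ev`: the same.
-/

set_option linter.unusedSectionVars false

namespace Pool.Agent.Helper83.DP

open VC VF Function Polynomial
open Pool.Agent.Helper51.VN (OnE)
open Pool.Agent.Helper51.VB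

universe u

/-- The gradient of the form. -/
noncomputable def grd {k : Type u} [Field k] {L : Type u} [Field L] [Algebra k L]
    (f : MvPolynomial (Fin 3) k) (p : Fin 3 → L) (i : Fin 3) : L :=
  MvPolynomial.aeval p (MvPolynomial.pderiv i f)

/-- The geometric data: a point `p` of the curve `f = 0` with coordinates in `L`, another point `r` of
the intersection of the tangent at `p` with the curve, a place `e1` at which the tangent is the line
`x 2 = 0`. -/
structure Geo {k : Type u} [Field k] (f : MvPolynomial (Fin 3) k) (L : Type u) [Field L]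
    [Algebra k L] where
  hL : IsFunctionField k L
  p : Fin 3 → L
  r : Fin 3 → L
  sp : Sp f p r
  e1 : Place k L
  γ : k
  hγ : γ ≠ 0
  g0 : IsRes e1 (grd f p 0) 0
  g1 : IsRes e1 (grd f p 1) 0
  g2 : IsRes e1 (grd f p 2) γ
  hD : be6 f p r ^ 2 - al4 f p r ^ 3 ≠ 0
  hj : ∀ c : k, be6 f p r ^ 2 ≠ algebraMap k L c * (be6 f p r ^ 2 - al4 f p r ^ 3)
  hG : ∃ i, ∀ c : k, grd f p i ≠ algebraMap k L c * grd f p 2

section

variable {k : Type u} [Field k] [IsAlgClosed k] [CharZero k] {f : MvPolynomial (Fin 3) k}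
  {L : Type u} [Field L] [Algebra k L] {K : Type u} [Field K] [Algebra k K]

/-- Everything has good reduction at `P`. -/
structure Gd (f : MvPolynomial (Fin 3) k) (p r : Fin 3 → L) (P : Place k L) : Prop where
  hL : IsFunctionField k L
  hp : ∀ i, p i ∈ P.ring
  hr : ∀ i, r i ∈ P.ring
  ind : ∃ i j, rs P (p i) * rs P (r j) ≠ rs P (p j) * rs P (r i)
  g1 : rs P (cm f r p 1) ≠ 0
  gr : ∃ i, rs P (grd f p i) ≠ 0

private lemma reg38 (hL : IsFunctionField k L) (x : L) : {P : Place k L | x ∉ P.ring}.Finite := by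
  by_cases hx : x = 0
  · subst hx
    convert Set.finite_empty
    ext P
    simp
  · refine (finite_support_ord hL hx).subset ?_
    intro P hP h0
    exact hP ((ord_nonneg_iff hL P hx).mp h0.ge)

private lemma unit38 (hL : IsFunctionField k L) {x : L} (hx : x ≠ 0) :
    {P : Place k L | rs P x = 0}.Finite := by
  refine (finite_support_ord hL hx).subset ?_
  intro P hP h0
  have h1 := isRes_rs hL ((ord_nonneg_iff hL P hx).mp h0.ge)
  have hP' : rs P x = 0 := hP
  rw [hP', isRes_zero_iff, ← ord_pos_iff hL P hx] at h1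
  omega

theorem exists_good (g : Geo f L) : ∃ R : Finset (Place k L), g.e1 ∈ R ∧
    ∀ P, P ∉ R → Gd f g.p g.r P := by
  obtain ⟨i, j, hij⟩ := g.sp.ind
  have h1 : g.p i * g.r j - g.p j * g.r i ≠ 0 := sub_ne_zero.mpr hij
  have h2 : grd f g.p 2 ≠ 0 := g.g2.ne_zero g.hγ
  have hA : ({g.e1} ∪ (⋃ m, {P : Place k L | g.p m ∉ P.ring}) ∪
      (⋃ m, {P : Place k L | g.r m ∉ P.ring}) ∪
      {P : Place k L | rs P (g.p i * g.r j - g.p j * g.r i) = 0} ∪
      {P : Place k L | rs P (cm f g.r g.p 1) = 0} ∪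
      {P : Place k L | rs P (grd f g.p 2) = 0}).Finite :=
    (((((Set.finite_singleton _).union (Set.finite_iUnion fun m => reg38 g.hL (g.p m))).union
      (Set.finite_iUnion fun m => reg38 g.hL (g.r m))).union (unit38 g.hL h1)).union
      (unit38 g.hL g.sp.g1)).union (unit38 g.hL h2)
  refine ⟨hA.toFinset, ?_, ?_⟩
  · rw [Set.Finite.mem_toFinset]
    exact Or.inl (Or.inl (Or.inl (Or.inl (Or.inl rfl))))
  · intro P hP
    rw [Set.Finite.mem_toFinset] at hP
    simp only [Set.mem_union, Set.mem_iUnion, Set.mem_setOf_eq, not_or, not_exists, not_not] at hP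
    obtain ⟨⟨⟨⟨⟨-, hp⟩, hr⟩, hi⟩, hg⟩, hgr⟩ := hP
    refine ⟨g.hL, hp, hr, ⟨i, j, ?_⟩, hg, ⟨2, hgr⟩⟩
    intro h0
    apply hi
    have e := ((isRes_rs g.hL (hp i)).mul (isRes_rs g.hL (hr j))).sub
      ((isRes_rs g.hL (hp j)).mul (isRes_rs g.hL (hr i)))
    rw [rs_eq e, h0, sub_self]

variable (hf : f.IsHomogeneous 6)

private lemma rs38 {p r : Fin 3 → L} {P : Place k L} (h : Gd f p r P) (m : ℕ) :
    IsRes P (cm f r p m) (cm f (fun i => rs P (r i)) (fun i => rs P (p i)) m) :=
  isRes_cm f (fun i => isRes_rs h.hL (h.hr i)) (fun i => isRes_rs h.hL (h.hp i)) m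

theorem cm_ev {p r : Fin 3 → L} (q : BP k L K) (hq : ∀ P, q = .cst P → Gd f p r P) (m : ℕ) :
    cm f (fun i => q.ev (r i)) (fun i => q.ev (p i)) m = q.ev (cm f r p m) := by
  rcases q with P | ι
  · have h := hq P rfl
    have e : rs P (cm f r p m) = _ := rs_eq (rs38 h m)
    change cm f (fun i => algebraMap k K (rs P (r i))) (fun i => algebraMap k K (rs P (p i))) m =
      algebraMap k K (rs P (cm f r p m))
    rw [e]
    exact cm_map (Algebra.ofId k K) f _ _ m
  · exact cm_map ι f r p m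

private lemma ev_zero38 (q : BP k L K) : q.ev (0 : L) = 0 := by
  rcases q with P | ι
  · change algebraMap k K (rs P (0 : L)) = 0
    rw [rs_eq (isRes_zero (v := P)), map_zero]
  · exact map_zero ι

theorem sp_ev {p r : Fin 3 → L} (h : Sp f p r) (q : BP k L K)
    (hq : ∀ P, q = .cst P → Gd f p r P) :
    Sp f (fun i => q.ev (p i)) (fun i => q.ev (r i)) := by
  refine ⟨?_, ?_, ?_, ?_, ?_⟩
  · rw [cm_ev q hq, h.h0, ev_zero38]
  · rw [cm_ev q hq, h.h5, ev_zero38]
  · rw [cm_ev q hq, h.h6, ev_zero38]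
  · rcases q with P | ι
    · obtain ⟨i, j, hij⟩ := (hq P rfl).ind
      refine ⟨i, j, ?_⟩
      intro h0
      apply hij
      apply (algebraMap k K).injective
      rw [map_mul, map_mul]
      exact h0
    · obtain ⟨i, j, hij⟩ := h.ind
      refine ⟨i, j, ?_⟩
      intro h0
      apply hij
      apply ι.injective
      rw [map_mul, map_mul]
      exact h0
  · rw [cm_ev q hq]
    rcases q with P | ι
    · exact (_root_.map_ne_zero (algebraMap k K)).mpr (hq P rfl).g1
    · exact (_root_.map_ne_zero ι).mpr h.g1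

private lemma div38 {P : Place k L} {x : L} {c : k} (h : IsRes P x c) (n : ℕ) :
    IsRes P (x / n) (c / n) := by
  have e := h.mul (isRes_const (v := P) ((n : k)⁻¹))
  rwa [map_inv₀, map_natCast, ← div_eq_mul_inv, ← div_eq_mul_inv] at e

private lemma nat38 {P : Place k L} (n : ℕ) : IsRes P (n : L) (n : k) := by
  have e := isRes_const (v := P) (n : k)
  rwa [map_natCast] at e

private lemma al38 {p r : Fin 3 → L} {P : Place k L} (h : Gd f p r P) :
    rs P (al4 f p r) = al4 f (fun i => rs P (p i)) (fun i => rs P (r i)) := by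
  apply rs_eq
  have e := div38 (((rs38 h 2).pow 2).sub (((nat38 (P := P) 3).mul (rs38 h 1)).mul (rs38 h 3))) 9
  exact_mod_cast e

private lemma be38 {p r : Fin 3 → L} {P : Place k L} (h : Gd f p r P) :
    rs P (be6 f p r) = be6 f (fun i => rs P (p i)) (fun i => rs P (r i)) := by
  apply rs_eq
  have e := ((div38 ((rs38 h 2).pow 3).neg 27).add
    (div38 (((rs38 h 1).mul (rs38 h 2)).mul (rs38 h 3)) 6)).sub
    (div38 (((rs38 h 1).pow 2).mul (rs38 h 4)) 2)
  exact_mod_cast e

theorem al4_ev {p r : Fin 3 → L} (q : BP k L K) (hq : ∀ P, q = .cst P → Gd f p r P) :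
    al4 f (fun i => q.ev (p i)) (fun i => q.ev (r i)) = q.ev (al4 f p r) := by
  have h1 : al4 f (fun i => q.ev (p i)) (fun i => q.ev (r i)) =
      (q.ev (cm f r p 2) ^ 2 - 3 * q.ev (cm f r p 1) * q.ev (cm f r p 3)) / 9 := by
    unfold al4
    rw [cm_ev q hq, cm_ev q hq, cm_ev q hq]
  rw [h1]
  rcases q with P | ι
  · have h := hq P rfl
    change (algebraMap k K (rs P (cm f r p 2)) ^ 2 - 3 * algebraMap k K (rs P (cm f r p 1)) *
      algebraMap k K (rs P (cm f r p 3))) / 9 = algebraMap k K (rs P (al4 f p r))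
    rw [al38 h, rs_eq (rs38 h 1), rs_eq (rs38 h 2), rs_eq (rs38 h 3)]
    unfold al4
    simp only [map_div₀, map_sub, map_mul, map_pow, map_ofNat]
  · change (ι (cm f r p 2) ^ 2 - 3 * ι (cm f r p 1) * ι (cm f r p 3)) / 9 = ι (al4 f p r)
    unfold al4
    simp only [map_div₀, map_sub, map_mul, map_pow, map_ofNat]

theorem be6_ev {p r : Fin 3 → L} (q : BP k L K) (hq : ∀ P, q = .cst P → Gd f p r P) :
    be6 f (fun i => q.ev (p i)) (fun i => q.ev (r i)) = q.ev (be6 f p r) := by
  have h1 : be6 f (fun i => q.ev (p i)) (fun i => q.ev (r i)) =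
      -q.ev (cm f r p 2) ^ 3 / 27 + q.ev (cm f r p 1) * q.ev (cm f r p 2) * q.ev (cm f r p 3) / 6 -
        q.ev (cm f r p 1) ^ 2 * q.ev (cm f r p 4) / 2 := by
    unfold be6
    rw [cm_ev q hq, cm_ev q hq, cm_ev q hq, cm_ev q hq]
  rw [h1]
  rcases q with P | ι
  · have h := hq P rfl
    change -algebraMap k K (rs P (cm f r p 2)) ^ 3 / 27 + algebraMap k K (rs P (cm f r p 1)) *
      algebraMap k K (rs P (cm f r p 2)) * algebraMap k K (rs P (cm f r p 3)) / 6 -
      algebraMap k K (rs P (cm f r p 1)) ^ 2 * algebraMap k K (rs P (cm f r p 4)) / 2 =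
      algebraMap k K (rs P (be6 f p r))
    rw [be38 h, rs_eq (rs38 h 1), rs_eq (rs38 h 2), rs_eq (rs38 h 3), rs_eq (rs38 h 4)]
    unfold be6
    simp only [map_div₀, map_sub, map_mul, map_pow, map_ofNat, map_add, map_neg]
  · change -ι (cm f r p 2) ^ 3 / 27 + ι (cm f r p 1) * ι (cm f r p 2) * ι (cm f r p 3) / 6 -
      ι (cm f r p 1) ^ 2 * ι (cm f r p 4) / 2 = ι (be6 f p r)
    unfold be6
    simp only [map_div₀, map_sub, map_mul, map_pow, map_ofNat, map_add, map_neg]

/-- The case `K = k`, `q = .cst P`. -/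
theorem sp_rs {p r : Fin 3 → L} (h : Sp f p r) {P : Place k L} (hP : Gd f p r P) :
    Sp f (fun i => rs P (p i)) (fun i => rs P (r i)) ∧
      al4 f (fun i => rs P (p i)) (fun i => rs P (r i)) = rs P (al4 f p r) ∧
      be6 f (fun i => rs P (p i)) (fun i => rs P (r i)) = rs P (be6 f p r) := by
  have hq : ∀ P', (BP.cst P : BP k L k) = .cst P' → Gd f p r P' := by
    intro P' h'
    injection h' with h'
    rwa [← h']
  exact ⟨sp_ev h (.cst P) hq, al4_ev (.cst P) hq, be6_ev (.cst P) hq⟩

/-- The map from the elliptic surface to the double plane. -/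
noncomputable def gphi (f : MvPolynomial (Fin 3) k) (p r : Fin 3 → L)
    (x : Place k L × k × k) : DPt f k :=
  dpt f (px3 f (fun i => rs x.1 (p i)) (fun i => rs x.1 (r i)) x.2.1)
    (pw3 f (fun i => rs x.1 (p i)) (fun i => rs x.1 (r i)) x.2.1 x.2.2)

/-- The map on points with coordinates in `K`. -/
noncomputable def gmor {D : Ell k L} (f : MvPolynomial (Fin 3) k) (p r : Fin 3 → L) (K : Type u)
    [Field K] [Algebra k K] (c : KPt D K) : DPt f K :=
  dpt f (px3 f (fun i => c.p.ev (p i)) (fun i => c.p.ev (r i)) c.x)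
    (pw3 f (fun i => c.p.ev (p i)) (fun i => c.p.ev (r i)) c.x c.y)

/-- The set on which the functions are constant: the points of the branch curve and the points over
the line `x 2 = 0`. -/
def gR (f : MvPolynomial (Fin 3) k) : Set (DPt f k) :=
  {x | ∃ (y : Fin 3 → k) (w : k), y ≠ 0 ∧ w ^ 2 = MvPolynomial.aeval y f ∧ x = dpt f y w ∧
    (w = 0 ∨ y 2 = 0)}

end

end Pool.Agent.Helper83.DP
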