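import Mathlib
import Pool.Agent.Helper9.NS
import Pool.Agent.Helper83.DP.Geo

/-!
# Block DP-VAL: values of the map
`gmor_eqn`: `sp_ev` (with `hN`), `Sp.eqn` for `c.hE : OnE (c.p.ev D.al) (c.p.ev D.be) c.x c.y` and
`al4_ev`, `be6_ev`, `hal`, `hbe`. `gmor_val`: `c.Val w (P, X, Y)` is: `P` nice, `c.p.Ov w P`, residues `X`, `Y` of `c.x`, `c.y`.
For `f ∈ P.ring` one has `IsRes w (c.p.ev f) (rs P f)` (`isRes_ev` in `Helper51/VB/Kf.lean`, or: for `.cst P'`:
`P' = P`, constants; for `.emb ι`: `Over` and `isRes_rs`). So (`Gd.hp`, `Gd.hr`, `isRes_cm`) the coordinates of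
`gmor` have as residues the coordinates of `gphi`, which are not all zero by `Sp.ne` (`sp_rs`); `eval_dpt`.
-/

set_option linter.unusedSectionVars false

namespace Pool.Agent.Helper83.DP

open VC VF Function Polynomial
open Pool.Agent.Helper51.VN (OnE)
open Pool.Agent.Helper51.VB

universe u

variable {k : Type u} [Field k] [IsAlgClosed k] [CharZero k] {f : MvPolynomial (Fin 3) k}
  (hf : f.IsHomogeneous 6) {L : Type u} [Field L] [Algebra k L] {K : Type u} [Field K]
  [Algebra k K] {D : Ell k L} {p r : Fin 3 → L}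

include hf

theorem gmor_eqn (hs : Sp f p r) (hal : D.al = al4 f p r) (hbe : D.be = be6 f p r)
    (hN : ∀ P, D.Nice P → Gd f p r P) (c : KPt D K) :
    px3 f (fun i => c.p.ev (p i)) (fun i => c.p.ev (r i)) c.x ≠ 0 ∧
    pw3 f (fun i => c.p.ev (p i)) (fun i => c.p.ev (r i)) c.x c.y ^ 2 =
      MvPolynomial.aeval (px3 f (fun i => c.p.ev (p i)) (fun i => c.p.ev (r i)) c.x) f := by
  have hch : CharZero K := charZero_of_injective_algebraMap (algebraMap k K).injective
  have hq : ∀ P, c.p = .cst P → Gd f p r P := fun P hP => hN P (c.nc P hP)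
  have h1 := sp_ev hs c.p hq
  refine ⟨h1.ne c.x, h1.eqn hf ?_⟩
  rw [al4_ev c.p hq, be6_ev c.p hq, ← hal, ← hbe]
  exact c.hE

theorem gmor_val (hs : Sp f p r) (hal : D.al = al4 f p r) (hbe : D.be = be6 f p r)
    (hN : ∀ P, D.Nice P → Gd f p r P) (hK : IsFunctionField k K) (c : KPt D K) (w : Place k K)
    (x : Place k L × k × k) (hx : c.Val w x) :
    (surface f hf).eval hK (gmor f p r K c) w = gphi f p r x := by
  obtain ⟨P, X₀, Y₀⟩ := x
  obtain ⟨hP, hov, hX, hY⟩ := hx
  change D.Nice P at hP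
  change c.p.Ov w P at hov
  change IsRes w c.x X₀ at hX
  change IsRes w c.y Y₀ at hY
  have hgd := hN P hP
  have key : ∀ g : L, g ∈ P.ring → IsRes w (c.p.ev g) (rs P g) := by
    intro g hg
    cases hcp : c.p with
    | cst P' =>
      rw [hcp] at hov
      change P' = P at hov
      rw [hov]
      exact isRes_const _
    | emb ι =>
      rw [hcp] at hov
      exact hov g _ (isRes_rs D.hL hg)
  have hp : ∀ i, IsRes w (c.p.ev (p i)) (rs P (p i)) := fun i => key _ (hgd.hp i)
  have hr : ∀ i, IsRes w (c.p.ev (r i)) (rs P (r i)) := fun i => key _ (hgd.hr i)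
  have hcm := fun m => isRes_cm f hr hp m
  have h3 : IsRes w (cm f (fun i => c.p.ev (r i)) (fun i => c.p.ev (p i)) 2 / 3)
      (cm f (fun i => rs P (r i)) (fun i => rs P (p i)) 2 / 3) := by
    have h4 := (hcm 2).mul (isRes_const (v := w) (1 / 3 : k))
    have e1 : cm f (fun i => c.p.ev (r i)) (fun i => c.p.ev (p i)) 2 *
        algebraMap k K (1 / 3) = cm f (fun i => c.p.ev (r i)) (fun i => c.p.ev (p i)) 2 / 3 := by
      rw [map_div₀, map_one, map_ofNat]
      ring
    rw [e1] at h4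
    have e2 : cm f (fun i => rs P (r i)) (fun i => rs P (p i)) 2 * (1 / 3 : k) =
        cm f (fun i => rs P (r i)) (fun i => rs P (p i)) 2 / 3 := by ring
    rwa [e2] at h4
  unfold gmor gphi
  refine eval_dpt hf hK w (gmor_eqn hf hs hal hbe hN c).2 ((sp_rs hs hgd).1.ne X₀) ?_ ?_
  · intro i
    exact ((hX.sub h3).mul (hr i)).add ((hcm 1).mul (hp i))
  · exact ((hcm 1).mul (hX.sub h3)).mul hY

end Pool.Agent.Helper83.DP
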