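import Mathlib
import Pool.Agent.Helper9.NS
import Pool.Agent.Helper83.DP.FVal
import Pool.Agent.Helper83.DP.Dom

/-!
# Block DP-FD: the image of the map
`onT_span`: `grd f p i ∈ P.ring` (`grd` is a polynomial in the `p i`), `rs P (grd f p i)` not all zero (`Gd.gr`); from `OnT`:
`IsRes P (l * grd i) (g i)`, `g ≠ 0`, hence `rs P (grd i) * g j = rs P (grd j) * g i`, so `g` is proportional to
`rs P ∘ grd` and `∑ i, rs P (grd f p i) * x i = 0`. Also `∑ i, rs P (grd i) * rs P (p i) = 0` and the same for `r` (`euler`, `cm_one`,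
`cm_symm`, `Sp` in `L`, take residues). The vectors `rs ∘ p`, `rs ∘ r` are independent in the plane orthogonal to
`rs ∘ grd`, so `x` is a combination of them (Cramer's rule / the cross product, or dimension).
`gdom`: `dom_line` with `G = grd f g.p`, `B = {P | ¬ D.Nice P}` (finite: `finite_support_ord` for `D.al`, `D.be`,
`D.be ^ 2 - D.al ^ 3`, and `D.R`). At a place `w` which is not exceptional: the
value is `dpt f x m`, `x = s * rs P (r i) + t * rs P (p i)`. If `s = 0` or `t = 0` then `f x = 0` (`sp_rs`, `aeval_line`), so `m = 0` and the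
value is in `gR f`. Otherwise `Sp.surj` and `gphi`.
-/

set_option linter.unusedSectionVars false

namespace Pool.Agent.Helper83.DP

open VC VF Function Polynomial
open Pool.Agent.Helper51.VN (OnE)
open Pool.Agent.Helper51.VB

universe u

variable {k : Type u} [Field k] [IsAlgClosed k] [CharZero k] {f : MvPolynomial (Fin 3) k}
  (hf : f.IsHomogeneous 6) {L : Type u} [Field L] [Algebra k L]

private lemma span83 {G p r x : Fin 3 → k} (hG : ∃ i, G i ≠ 0) (h1 : ∑ i, G i * p i = 0)
    (h2 : ∑ i, G i * r i = 0) (h3 : ∑ i, G i * x i = 0) (hi : ∃ i j, p i * r j ≠ p j * r i) :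
    ∃ s t : k, x = fun i => s * r i + t * p i := by
  obtain ⟨i, j, hij⟩ := hi
  have hD : p i * r j - p j * r i ≠ 0 := sub_ne_zero.mpr hij
  rw [Fin.sum_univ_three] at h1 h2 h3
  set D := p i * r j - p j * r i with hDd
  set s := (p i * x j - p j * x i) / D with hs
  set t := (x i * r j - x j * r i) / D with ht
  have hi1 : x i - (s * r i + t * p i) = 0 := by
    rw [hs, ht, hDd]
    field_simp
    ring
  have hj1 : x j - (s * r j + t * p j) = 0 := by
    rw [hs, ht, hDd]
    field_simp
    ring
  have hsum : G 0 * (x 0 - (s * r 0 + t * p 0)) + G 1 * (x 1 - (s * r 1 + t * p 1)) +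
      G 2 * (x 2 - (s * r 2 + t * p 2)) = 0 := by
    linear_combination h3 - s * h2 - t * h1
  have key : ∀ l, x l - (s * r l + t * p l) = 0 := by
    have hne : i ≠ j := by
      intro h
      apply hij
      rw [h]
    have hall : ∀ l : Fin 3, l ≠ i → l ≠ j → G l ≠ 0 := by
      intro l hl1 hl2 hl
      have e1 : G i * p i + G j * p j = 0 := by
        fin_cases i <;> fin_cases j <;> fin_cases l <;> simp_all <;> linear_combination h1
      have e2 : G i * r i + G j * r j = 0 := by
        fin_cases i <;> fin_cases j <;> fin_cases l <;> simp_all <;> linear_combination h2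
      have e3 : G i * D = 0 := by
        rw [hDd]
        linear_combination r j * e1 - p j * e2
      have e4 : G j * D = 0 := by
        rw [hDd]
        linear_combination p i * e2 - r i * e1
      have e5 : G i = 0 := (mul_eq_zero.mp e3).resolve_right hD
      have e6 : G j = 0 := (mul_eq_zero.mp e4).resolve_right hD
      obtain ⟨m, hm⟩ := hG
      apply hm
      by_cases hmi : m = i
      · rw [hmi]; exact e5
      by_cases hmj : m = j
      · rw [hmj]; exact e6
      have : m = l := by
        clear * - hl1 hl2 hmi hmj hne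
        fin_cases i <;> fin_cases j <;> fin_cases l <;> fin_cases m <;> simp_all
      rw [this]; exact hl
    intro l
    by_cases hli : l = i
    · rw [hli]; exact hi1
    by_cases hlj : l = j
    · rw [hlj]; exact hj1
    have hGl := hall l hli hlj
    have e : G l * (x l - (s * r l + t * p l)) = 0 := by
      have e7 : G 0 * (x 0 - (s * r 0 + t * p 0)) + G 1 * (x 1 - (s * r 1 + t * p 1)) +
        G 2 * (x 2 - (s * r 2 + t * p 2)) = G i * (x i - (s * r i + t * p i)) +
        G j * (x j - (s * r j + t * p j)) + G l * (x l - (s * r l + t * p l)) := by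
        clear * - hli hlj hne
        fin_cases i <;> fin_cases j <;> fin_cases l <;> simp_all <;> ring
      rw [e7, hi1, hj1, mul_zero, mul_zero, zero_add, zero_add] at hsum
      exact hsum
    exact (mul_eq_zero.mp e).resolve_left hGl
  refine ⟨s, t, ?_⟩
  funext l
  exact sub_eq_zero.mp (key l)

include hf in
theorem onT_span {p r : Fin 3 → L} (hL : IsFunctionField k L) (hs : Sp f p r) {P : Place k L}
    (hP : Gd f p r P) {x : Fin 3 → k} (hx : OnT (grd f p) P x) :
    ∃ s t : k, x = fun i => s * rs P (r i) + t * rs P (p i) := by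
  have hp : ∀ i, IsRes P (p i) (rs P (p i)) := fun i => isRes_rs hL (hP.hp i)
  have hG : ∀ i, IsRes P (grd f p i) (grd f (fun i => rs P (p i)) i) := fun i => isRes_aeval hp _
  obtain ⟨hsp, -, -⟩ := sp_rs hs hP
  obtain ⟨i0, hi0⟩ := hP.gr
  rw [rs_eq (hG i0)] at hi0
  obtain ⟨l, g, hl, hg0, hg, hsum⟩ := hx
  have hpr : ∀ i j, g i * grd f (fun i => rs P (p i)) j = g j * grd f (fun i => rs P (p i)) i := by
    intro i j
    have h1 := (hg i).mul (hG j)
    have h2 := (hg j).mul (hG i)
    have e : l * grd f p i * grd f p j = l * grd f p j * grd f p i := by ring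
    rw [e] at h1
    exact h1.unique h2
  refine span83 (G := grd f (fun i => rs P (p i))) ⟨i0, hi0⟩ ?_ ?_ ?_ hsp.ind
  · have h1 := euler hf (fun i => rs P (p i))
    rw [← cm_zero f (fun i => rs P (p i)) (fun i => rs P (r i)),
      cm_symm hf (fun i => rs P (r i)) (fun i => rs P (p i)) (Nat.zero_le 6)] at h1
    change _ = 6 * cm f _ _ 6 at h1
    rw [hsp.h6, mul_zero] at h1
    rw [← h1]
    exact Finset.sum_congr rfl fun i _ => mul_comm _ _
  · have h1 := cm_one f (fun i => rs P (p i)) (fun i => rs P (r i))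
    rw [cm_symm hf (fun i => rs P (r i)) (fun i => rs P (p i)) (by norm_num : 1 ≤ 6)] at h1
    change cm f _ _ 5 = _ at h1
    rw [hsp.h5] at h1
    rw [h1]
    exact Finset.sum_congr rfl fun i _ => mul_comm _ _
  · obtain ⟨j, hj⟩ := Function.ne_iff.mp hg0
    apply (mul_eq_zero.mp (?_ : g j * _ = 0)).resolve_left hj
    rw [Finset.mul_sum, ← mul_zero (grd f (fun i => rs P (p i)) j), ← hsum, Finset.mul_sum]
    refine Finset.sum_congr rfl fun i _ => ?_
    have := hpr i j
    linear_combination (-x i) * this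

private lemma poles83 (hL : IsFunctionField k L) (x : L) : {P : Place k L | x ∉ P.ring}.Finite := by
  by_cases hx : x = 0
  · refine Set.finite_empty.subset ?_
    intro P hP
    rw [Set.mem_setOf_eq, hx] at hP
    exact absurd (zero_mem _) hP
  · refine (finite_support_ord hL hx).subset ?_
    intro P hP h0
    exact hP ((ord_nonneg_iff hL P hx).mp (le_of_eq h0.symm))

private lemma badfin83 (D : Ell k L) : {P : Place k L | ¬ D.Nice P}.Finite := by
  have h1 := poles83 D.hL D.al
  have h2 := poles83 D.hL D.be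
  have h3 := finite_support_ord D.hL D.hD
  refine (((h1.union h2).union h3).union D.R.finite_toSet).subset ?_
  intro P hP
  by_contra hcon
  simp only [Set.mem_union, not_or] at hcon
  obtain ⟨⟨⟨h4, h5⟩, h6⟩, h7⟩ := hcon
  apply hP
  refine ⟨not_not.mp h4, not_not.mp h5, ?_, ?_⟩
  · by_contra h
    exact h6 h
  · exact h7

theorem gdom {D : Ell k L} (g : Geo f L) (hal : D.al = al4 f g.p g.r)
    (hbe : D.be = be6 f g.p g.r) (hN : ∀ P, D.Nice P → Gd f g.p g.r P)
    (x : (surface f hf).Pt) :
    ∃ (K : Type u) (_ : Field K) (_ : Algebra k K) (hK : IsFunctionField k K)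
      (c : (surface f hf).Mor K) (v : Place k K), (surface f hf).eval hK c v = x ∧
      {w : Place k K | ¬ ((surface f hf).eval hK c w ∈ gR f ∨
        ∃ p, GK.Nic D p ∧ (surface f hf).eval hK c w = gphi f g.p g.r p)}.Finite := by
  obtain ⟨K, i1, i2, hK, c, v, hv, hfin⟩ := dom_line hf g.hL (G := grd f g.p)
    (g.g2.ne_zero g.hγ) g.hG (badfin83 D) x
  refine ⟨K, i1, i2, hK, c, v, hv, hfin.subset ?_⟩
  intro w hw hcon
  apply hw
  obtain ⟨y, m, hy, hm, he, P, hP, hT⟩ := hcon
  have hnice : D.Nice P := by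
    by_contra h
    exact hP h
  have hgd := hN P hnice
  obtain ⟨s, t, rfl⟩ := onT_span hf g.hL g.sp hgd hT
  obtain ⟨hsp, ha, hb⟩ := sp_rs g.sp hgd
  rw [he]
  have hline := aeval_line hf (fun i => rs P (g.r i)) (fun i => rs P (g.p i)) s t
  rw [hsp.h0, hsp.h5, hsp.h6] at hline
  by_cases hs : s = 0
  · left
    refine ⟨_, m, hy, hm, rfl, Or.inl ?_⟩
    rw [hline, hs] at hm
    have : m ^ 2 = 0 := by rw [hm]; ring
    exact pow_eq_zero_iff two_ne_zero |>.mp this
  by_cases ht : t = 0
  · left
    refine ⟨_, m, hy, hm, rfl, Or.inl ?_⟩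
    rw [hline, ht] at hm
    have : m ^ 2 = 0 := by rw [hm]; ring
    exact pow_eq_zero_iff two_ne_zero |>.mp this
  right
  obtain ⟨X, Y, hE, hX⟩ := hsp.surj hf hs ht hm
  refine ⟨(P, X, Y), ⟨hnice, ?_⟩, ?_⟩
  · rw [ha, hb, ← hal, ← hbe] at hE
    exact hE
  · rw [hX]
    rfl

end Pool.Agent.Helper83.DP
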