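import Mathlib
import Pool.Agent.Helper9.NS
import Pool.Agent.Helper83.DP.FVal

/-!
# Block DP-ZER: the zero section and the fibre over `e1`
Two cases of `c.Zero w`. (a) `c.p.Ov w D.e1`. If `c.p = .cst P` then `P = D.e1` is nice (`c.nc`), which
contradicts `D.bad`. If `c.p = .emb ι`: `∑ i, grd f p i * p i = 0` (`euler`, `f p = 0` is `hs.h6` with `cm_symm`, `cm_zero`) and
`∑ i, grd f p i * r i = 0` (`hs.h5` with `cm_symm`, `cm_one`), so the coordinates `x` of `gmor` satisfy
`∑ i, ι (grd f p i) * x i = 0`. Take adapted coordinates (`exists_coords`): `gmor = mk a`, the value is `mk b`,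
`a.x` is proportional to `x` (`dpt_eq`, `mk_eq_iff`), so `∑ i, ι (grd f p i) * a.x i = 0`, and taking residues at `w`
(`Over e1 ι w`) `γ * b.x 2 = 0`, `b.x 2 = 0`. (b) `P` nice, `c.p.Ov w P`, `c.x ∉ w.ring`. Put `x = c.x`, `y = c.y`,
`1 / x` has residue `0`. Scale the coordinates by `1 / x` (`dpt_smul`): `px3 / x = (1 - (g₂ / 3) / x) r' + (g₁ / x) p'` has
residue `rs P (r i)` (`isRes_ev`), not all zero (`Gd.ind`); `pw3 / x ^ 3 = g₁ (1 - (g₂ / 3) / x) (y / x ^ 2)` has residue `0`, since
`(y / x ^ 2) ^ 2 = 1 / x - 3 al' / x ^ 3 - 2 be' / x ^ 4` (`c.hE`) has residue `0` and so `y / x ^ 2` has residue `0`. So the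
value is `dpt f (rs ∘ r) 0`, `f (rs ∘ r) = 0` (`sp_rs`, `h0`, `cm_zero`).
-/

set_option linter.unusedSectionVars false

namespace Pool.Agent.Helper83.DP

open VC VF Function Polynomial
open Pool.Agent.Helper51.VN (OnE)
open Pool.Agent.Helper51.VB

universe u

variable {k : Type u} [Field k] [IsAlgClosed k] [CharZero k] {f : MvPolynomial (Fin 3) k}
  (hf : f.IsHomogeneous 6) {L : Type u} [Field L] [Algebra k L] {K : Type u} [Field K]
  [Algebra k K] {D : Ell k L}

private lemma ev63 (hL : IsFunctionField k L) {w : Place k K} {q : BP k L K} {P : Place k L}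
    (h : q.Ov w P) {x : L} (hx : x ∈ P.ring) : IsRes w (q.ev x) (rs P x) := by
  cases q with
  | cst P' =>
    have h' : P' = P := h
    subst h'
    exact isRes_const _
  | emb ι => exact h x _ (isRes_rs hL hx)

theorem gmor_zero (g : Geo f L) (hal : D.al = al4 f g.p g.r) (hbe : D.be = be6 f g.p g.r)
    (he : D.e1 = g.e1) (hN : ∀ P, D.Nice P → Gd f g.p g.r P) (hK : IsFunctionField k K)
    (c : KPt D K) (w : Place k K) (hz : c.Zero w) :
    (surface f hf).eval hK (gmor f g.p g.r K c) w ∈ gR f := by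
  have hchK : CharZero K := charZero_of_injective_algebraMap (algebraMap k K).injective
  have hq : ∀ P, c.p = .cst P → Gd f g.p g.r P := fun P hP => hN P (c.nc P hP)
  have hsp := sp_ev g.sp c.p hq
  have hE := c.hE
  rw [hal, hbe, ← al4_ev c.p hq, ← be6_ev c.p hq] at hE
  have hne := hsp.ne c.x
  have heq := hsp.eqn hf hE
  rcases hz with ho | ⟨P, hP, hO, hx⟩
  · rcases hcp : c.p with P' | ι
    · rw [hcp] at ho
      have h1 : P' = D.e1 := ho.2
      have h2 := c.nc P' hcp
      rw [h1] at h2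
      exact absurd h2 (D.bad0 ho.1)
    · rw [hcp] at ho
      have hov : Over D.e1 ι w := ho.2
      rw [he] at hov
      have hev : ∀ y, c.p.ev y = ι y := by
        intro y
        rw [hcp]
        rfl
      have e6 : cm f g.r g.p 6 = cm f g.p g.r 0 := cm_symm hf g.p g.r (m := 6) le_rfl
      rw [g.sp.h6, cm_zero] at e6
      have e5 : cm f g.r g.p 5 = cm f g.p g.r 1 := cm_symm hf g.p g.r (m := 5) (by norm_num)
      rw [g.sp.h5, cm_one] at e5
      have eu := euler hf g.p
      rw [← e6, mul_zero] at eu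
      have e5' := congrArg ι e5
      have eu' := congrArg ι eu
      rw [Fin.sum_univ_three, map_zero, map_add, map_add, map_mul, map_mul, map_mul] at e5' eu'
      obtain ⟨a, b, h1, h2, h3, h4⟩ := exists_coords hf hK w (gmor f g.p g.r K c)
      have h5 : DPt.mk ⟨_, _, hne, heq⟩ = DPt.mk a := by
        rw [← h1]
        exact (dpt_eq hne heq).symm
      obtain ⟨s, hs0, hs1, hs2⟩ := mk_eq_iff.mp h5
      have h6 : ι (grd f g.p 0) * a.x 0 + ι (grd f g.p 1) * a.x 1 + ι (grd f g.p 2) * a.x 2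
          = 0 := by
        rw [hs1, hs1, hs1]
        unfold px3 grd
        simp only [hev]
        generalize cm f (fun i => ι (g.r i)) (fun i => ι (g.p i)) 2 = A
        generalize cm f (fun i => ι (g.r i)) (fun i => ι (g.p i)) 1 = B
        linear_combination (-(s * (c.x - A / 3))) * e5' + (s * B) * eu'
      have h7 := (((hov _ _ g.g0).mul (h3 0)).add ((hov _ _ g.g1).mul (h3 1))).add
        ((hov _ _ g.g2).mul (h3 2))
      rw [h6] at h7
      have h8 := h7.unique isRes_zero
      have h9 : b.x 2 = 0 := by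
        rw [zero_mul, zero_mul, zero_add, zero_add] at h8
        exact (mul_eq_zero.mp h8).resolve_left g.hγ
      rw [h2]
      exact ⟨b.x, b.w, b.x_ne, b.eqn, (dpt_eq b.x_ne b.eqn).symm, Or.inr h9⟩
  · have gd := hN P hP
    have hx0 : c.x ≠ 0 := by
      intro h0
      rw [h0] at hx
      exact hx w.ring.zero_mem
    have hxi : IsRes w c.x⁻¹ 0 := by
      have hxm : c.x⁻¹ ∈ w.ring := (w.ring.mem_or_inv_mem c.x).resolve_left hx
      obtain ⟨e, he'⟩ := exists_res hK hxm
      by_cases h : e = 0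
      · rwa [h] at he'
      · exfalso
        have := (he'.inv_mem h).2
        rw [inv_inv] at this
        exact hx this
    have hp' : ∀ i, IsRes w (c.p.ev (g.p i)) (rs P (g.p i)) :=
      fun i => ev63 g.hL hO (gd.hp i)
    have hr' : ∀ i, IsRes w (c.p.ev (g.r i)) (rs P (g.r i)) :=
      fun i => ev63 g.hL hO (gd.hr i)
    have hcm := isRes_cm f hr' hp'
    have hY2 : IsRes w ((c.y * c.x⁻¹ ^ 2) ^ 2) 0 := by
      have h1 := (hxi.sub (((isRes_const (3 : k)).mul (ev63 D.hL hO hP.1)).mul (hxi.pow 3))).sub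
        (((isRes_const (2 : k)).mul (ev63 D.hL hO hP.2.1)).mul (hxi.pow 4))
      have h2 : (c.y * c.x⁻¹ ^ 2) ^ 2 = c.x⁻¹ - algebraMap k K 3 * c.p.ev D.al * c.x⁻¹ ^ 3 -
          algebraMap k K 2 * c.p.ev D.be * c.x⁻¹ ^ 4 := by
        have h3 : c.y ^ 2 = c.x ^ 3 - 3 * c.p.ev D.al * c.x - 2 * c.p.ev D.be := c.hE
        rw [map_ofNat, map_ofNat, mul_pow, h3]
        field_simp
      rw [h2]
      have h4 : (0 : k) - 3 * rs P D.al * 0 ^ 3 - 2 * rs P D.be * 0 ^ 4 = 0 := by ring
      rwa [h4] at h1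
    obtain ⟨e, he1, he2⟩ := exists_res_of_pow hK two_ne_zero hY2
    have he3 : e = 0 := pow_eq_zero_iff two_ne_zero |>.mp he2
    rw [he3] at he1
    have h3K : algebraMap k K (1 / 3) = 1 / 3 := by
      rw [map_div₀, map_one, map_ofNat]
    have h13 := (isRes_const (v := w) (1 / 3 : k))
    rw [h3K] at h13
    have hd := (isRes_one (v := w)).sub (hxi.mul ((hcm 2).mul h13))
    have hX : ∀ i, IsRes w (c.x⁻¹ * px3 f (fun i => c.p.ev (g.p i)) (fun i => c.p.ev (g.r i))
        c.x i) (rs P (g.r i)) := by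
      intro i
      have h1 := (hd.mul (hr' i)).add ((hxi.mul (hcm 1)).mul (hp' i))
      rw [zero_mul, zero_mul, zero_mul, sub_zero, one_mul, add_zero] at h1
      convert h1 using 1
      unfold px3
      field_simp
    have hW : IsRes w (c.x⁻¹ ^ 3 * pw3 f (fun i => c.p.ev (g.p i)) (fun i => c.p.ev (g.r i))
        c.x c.y) 0 := by
      have h1 := ((hcm 1).mul hd).mul he1
      rw [mul_zero] at h1
      convert h1 using 1
      unfold pw3
      field_simp
    have hy : (fun i => rs P (g.r i)) ≠ 0 := by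
      intro h0
      obtain ⟨i, j, hij⟩ := gd.ind
      have hi : rs P (g.r i) = 0 := congrFun h0 i
      have hj : rs P (g.r j) = 0 := congrFun h0 j
      apply hij
      rw [hi, hj, mul_zero, mul_zero]
    have hfr : (0 : k) ^ 2 = MvPolynomial.aeval (fun i => rs P (g.r i)) f := by
      have h1 := (sp_rs g.sp gd).1.h0
      rw [cm_zero] at h1
      rw [h1, zero_pow two_ne_zero]
    have hval : (surface f hf).eval hK (gmor f g.p g.r K c) w =
        dpt f (fun i => rs P (g.r i)) 0 := by
      unfold gmor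
      rw [← dpt_smul hf hne (inv_ne_zero hx0) heq]
      refine eval_dpt hf hK w ?_ hy hX hW
      rw [aeval_smul hf, ← heq]
      ring
    rw [hval]
    exact ⟨_, 0, hy, hfr, rfl, Or.inl rfl⟩

end Pool.Agent.Helper83.DP
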