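import Mathlib
import Pool.Agent.Helper9.NS
import Pool.Agent.Helper83.DP.Cm
import Pool.Agent.Helper83.VH.Decomp

/-!
# Block DP-LCH: linear change of coordinates
`vn_of_surj`: for a map `r : X.Pt → Y.Pt` induced by a morphism and surjective, the alternating relations for
`X` imply those for `Y`: choose a section `σ` of `r`; for cycles `a i` on `Y` of degree zero the cycles
`b i = Finsupp.mapDomain σ (a i)` have degree zero and `mapDomain r (b i) = a i`. The map
`r^n : (X.pow n).Pt → (Y.pow n).Pt`, `p ↦ r ∘ p` is induced (`induced_pow`, used in `VH.induced_TW`), so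
`VC.map_rat` gives `mapDomain (r^n) z ∈ Y.Rat`; `mapDomain (r^n) (extProd b) = extProd a` (there is a lemma of
this kind for `extProd`, search `extProd` in `Helper26/VC`, `Helper70/VF/Assembly.lean`; otherwise linear
extension from `extProd` of single points).
`lin_induced`, `lin_surj`: the map on coordinates `(X; w) ↦ (∑ i, X i * e i ; w)`; `aeval X (chg e f) =
aeval (fun j => ∑ i, e i j * X i) f`; the inverse is given by the inverse matrix.
-/

set_option linter.unusedSectionVars false

namespace Pool.Agent.Helper83.DP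

open VC VF Function Polynomial

universe u

variable {k : Type u} [Field k] [IsAlgClosed k] [CharZero k]

/-- The alternating relations for `n` cycles of degree zero. -/
def Vn (X : Variety k) (n : ℕ) : Prop :=
  ∀ a : Fin n → X.Cycles, (∀ i, (a i).sum (fun _ c => c) = 0) →
    ∃ M : ℕ, 0 < M ∧ M • ∑ σ : Equiv.Perm (Fin n), ((Equiv.Perm.sign σ : ℤˣ) : ℤ) •
      extProd (fun i => a (σ i)) ∈ (X.pow n).Rat

private lemma extProd_map50 {X Y : Variety k} {σ : Y.Pt → X.Pt} (hσ : Function.Injective σ)
    {n : ℕ} (a : Fin n → Y.Cycles) :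
    (extProd (fun i => (Finsupp.mapDomain σ (a i) : X.Cycles)) : (X.pow n).Cycles) =
      Finsupp.mapDomain (fun p : Fin n → Y.Pt => fun i => σ (p i)) (extProd a) := by
  have hinj : Function.Injective (fun p : Fin n → Y.Pt => fun i => σ (p i)) := by
    intro p q h
    funext i
    exact hσ (congrFun h i)
  have hX : ∀ (a : Fin n → X.Cycles) (p : Fin n → X.Pt), extProd a p = ∏ i, a i (p i) :=
    fun a p => ext'_apply a p
  have hY : ∀ (a : Fin n → Y.Cycles) (p : Fin n → Y.Pt), extProd a p = ∏ i, a i (p i) :=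
    fun a p => ext'_apply a p
  refine Finsupp.ext fun (q : Fin n → X.Pt) => ?_
  rw [hX]
  by_cases hq : q ∈ Set.range (fun p : Fin n → Y.Pt => fun i => σ (p i))
  · obtain ⟨p, rfl⟩ := hq
    have h1 : (Finsupp.mapDomain (fun p : Fin n → Y.Pt => fun i => σ (p i)) (extProd a))
        (fun i => σ (p i)) = extProd a p := Finsupp.mapDomain_apply hinj (extProd a) p
    refine Eq.trans ?_ h1.symm
    rw [hY]
    exact Finset.prod_congr rfl fun i _ => Finsupp.mapDomain_apply hσ (a i) (p i)
  · refine Eq.trans ?_ (Finsupp.mapDomain_notin_range (extProd a) q hq).symm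
    have h2 : ∃ i, q i ∉ Set.range σ := by
      by_contra hc
      push Not at hc
      choose p hp using hc
      exact hq ⟨p, funext hp⟩
    obtain ⟨i, hi⟩ := h2
    exact Finset.prod_eq_zero (Finset.mem_univ i) (Finsupp.mapDomain_notin_range (a i) (q i) hi)

theorem vn_of_surj {X Y : Variety k} {r : X.Pt → Y.Pt} (hr : Induced X Y r)
    (hs : Surjective r) {n : ℕ} (h : Vn X n) : Vn Y n := by
  intro a ha
  have hσ : ∀ y, r (surjInv hs y) = y := surjInv_eq hs
  have hinj : Function.Injective (surjInv hs) := injective_surjInv hs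
  obtain ⟨M, hM, hM'⟩ := h (fun i => Finsupp.mapDomain (surjInv hs) (a i)) (fun i => by
    rw [Finsupp.sum_mapDomain_index (fun _ => rfl) (fun _ _ _ => rfl)]
    exact ha i)
  refine ⟨M, hM, ?_⟩
  have h1 := map_rat (X.pow n) (Y.pow n) (fun p i => r (p i))
    (VF.induced_pow (fun _ => r) fun _ => hr) hM'
  have h2 : ∀ τ : Equiv.Perm (Fin n), (Finsupp.mapDomain.addMonoidHom
      (fun (p : (X.pow n).Pt) (i : Fin n) => r (p i)) :
        (X.pow n).Cycles →+ (Y.pow n).Cycles)
      (extProd (fun i => Finsupp.mapDomain (surjInv hs) (a (τ i)))) =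
      extProd (fun i => a (τ i)) := by
    intro τ
    have h3 := extProd_map50 hinj (fun i => a (τ i))
    rw [h3]
    change Finsupp.mapDomain (fun (p : (X.pow n).Pt) (i : Fin n) => r (p i))
      (Finsupp.mapDomain (fun p : Fin n → Y.Pt => fun i => surjInv hs (p i))
        (extProd (fun i => a (τ i)))) = _
    rw [← Finsupp.mapDomain_comp]
    have h4 : ((fun (p : (X.pow n).Pt) (i : Fin n) => r (p i)) ∘
        fun p : Fin n → Y.Pt => fun i => surjInv hs (p i)) = id := by
      funext p i
      exact hσ (p i)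
    rw [h4, Finsupp.mapDomain_id]
  have h5 : (Finsupp.mapDomain (fun (p : (X.pow n).Pt) (i : Fin n) => r (p i))
      (M • ∑ τ : Equiv.Perm (Fin n), ((Equiv.Perm.sign τ : ℤˣ) : ℤ) •
        (extProd (fun i => Finsupp.mapDomain (surjInv hs) (a (τ i))) : (X.pow n).Cycles)) :
          (Y.pow n).Cycles) =
      M • ∑ τ : Equiv.Perm (Fin n), ((Equiv.Perm.sign τ : ℤˣ) : ℤ) •
        extProd (fun i => a (τ i)) := by
    change (Finsupp.mapDomain.addMonoidHom
      (fun (p : (X.pow n).Pt) (i : Fin n) => r (p i)) :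
        (X.pow n).Cycles →+ (Y.pow n).Cycles) _ = _
    rw [map_nsmul, map_sum]
    congr 1
    refine Finset.sum_congr rfl fun τ _ => ?_
    rw [map_zsmul, h2]
  rw [← h5]
  exact h1

/-- The form in the coordinates with respect to the basis `e`. -/
noncomputable def chg {k : Type u} [Field k] (e : Fin 3 → Fin 3 → k)
    (f : MvPolynomial (Fin 3) k) : MvPolynomial (Fin 3) k :=
  MvPolynomial.aeval (fun j => ∑ i, MvPolynomial.C (e i j) * MvPolynomial.X i) f

lemma chg_hom (e : Fin 3 → Fin 3 → k) {f : MvPolynomial (Fin 3) k} (hf : f.IsHomogeneous 6) :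
    (chg e f).IsHomogeneous 6 := by
  have h1 : ∀ j, (∑ i, MvPolynomial.C (e i j) * MvPolynomial.X i :
      MvPolynomial (Fin 3) k).IsHomogeneous 1 := fun j =>
    MvPolynomial.IsHomogeneous.sum _ _ _ fun i _ => MvPolynomial.isHomogeneous_C_mul_X _ _
  exact hf.aeval _ h1

lemma aeval_chg {R : Type*} [CommRing R] [Algebra k R] (e : Fin 3 → Fin 3 → k)
    (f : MvPolynomial (Fin 3) k) (x : Fin 3 → R) : MvPolynomial.aeval x (chg e f) =
      MvPolynomial.aeval (fun j => ∑ i, algebraMap k R (e i j) * x i) f := by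
  unfold chg
  rw [MvPolynomial.comp_aeval_apply]
  congr 2
  funext j
  rw [map_sum]
  refine Finset.sum_congr rfl fun i _ => ?_
  rw [map_mul, MvPolynomial.aeval_X, MvPolynomial.aeval_C]

/-! ### The change of coordinates on points -/

private lemma exists_inv50 {k : Type u} [Field k] {e : Fin 3 → Fin 3 → k}
    (he : LinearIndependent k e) : ∃ g : Fin 3 → Fin 3 → k,
      (∀ i l, ∑ j, e i j * g j l = if i = l then 1 else 0) ∧
      (∀ j l, ∑ i, g j i * e i l = if j = l then 1 else 0) := by
  have h1 : IsUnit (Matrix.of e) := Matrix.linearIndependent_rows_iff_isUnit.mp he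
  obtain ⟨u, hu⟩ := h1
  refine ⟨fun j l => (↑u⁻¹ : Matrix (Fin 3) (Fin 3) k) j l, fun i l => ?_, fun j l => ?_⟩
  · have h2 : (Matrix.of e * (↑u⁻¹ : Matrix (Fin 3) (Fin 3) k)) i l =
        (1 : Matrix (Fin 3) (Fin 3) k) i l := by rw [← hu, Units.mul_inv]
    rw [Matrix.mul_apply, Matrix.one_apply] at h2
    exact h2
  · have h2 : ((↑u⁻¹ : Matrix (Fin 3) (Fin 3) k) * Matrix.of e) j l =
        (1 : Matrix (Fin 3) (Fin 3) k) j l := by rw [← hu, Units.inv_mul]
    rw [Matrix.mul_apply, Matrix.one_apply] at h2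
    exact h2

private lemma lin_ne50 {k : Type u} [Field k] {K : Type u} [Field K] [Algebra k K]
    {e : Fin 3 → Fin 3 → k} (he : LinearIndependent k e) {x : Fin 3 → K} (hx : x ≠ 0) :
    (fun j => ∑ i, algebraMap k K (e i j) * x i) ≠ 0 := by
  obtain ⟨g, hg, -⟩ := exists_inv50 he
  intro h0
  apply hx
  funext l
  have h1 : ∑ j, (∑ i, algebraMap k K (e i j) * x i) * algebraMap k K (g j l) = x l := by
    have h2 : ∀ j, (∑ i, algebraMap k K (e i j) * x i) * algebraMap k K (g j l) =
        ∑ i, algebraMap k K (e i j * g j l) * x i := by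
      intro j
      rw [Finset.sum_mul]
      refine Finset.sum_congr rfl fun i _ => ?_
      rw [map_mul]
      ring
    rw [Finset.sum_congr rfl fun j _ => h2 j, Finset.sum_comm]
    have h3 : ∀ i, ∑ j, algebraMap k K (e i j * g j l) * x i = if i = l then x i else 0 := by
      intro i
      rw [← Finset.sum_mul, ← map_sum, hg]
      split_ifs
      · rw [map_one, one_mul]
      · rw [map_zero, zero_mul]
    rw [Finset.sum_congr rfl fun i _ => h3 i]
    simp
  rw [Pi.zero_apply, ← h1]
  refine Finset.sum_eq_zero fun j _ => ?_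
  have h4 : ∑ i, algebraMap k K (e i j) * x i = 0 := congrFun h0 j
  rw [h4, zero_mul]

/-- The map on coordinates. -/
private noncomputable def linC50 {K : Type u} [Field K] [Algebra k K]
    {e : Fin 3 → Fin 3 → k} (he : LinearIndependent k e) {f : MvPolynomial (Fin 3) k}
    (a : Coord (chg e f) K) : Coord f K where
  x j := ∑ i, algebraMap k K (e i j) * a.x i
  w := a.w
  x_ne := lin_ne50 he a.x_ne
  eqn := by rw [a.eqn, aeval_chg]

/-- The map on points. -/
private noncomputable def linP50 {K : Type u} [Field K] [Algebra k K]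
    {e : Fin 3 → Fin 3 → k} (he : LinearIndependent k e) {f : MvPolynomial (Fin 3) k}
    (p : DPt (chg e f) K) : DPt f K :=
  Quotient.map (linC50 he) (by
    rintro a b ⟨c, hc, h1, h4⟩
    refine ⟨c, hc, fun j => ?_, h4⟩
    change ∑ i, algebraMap k K (e i j) * b.x i = c * ∑ i, algebraMap k K (e i j) * a.x i
    rw [Finset.mul_sum]
    refine Finset.sum_congr rfl fun i _ => ?_
    rw [h1]
    ring) p

private lemma linP_mk50 {K : Type u} [Field K] [Algebra k K]
    {e : Fin 3 → Fin 3 → k} (he : LinearIndependent k e) {f : MvPolynomial (Fin 3) k}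
    (a : Coord (chg e f) K) : linP50 he (DPt.mk a) = DPt.mk (linC50 he a) := rfl

private lemma lin_induced50 {e : Fin 3 → Fin 3 → k} (he : LinearIndependent k e)
    {f : MvPolynomial (Fin 3) k} (hf : f.IsHomogeneous 6) :
    Induced (surface (chg e f) (chg_hom e hf)) (surface f hf) (linP50 he) := by
  intro K _ _ hK c
  refine ⟨linP50 he c, fun v => ?_⟩
  obtain ⟨a, b, rfl, h2, h3, h5⟩ := exists_coords (chg_hom e hf) hK v c
  rw [h2, linP_mk50, linP_mk50]
  refine eval_eq hf hK v (linC50 he a) (linC50 he b) (fun j => ?_) h5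
  have h6 : IsRes v (∑ i, algebraMap k K (e i j) * a.x i) (∑ i, e i j * b.x i) :=
    IsRes.sum _ fun i _ => (isRes_const (e i j)).mul (h3 i)
  exact h6

private lemma lin_surj50 {e : Fin 3 → Fin 3 → k}
    (he : LinearIndependent k e) {f : MvPolynomial (Fin 3) k} :
    Surjective (linP50 he : DPt (chg e f) k → DPt f k) := by
  intro p
  obtain ⟨b, rfl⟩ := exists_mk p
  obtain ⟨g, -, hg⟩ := exists_inv50 he
  have h1 : ∀ l, ∑ i, e i l * (∑ j, g j i * b.x j) = b.x l := by
    intro l
    have h2 : ∀ i, e i l * (∑ j, g j i * b.x j) = ∑ j, (g j i * e i l) * b.x j := by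
      intro i
      rw [Finset.mul_sum]
      exact Finset.sum_congr rfl fun j _ => by ring
    rw [Finset.sum_congr rfl fun i _ => h2 i, Finset.sum_comm]
    have h3 : ∀ j, ∑ i, g j i * e i l * b.x j = if j = l then b.x j else 0 := by
      intro j
      rw [← Finset.sum_mul, hg]
      split_ifs
      · rw [one_mul]
      · rw [zero_mul]
    rw [Finset.sum_congr rfl fun j _ => h3 j]
    simp
  have h4 : (fun l => ∑ i, algebraMap k k (e i l) * (∑ j, g j i * b.x j)) = b.x := funext h1
  refine ⟨DPt.mk ⟨fun i => ∑ j, g j i * b.x j, b.w, ?_, ?_⟩, ?_⟩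
  · intro h0
    apply b.x_ne
    funext l
    rw [← h1 l, Pi.zero_apply]
    refine Finset.sum_eq_zero fun i _ => ?_
    have h5 : ∑ j, g j i * b.x j = 0 := congrFun h0 i
    rw [h5, mul_zero]
  · rw [aeval_chg, h4]
    exact b.eqn
  · rw [linP_mk50, mk_eq_iff]
    refine ⟨1, one_ne_zero, fun l => ?_, ?_⟩
    · rw [one_mul]
      exact (h1 l).symm
    · rw [one_pow, one_mul]
      rfl

/-- The relations for the form in other coordinates. -/
theorem vn_chg {e : Fin 3 → Fin 3 → k} (he : LinearIndependent k e) {f : MvPolynomial (Fin 3) k}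
    (hf : f.IsHomogeneous 6) {n : ℕ} (h : Vn (surface (chg e f) (chg_hom e hf)) n) :
    Vn (surface f hf) n :=
  vn_of_surj (lin_induced50 he hf) (lin_surj50 he) h

end Pool.Agent.Helper83.DP
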