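import Mathlib
import Pool.Agent.Helper9.NS
import Pool.Agent.Helper83.DP.Evn
import Pool.Agent.Helper83.QF.Sng

/-!
# Block DP-LIN: lines over which the covering is a rational curve
Let `p`, `v` be linearly independent and `f (s p + t v) = t ^ 2 * qu c (s, t)` with `dsc c = 0`, where
`c j = cm f p v (j + 2)` (`aeval_line`). Let `Q : QF.Qua k` be the constant family with `N = 0`, `e = 0`,
`a j = C (c j)` (homogeneous of degree `0`). The map `r : Q.surface.Pt → (surface f hf).Pt`,
`(u; x; w') ↦ (x 0 p + x 1 v; x 1 w')` is well defined (the coordinates `(l u; c' x; c' ^ 2 w')` are mapped to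
`(c' (..); c' ^ 3 ..)`; `x 0 p + x 1 v ≠ 0`) and induced by a morphism (the same formula on coordinates
in `K`; `QF.exists_coords`, `eval_eq`). For `ψ` with `Kills` the function
`q ↦ ψ (r q) - ψ (neg (r q))` on `Q.surface` satisfies `Kills` and is odd (`r (QF.neg q) = neg (r q)`), and no
point is `DQ`; so it is zero by `QF.sing_zero`: `ψ x = ψ (neg x)` for the points `x` over the line which are of
the form `r q`. All points over the line are: if `w ^ 2 = f (s p + t v) = t ^ 2 qu c (s, t)` with `t ≠ 0`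
take `w' = w / t`; if `t = 0` then `w = 0` and take `w'` with `w' ^ 2 = qu c (s, t)`.
Finally the even function `ψ + ψ ∘ neg` is constant (`even_const`), and `f p = 0` (`cm_zero`), so
`2 ψ x = ψ x + ψ (neg x) = 2 ψ (dpt f p 0)`.
-/

set_option linter.unusedSectionVars false

namespace Pool.Agent.Helper83.DP

open VC VF Function Polynomial

universe u

variable {k : Type u} [Field k] [IsAlgClosed k] [CharZero k] {f : MvPolynomial (Fin 3) k}
  (hf : f.IsHomogeneous 6)

omit [IsAlgClosed k] [CharZero k] in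
/-- The restriction of the form to the line. -/
private lemma on_line15 (hf : f.IsHomogeneous 6) {K : Type u} [Field K] [Algebra k K]
    {p v : Fin 3 → k} (h0 : cm f p v 0 = 0) (h1 : cm f p v 1 = 0) (x : Fin 2 → K) :
    MvPolynomial.aeval (fun i => x 0 * algebraMap k K (p i) + x 1 * algebraMap k K (v i)) f =
      x 1 ^ 2 * QF.qu (fun j : Fin 5 => algebraMap k K (cm f p v (j.val + 2))) x := by
  have hm : ∀ m, cm f (fun i => algebraMap k K (p i)) (fun i => algebraMap k K (v i)) m =
      algebraMap k K (cm f p v m) := fun m => cm_map (Algebra.ofId k K) f p v m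
  rw [aeval_line hf, hm, hm, hm, hm, hm, hm, hm, h0, h1, map_zero]
  unfold QF.qu
  have v2 : ((2 : Fin 5) : ℕ) = 2 := rfl
  have v3 : ((3 : Fin 5) : ℕ) = 3 := rfl
  have v4 : ((4 : Fin 5) : ℕ) = 4 := rfl
  simp only [v2, v3, v4, Fin.val_zero, Fin.val_one, zero_add]
  norm_num
  ring

omit [IsAlgClosed k] [CharZero k] in
private lemma indep15 {K : Type u} [Field K] [Algebra k K] {p v : Fin 3 → k}
    (hi : ∃ i j, p i * v j ≠ p j * v i) {x : Fin 2 → K} (hx : x ≠ 0) :
    (fun i => x 0 * algebraMap k K (p i) + x 1 * algebraMap k K (v i)) ≠ 0 := by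
  intro h
  obtain ⟨i, j, hij⟩ := hi
  have ei := congrFun h i
  have ej := congrFun h j
  simp only [Pi.zero_apply] at ei ej
  have hd : algebraMap k K (p i) * algebraMap k K (v j) -
      algebraMap k K (p j) * algebraMap k K (v i) ≠ 0 := by
    rw [← map_mul, ← map_mul, ← map_sub]
    exact (_root_.map_ne_zero _).mpr (sub_ne_zero.mpr hij)
  have e0 : x 0 * (algebraMap k K (p i) * algebraMap k K (v j) -
      algebraMap k K (p j) * algebraMap k K (v i)) = 0 := by
    linear_combination algebraMap k K (v j) * ei - algebraMap k K (v i) * ej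
  have e1 : x 1 * (algebraMap k K (p i) * algebraMap k K (v j) -
      algebraMap k K (p j) * algebraMap k K (v i)) = 0 := by
    linear_combination algebraMap k K (p i) * ej - algebraMap k K (p j) * ei
  apply hx
  funext l
  fin_cases l
  · exact (mul_eq_zero.mp e0).resolve_right hd
  · exact (mul_eq_zero.mp e1).resolve_right hd

/-- The constant family of double covers of the line. -/
private noncomputable def Q15 (c : Fin 5 → k) : QF.Qua k where
  N := 0
  e := 0
  a := fun i => MvPolynomial.C (c i)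
  hom := fun i _ => by
    have : 2 * 0 + 0 * i.val - 2 * 0 = 0 := by omega
    rw [this]
    exact MvPolynomial.isHomogeneous_C _ _
  zero := fun i h => by omega

omit [IsAlgClosed k] [CharZero k] in
private lemma cf15 (c : Fin 5 → k) {K : Type u} [Field K] [Algebra k K] (u : Fin 2 → K) :
    QF.cf (Q15 c) u = fun j => algebraMap k K (c j) := by
  funext j
  exact MvPolynomial.aeval_C _ _

/-- The map on coordinates. -/
private noncomputable def G15 (hf : f.IsHomogeneous 6) {p v : Fin 3 → k} (hi : ∃ i j, p i * v j ≠ p j * v i)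
    (h0 : cm f p v 0 = 0) (h1 : cm f p v 1 = 0) {K : Type u} [Field K] [Algebra k K]
    (a : QF.Coord (Q15 (fun j : Fin 5 => cm f p v (j.val + 2))) K) : Coord f K where
  x i := a.x 0 * algebraMap k K (p i) + a.x 1 * algebraMap k K (v i)
  w := a.x 1 * a.w
  x_ne := indep15 hi a.x_ne
  eqn := by
    rw [on_line15 hf h0 h1, mul_pow, a.eqn, cf15]

/-- The map. -/
private noncomputable def r15 (hf : f.IsHomogeneous 6) {p v : Fin 3 → k} (hi : ∃ i j, p i * v j ≠ p j * v i)
    (h0 : cm f p v 0 = 0) (h1 : cm f p v 1 = 0) {K : Type u} [Field K] [Algebra k K]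
    (q : QF.QPt (Q15 (fun j : Fin 5 => cm f p v (j.val + 2))) K) : DPt f K :=
  Quotient.map (G15 hf hi h0 h1) (by
    rintro a b ⟨l, c, hl, hc, e1, e2, e3, e4⟩
    have e2' : b.x 0 = l ^ 0 * c * a.x 0 := e2
    have e4' : b.w = l ^ (0 + 0) * c ^ 2 * a.w := e4
    refine ⟨c, hc, fun i => ?_, ?_⟩
    · change b.x 0 * algebraMap k K (p i) + b.x 1 * algebraMap k K (v i) =
        c * (a.x 0 * algebraMap k K (p i) + a.x 1 * algebraMap k K (v i))
      rw [e2', e3]
      ring
    · change b.x 1 * b.w = c ^ 3 * (a.x 1 * a.w)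
      rw [e3, e4']
      ring) q

private lemma r15_induced {p v : Fin 3 → k} (hi : ∃ i j, p i * v j ≠ p j * v i)
    (h0 : cm f p v 0 = 0) (h1 : cm f p v 1 = 0) :
    Induced (Q15 (fun j : Fin 5 => cm f p v (j.val + 2))).surface (surface f hf)
      (r15 hf hi h0 h1) := by
  intro K _ _ hK c
  refine ⟨r15 hf hi h0 h1 c, fun w => ?_⟩
  obtain ⟨a, b, rfl, h2, h3, h4, h5⟩ := QF.exists_coords hK w c
  rw [h2]
  exact eval_eq hf hK w (G15 hf hi h0 h1 a) (G15 hf hi h0 h1 b)
    (fun i => ((h4 0).mul (isRes_const (p i))).add ((h4 1).mul (isRes_const (v i))))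
    ((h4 1).mul h5)

private lemma r15_neg {p v : Fin 3 → k} (hi : ∃ i j, p i * v j ≠ p j * v i)
    (h0 : cm f p v 0 = 0) (h1 : cm f p v 1 = 0)
    (q : QF.QPt (Q15 (fun j : Fin 5 => cm f p v (j.val + 2))) k) :
    r15 hf hi h0 h1 (QF.neg q) = neg (r15 hf hi h0 h1 q) := by
  obtain ⟨a, rfl⟩ := QF.exists_mk q
  change DPt.mk (G15 hf hi h0 h1 (QF.negC a)) = DPt.mk (negC (G15 hf hi h0 h1 a))
  rw [mk_eq_iff]
  refine ⟨1, one_ne_zero, fun i => ?_, ?_⟩
  · rw [one_mul]
    rfl
  · change -(a.x 1 * a.w) = 1 ^ 3 * (a.x 1 * (-a.w))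
    ring

theorem line_const {ψ : (surface f hf).Pt → k} (h : Kills (surface f hf) ψ) {p v : Fin 3 → k}
    (hi : ∃ i j, p i * v j ≠ p j * v i) (h0 : cm f p v 0 = 0) (h1 : cm f p v 1 = 0)
    (hd : QF.dsc (fun j : Fin 5 => cm f p v (j.val + 2)) = 0) {s t w : k}
    (hst : s ≠ 0 ∨ t ≠ 0) (hw : w ^ 2 = MvPolynomial.aeval (fun i => s * p i + t * v i) f) :
    ψ (dpt f (fun i => s * p i + t * v i) w) = ψ (dpt f p 0) := by
  set c : Fin 5 → k := fun j : Fin 5 => cm f p v (j.val + 2) with hc
  set φ : (Q15 c).surface.Pt → k := fun q => ψ (r15 hf hi h0 h1 q) +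
    (-1) * ψ (neg (r15 hf hi h0 h1 q)) with hφ
  have hkill : Kills (Q15 c).surface φ :=
    (h.comp (r15_induced hf hi h0 h1)).add
      (((h.comp (induced_neg hf)).comp (r15_induced hf hi h0 h1)).smul (-1))
  have hodd : ∀ q, φ (QF.neg q) = -φ q := by
    intro q
    simp only [hφ, r15_neg hf hi h0 h1, neg_neg']
    ring
  have hx : (![s, t] : Fin 2 → k) ≠ 0 := by
    intro hx
    rcases hst with hs | ht
    · exact hs (congrFun hx 0)
    · exact ht (congrFun hx 1)
  have hne : (fun i => s * p i + t * v i) ≠ 0 := indep15 (K := k) hi hx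
  have hline : MvPolynomial.aeval (fun i => s * p i + t * v i) f = t ^ 2 * QF.qu c ![s, t] :=
    on_line15 (K := k) hf h0 h1 ![s, t]
  obtain ⟨w', hw1, hw2⟩ : ∃ w' : k, w' ^ 2 = QF.qu c ![s, t] ∧ t * w' = w := by
    by_cases ht : t = 0
    · obtain ⟨w', hw'⟩ := IsAlgClosed.exists_pow_nat_eq (QF.qu c ![s, t]) (n := 2) (by norm_num)
      refine ⟨w', hw', ?_⟩
      rw [hline, ht] at hw
      have : w ^ 2 = 0 := by rw [hw]; ring
      rw [ht, zero_mul]
      exact (pow_eq_zero_iff two_ne_zero).mp this |>.symm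
    · refine ⟨w / t, ?_, by field_simp⟩
      rw [div_pow, hw, hline]
      field_simp
  have hcf : ∀ u : Fin 2 → k, QF.cf (Q15 c) u = c := fun u => cf15 c u
  set a : QF.Coord (Q15 c) k := ⟨![1, 0], ![s, t], w', fun h => one_ne_zero (congrFun h 0), hx, by
    rw [hcf]; exact hw1⟩ with ha
  have hz : φ (QF.QPt.mk a) = 0 := by
    refine QF.sing_zero hkill hodd ?_
    rw [QF.dq_mk, not_not, hcf]
    exact hd
  have hr : r15 hf hi h0 h1 (QF.QPt.mk a) = dpt f (fun i => s * p i + t * v i) w := by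
    rw [dpt_eq hne hw]
    change DPt.mk (G15 hf hi h0 h1 a) = _
    rw [mk_eq_iff]
    refine ⟨1, one_ne_zero, fun i => ?_, ?_⟩
    · rw [one_mul]
      rfl
    · change w = 1 ^ 3 * (t * w')
      rw [hw2]
      ring
  simp only [hφ, hr] at hz
  have hp : p ≠ 0 := by
    rintro rfl
    obtain ⟨i, j, hij⟩ := hi
    simp at hij
  have hp0 : (0 : k) ^ 2 = MvPolynomial.aeval p f := by rw [← cm_zero f p v, h0]; ring
  have h2 : Kills (surface f hf) (fun p => ψ p + ψ (neg p)) := h.add (h.comp (induced_neg hf))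
  have h3 : ∀ p : (surface f hf).Pt, ψ (neg p) + ψ (neg (neg p)) = ψ p + ψ (neg p) := by
    intro p
    rw [neg_neg', add_comm]
  have h4 : ψ (dpt f (fun i => s * p i + t * v i) w) +
      ψ (neg (dpt f (fun i => s * p i + t * v i) w)) = ψ (dpt f p 0) + ψ (neg (dpt f p 0)) :=
    even_const hf h2 h3 (dpt f (fun i => s * p i + t * v i) w) (dpt f p 0)
  rw [neg_dpt hp hp0, neg_zero] at h4
  have h5 : (2 : k) * ψ (dpt f (fun i => s * p i + t * v i) w) = 2 * ψ (dpt f p 0) := by
    linear_combination h4 + hz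
  exact mul_left_cancel₀ two_ne_zero h5

end Pool.Agent.Helper83.DP
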