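import Mathlib
import Pool.Agent.Helper9.NS
import Pool.Agent.Helper83.DP.FZero
import Pool.Agent.Helper83.DP.FDom
import Pool.Agent.Helper83.DP.Lin
import Pool.Agent.Helper83.DP.Lch
import Pool.Agent.Helper83.GK.Main

/-!
# The family of curves of genus one on a double plane
-/

set_option linter.unusedSectionVars false

namespace Pool.Agent.Helper83.DP

open VC VF Function Polynomial
open Pool.Agent.Helper51.VN (OnE)
open Pool.Agent.Helper51.VB

universe u

variable {k : Type u} [Field k] [IsAlgClosed k] [CharZero k] {f : MvPolynomial (Fin 3) k}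
  (hf : f.IsHomogeneous 6)

lemma e0_ne : (![(1 : k), 0, 0] : Fin 3 → k) ≠ 0 := fun h => one_ne_zero (congrFun h 0)

theorem gR_const (h : Nrm f) {ψ : (surface f hf).Pt → k} (hk : Kills (surface f hf) ψ)
    {x : (surface f hf).Pt} (hx : x ∈ gR f) : ψ x = ψ (dpt f ![1, 0, 0] 0) := by
  obtain ⟨y, w, hy, hw, rfl, hor⟩ := hx
  rcases hor with rfl | h2
  · exact ram_const hf hk hy e0_ne (by rw [← hw]; ring) h.h0
  · have e : y = fun i => y 0 * (![(1 : k), 0, 0] : Fin 3 → k) i +
        y 1 * (![(0 : k), 1, 0] : Fin 3 → k) i := by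
      funext i
      fin_cases i
      · change y 0 = y 0 * 1 + y 1 * 0
        ring
      · change y 1 = y 0 * 0 + y 1 * 1
        ring
      · change y 2 = y 0 * 0 + y 1 * 0
        rw [h2]
        ring
    have hst : y 0 ≠ 0 ∨ y 1 ≠ 0 := by
      by_contra hcon
      push Not at hcon
      apply hy
      rw [e, hcon.1, hcon.2]
      funext i
      simp
    rw [e] at hw ⊢
    refine line_const hf hk ⟨0, 1, ?_⟩ ?_ h.h1 h.hd hst hw
    · change (1 : k) * 1 ≠ 0 * 0
      simp
    · rw [cm_zero]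
      exact h.h0

theorem exists_fam (h : Nrm f) {L : Type u} [Field L] [Algebra k L] (g : Geo f L) :
    ∃ D : Ell k L, D.Gen ∧ Nonempty (GK.Fam D (surface f hf)) := by
  obtain ⟨R, he, hR⟩ := exists_good g
  obtain ⟨D, hal, hbe, he1, hDR, hN1⟩ := GK.exists_ell g.hL g.hD g.hj R he
  have hN : ∀ P, D.Nice P → Gd f g.p g.r P := by
    intro P hP
    have := hP.2.2.2
    rw [hDR] at this
    exact hR P this
  refine ⟨D, gen_of_j hN1 (by rw [hal, hbe]; exact g.hj), ⟨{
    R := gR f
    o := dpt f ![1, 0, 0] 0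
    ho := ⟨![1, 0, 0], 0, e0_ne, by rw [h.h0]; ring, rfl, Or.inl rfl⟩
    hR := fun ψ hk x hx => gR_const hf h hk hx
    phi := gphi f g.p g.r
    mor := fun K _ _ c => gmor f g.p g.r K c
    val := fun K _ _ hK c w p hp => gmor_val hf g.sp hal hbe hN hK c w p hp
    zero := fun K _ _ hK c w hz => gmor_zero hf g hal hbe he1 hN hK c w hz
    dom := fun x => gdom hf g hal hbe hN x }⟩⟩

theorem vn_of_geo (h : Nrm f) {L : Type u} [Field L] [Algebra k L] (g : Geo f L) :
    ∃ n₀ : ℕ, ∀ n, n₀ ≤ n → Vn (surface f hf) n := by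
  obtain ⟨D, hG, ⟨F⟩⟩ := exists_fam hf h g
  obtain ⟨γ, hγ⟩ := FF.exists_genus g.hL
  refine ⟨D.N + γ, fun n hn a ha => ?_⟩
  exact GK.voisin_fam (fun K _ _ hK p => exists_const hf K hK p) F hγ hn a ha

end Pool.Agent.Helper83.DP
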