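import Mathlib
import Pool.Agent.Helper9.NS
import Pool.Agent.Helper83.DP.Sp

/-!
# Block DP-SHF: the coefficients in other coordinates
`al4_inv`, `be6_inv`: `cm f (ρ p + v) p j` is the coefficient of `X ^ j` in
`f (v + (ρ + X) p) = ∑ m, cm f v p m (ρ + X) ^ m` (`aeval_line` over `K[X]` and `cm_symm`, or compare values at
all `t : K`, `K` is infinite): with `q j = cm f p v (j + 2)`: `cm f r p 1 = 4 q0 ρ ^ 3 + 3 q1 ρ ^ 2 + 2 q2 ρ + q3`,
`cm f r p 2 = 6 q0 ρ ^ 2 + 3 q1 ρ + q2`, `cm f r p 3 = 4 q0 ρ + q1`, `cm f r p 4 = q0`,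
`cm f r p 5 = cm f r p 6 = 0`, `cm f r p 0 = q0 ρ ^ 4 + q1 ρ ^ 3 + q2 ρ ^ 2 + q3 ρ + q4` (= 0). Then `ring`.
-/

set_option linter.unusedSectionVars false

namespace Pool.Agent.Helper83.DP

open VC VF Function Polynomial

universe u

variable {k : Type u} [Field k] {K : Type u} [Field K] [Algebra k K] [CharZero K]
  {f : MvPolynomial (Fin 3) k}

/-- Polynomial functions of degree at most six which vanish. -/
lemma shf_zero (a : Fin 7 → K) (h : ∀ t : K, ∑ i, a i * t ^ (i : ℕ) = 0) (i : Fin 7) :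
    a i = 0 := by
  have h1 : (∑ i : Fin 7, C (a i) * X ^ (i : ℕ) : K[X]) = 0 := by
    apply Polynomial.funext
    intro t
    rw [eval_finset_sum, eval_zero, ← h t]
    refine Finset.sum_congr rfl fun i _ => ?_
    rw [eval_mul, eval_C, eval_pow, eval_X]
  have h2 := congrArg (fun P : K[X] => P.coeff (i : ℕ)) h1
  simp only [finset_sum_coeff, coeff_C_mul_X_pow, coeff_zero] at h2
  rw [Finset.sum_eq_single i] at h2
  · simpa using h2
  · intro j _ hj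
    rw [if_neg]
    intro e
    exact hj (Fin.ext e.symm)
  · intro h3
    exact absurd (Finset.mem_univ i) h3

/-- The coefficients for `r = ρ p + v`. -/
theorem cm_shift (hf : f.IsHomogeneous 6) {p v : Fin 3 → K} (h0 : cm f p v 0 = 0)
    (h1 : cm f p v 1 = 0) (ρ : K) :
    cm f (fun i => ρ * p i + v i) p 0 = cm f p v 2 * ρ ^ 4 + cm f p v 3 * ρ ^ 3 +
      cm f p v 4 * ρ ^ 2 + cm f p v 5 * ρ + cm f p v 6 ∧
    cm f (fun i => ρ * p i + v i) p 1 = 4 * cm f p v 2 * ρ ^ 3 + 3 * cm f p v 3 * ρ ^ 2 +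
      2 * cm f p v 4 * ρ + cm f p v 5 ∧
    cm f (fun i => ρ * p i + v i) p 2 = 6 * cm f p v 2 * ρ ^ 2 + 3 * cm f p v 3 * ρ +
      cm f p v 4 ∧
    cm f (fun i => ρ * p i + v i) p 3 = 4 * cm f p v 2 * ρ + cm f p v 3 ∧
    cm f (fun i => ρ * p i + v i) p 4 = cm f p v 2 ∧
    cm f (fun i => ρ * p i + v i) p 5 = 0 ∧ cm f (fun i => ρ * p i + v i) p 6 = 0 := by
  have hk : ∀ i : Fin 7, (![cm f (fun i => ρ * p i + v i) p 0 - (cm f p v 2 * ρ ^ 4 +
        cm f p v 3 * ρ ^ 3 + cm f p v 4 * ρ ^ 2 + cm f p v 5 * ρ + cm f p v 6),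
      cm f (fun i => ρ * p i + v i) p 1 - (4 * cm f p v 2 * ρ ^ 3 + 3 * cm f p v 3 * ρ ^ 2 +
        2 * cm f p v 4 * ρ + cm f p v 5),
      cm f (fun i => ρ * p i + v i) p 2 - (6 * cm f p v 2 * ρ ^ 2 + 3 * cm f p v 3 * ρ +
        cm f p v 4),
      cm f (fun i => ρ * p i + v i) p 3 - (4 * cm f p v 2 * ρ + cm f p v 3),
      cm f (fun i => ρ * p i + v i) p 4 - cm f p v 2,
      cm f (fun i => ρ * p i + v i) p 5, cm f (fun i => ρ * p i + v i) p 6] : Fin 7 → K) i = 0 := by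
    apply shf_zero
    intro t
    have e1 := aeval_line hf (fun i => ρ * p i + v i) p 1 t
    have e2 := aeval_line hf p v (ρ + t) 1
    have e3 : (fun i => 1 * (ρ * p i + v i) + t * p i) = fun i => (ρ + t) * p i + 1 * v i := by
      funext i
      ring
    rw [e3, e2, h0, h1] at e1
    simp only [Fin.sum_univ_succ, Fin.sum_univ_zero, Matrix.cons_val_zero, Matrix.cons_val_succ,
      Fin.val_zero, Fin.val_succ]
    linear_combination -e1
  refine ⟨?_, ?_, ?_, ?_, ?_, ?_, ?_⟩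
  · exact sub_eq_zero.mp (hk 0)
  · exact sub_eq_zero.mp (hk 1)
  · exact sub_eq_zero.mp (hk 2)
  · exact sub_eq_zero.mp (hk 3)
  · exact sub_eq_zero.mp (hk 4)
  · exact hk 5
  · exact hk 6

theorem al4_inv (hf : f.IsHomogeneous 6) {p v : Fin 3 → K} (h0 : cm f p v 0 = 0)
    (h1 : cm f p v 1 = 0) {ρ : K} (hρ : cm f (fun i => ρ * p i + v i) p 0 = 0) :
    al4 f p (fun i => ρ * p i + v i) = QF.bI (fun j : Fin 5 => cm f p v (j.val + 2)) / 9 := by
  obtain ⟨e0, e1, e2, e3, e4, e5, e6⟩ := cm_shift hf h0 h1 ρ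
  rw [hρ] at e0
  unfold al4 QF.bI
  rw [e1, e2, e3]
  change _ = (12 * cm f p v 2 * cm f p v 6 - 3 * cm f p v 3 * cm f p v 5 + cm f p v 4 ^ 2) / 9
  linear_combination (12 * cm f p v 2 / 9) * e0

theorem be6_inv (hf : f.IsHomogeneous 6) {p v : Fin 3 → K} (h0 : cm f p v 0 = 0)
    (h1 : cm f p v 1 = 0) {ρ : K} (hρ : cm f (fun i => ρ * p i + v i) p 0 = 0) :
    be6 f p (fun i => ρ * p i + v i) = QF.bJ (fun j : Fin 5 => cm f p v (j.val + 2)) / 54 := by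
  obtain ⟨e0, e1, e2, e3, e4, e5, e6⟩ := cm_shift hf h0 h1 ρ
  rw [hρ] at e0
  unfold be6 QF.bJ
  rw [e1, e2, e3, e4]
  change _ = (72 * cm f p v 2 * cm f p v 4 * cm f p v 6 + 9 * cm f p v 3 * cm f p v 4 * cm f p v 5 -
    27 * cm f p v 2 * cm f p v 5 ^ 2 - 27 * cm f p v 6 * cm f p v 3 ^ 2 - 2 * cm f p v 4 ^ 3) / 54
  linear_combination (72 * cm f p v 2 * cm f p v 4 / 54 - 27 * cm f p v 3 ^ 2 / 54) * e0

end Pool.Agent.Helper83.DP
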