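import Mathlib
import Pool.Agent.Helper9.NS
import Pool.Agent.Helper83.DP.Geo
import Pool.Agent.Helper83.DP.Shf

/-!
# Block DP-NC: residues at the point of contact, nonconstancy
`res_grd`: `grd f ![1, y, z] i` has the residue `aeval ![1, 0, 0] (pderiv i f)` (`isRes_aeval`), which is for `i = 0`: `euler` at
`(1, 0, 0)`; for `i = 1`: `cm_one` for `v = (0, 1, 0)` and `h.h1`.
`grd_nonconst`: otherwise `grd i = c i * grd 2` for all `i`; residues at `e`: `0 = c 0 * γ = c 1 * γ`, so `grd 0 = grd 1 = 0`;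
`euler`: `1 * grd 0 + y * grd 1 + z * grd 2 = 6 * 0`, so `z = 0`. So `f (1, y, 0) = 0`; by `aeval_line` (with
`p = (1,0,0)`, `v = (0,1,0)`, `s = 1`, `t = y`; `cm_map` to see that the coefficients are in `k`) and since `y` is transcendental
all `cm f (1,0,0) (0,1,0) m = 0`, `m ≤ 6`, which contradicts `h.hI`.
-/

set_option linter.unusedSectionVars false

namespace Pool.Agent.Helper83.DP

open VC VF Function Polynomial
open Pool.Agent.Helper51.VB

universe u

variable {k : Type u} [Field k] [IsAlgClosed k] [CharZero k] {f : MvPolynomial (Fin 3) k}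
  {L : Type u} [Field L] [Algebra k L]

private lemma coords_h12 {y z : L} {e : Place k L} (hy : IsRes e y 0) (hz : IsRes e z 0) :
    ∀ j, IsRes e ((![1, y, z] : Fin 3 → L) j) ((![(1 : k), 0, 0] : Fin 3 → k) j) := by
  intro j
  fin_cases j
  · exact isRes_one
  · exact hy
  · exact hz

private lemma der0_h12 (hf : f.IsHomogeneous 6) (h : Nrm f) :
    MvPolynomial.aeval ![(1 : k), 0, 0] (MvPolynomial.pderiv 0 f) = 0 := by
  have h1 := euler hf (![(1 : k), 0, 0] : Fin 3 → k)
  rw [h.h0, mul_zero, Fin.sum_univ_three] at h1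
  simpa using h1

private lemma der1_h12 (h : Nrm f) :
    MvPolynomial.aeval ![(1 : k), 0, 0] (MvPolynomial.pderiv 1 f) = 0 := by
  have h1 := cm_one f (![(1 : k), 0, 0] : Fin 3 → k) ![0, 1, 0]
  rw [h.h1, Fin.sum_univ_three] at h1
  simpa using h1.symm

theorem res_grd (hf : f.IsHomogeneous 6) (h : Nrm f) {y z : L} {e : Place k L}
    (hy : IsRes e y 0) (hz : IsRes e z 0) :
    IsRes e (grd f ![1, y, z] 0) 0 ∧ IsRes e (grd f ![1, y, z] 1) 0 ∧
      IsRes e (grd f ![1, y, z] 2)
        (MvPolynomial.aeval ![(1 : k), 0, 0] (MvPolynomial.pderiv 2 f)) := by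
  have h1 : ∀ i : Fin 3, IsRes e (grd f ![1, y, z] i)
      (MvPolynomial.aeval ![(1 : k), 0, 0] (MvPolynomial.pderiv i f)) := by
    intro i
    exact isRes_aeval (coords_h12 hy hz) (MvPolynomial.pderiv i f)
  refine ⟨?_, ?_, h1 2⟩
  · have h2 := h1 0
    rwa [der0_h12 hf h] at h2
  · have h2 := h1 1
    rwa [der1_h12 h] at h2

theorem grd_nonconst (hf : f.IsHomogeneous 6) (h : Nrm f) {y z : L} (hy : Transcendental k y)
    (hz : MvPolynomial.aeval ![1, y, z] f = 0) {e : Place k L} (hye : IsRes e y 0)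
    (hze : IsRes e z 0) :
    ∃ i, ∀ c : k, grd f ![1, y, z] i ≠ algebraMap k L c * grd f ![1, y, z] 2 := by
  by_contra hcon
  push Not at hcon
  obtain ⟨r0, r1, r2⟩ := res_grd hf h hye hze
  have h3 : ∀ i, IsRes e (grd f ![1, y, z] i) 0 → grd f ![1, y, z] i = 0 := by
    intro i hi
    obtain ⟨c, hc⟩ := hcon i
    have h4 : IsRes e (grd f ![1, y, z] i)
        (c * MvPolynomial.aeval ![(1 : k), 0, 0] (MvPolynomial.pderiv 2 f)) := by
      rw [hc]
      exact (isRes_const c).mul r2
    have h5 := hi.unique h4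
    have h6 : c = 0 := by
      rcases mul_eq_zero.mp h5.symm with h7 | h7
      · exact h7
      · exact absurd h7 h.hs
    rw [hc, h6, map_zero, zero_mul]
  have g0 := h3 0 r0
  have g1 := h3 1 r1
  have g2 : grd f ![1, y, z] 2 ≠ 0 := r2.ne_zero h.hs
  have hz0 : z = 0 := by
    have h4 := euler hf (![1, y, z] : Fin 3 → L)
    rw [hz, mul_zero, Fin.sum_univ_three] at h4
    unfold grd at g0 g1 g2
    rw [g0, g1, mul_zero, mul_zero, zero_add, zero_add] at h4
    rcases mul_eq_zero.mp h4 with h5 | h5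
    · exact h5
    · exact absurd h5 g2
  subst hz0
  have h5 := aeval_line hf (fun i => algebraMap k L ((![(1 : k), 0, 0] : Fin 3 → k) i))
    (fun i => algebraMap k L ((![(0 : k), 1, 0] : Fin 3 → k) i)) 1 y
  have h6 : (fun i => (1 : L) * algebraMap k L ((![(1 : k), 0, 0] : Fin 3 → k) i) +
      y * algebraMap k L ((![(0 : k), 1, 0] : Fin 3 → k) i)) = ![1, y, 0] := by
    funext i
    fin_cases i <;> simp
  have h7 : ∀ m, cm f (fun i => algebraMap k L ((![(1 : k), 0, 0] : Fin 3 → k) i))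
      (fun i => algebraMap k L ((![(0 : k), 1, 0] : Fin 3 → k) i)) m =
      algebraMap k L (cm f ![(1 : k), 0, 0] ![0, 1, 0] m) := by
    intro m
    exact cm_map (Algebra.ofId k L) f ![(1 : k), 0, 0] ![0, 1, 0] m
  rw [h6, hz] at h5
  simp only [h7] at h5
  have h8 : (∑ m ∈ Finset.range 7, C (cm f ![(1 : k), 0, 0] ![0, 1, 0] m) * X ^ m : k[X]) = 0 := by
    by_contra hne
    apply hy
    refine ⟨_, hne, ?_⟩
    rw [map_sum]
    simp only [map_mul, aeval_C, map_pow, aeval_X, Finset.sum_range_succ, Finset.sum_range_zero]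
    linear_combination (-1 : L) * h5
  have h9 : ∀ m, m < 7 → cm f ![(1 : k), 0, 0] ![0, 1, 0] m = 0 := by
    intro m hm
    have h10 := congrArg (fun Q : k[X] => Q.coeff m) h8
    simp only [finset_sum_coeff, coeff_C_mul_X_pow, coeff_zero] at h10
    rw [Finset.sum_eq_single m] at h10
    · simpa using h10
    · intro j _ hj
      rw [if_neg (Ne.symm hj)]
    · intro hn
      exact absurd (Finset.mem_range.mpr hm) hn
  apply h.hI
  have e0 : (fun j : Fin 5 => cm f ![(1 : k), 0, 0] ![0, 1, 0] (j.val + 2)) = fun _ => 0 := by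
    funext j
    exact h9 _ (by omega)
  rw [e0]
  unfold QF.bI
  ring

end Pool.Agent.Helper83.DP
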