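import Mathlib
import Pool.Agent.Helper9.NS
import Pool.Agent.Helper83.DP.Nc
import Pool.Agent.Helper83.DP.Ext

/-!
# Block DP-MK: the geometric data
Let `p₀ = ![1, y, z]`, `G i = grd f p₀ i`, `G 2 ≠ 0` (its residue at `e` is not zero), `v₀ = ![0, 1, - G 1 / G 2]`,
`q j = cm f p₀ v₀ (j + 2)`. `vec_facts`: `cm f p₀ v₀ 0 = 0` (`cm_zero`), `cm f p₀ v₀ 1 = G 1 - (G 1 / G 2) G 2 = 0` (`cm_one`); the
residues at `e` of `v₀` are `(0, 1, 0)`, so (`isRes_cm`) that of `q j` is `cm f (1,0,0) (0,1,0) (j + 2)`.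
`exists_geo`: `Q = C (q 0) X ^ 4 + C (q 1) X ^ 3 + C (q 2) X ^ 2 + C (q 3) X + C (q 4)`; if `natDegree Q = 0` then
`q 0 = … = q 3 = 0` and `dsc q = 0`. Take `L'`, `ι`, `ρ`, `e1` from `exists_root_ext`. `p = ι ∘ p₀`, `v = ι ∘ v₀`,
`r i = ρ * p i + v i`. `cm f p v m = ι (cm f p₀ v₀ m)` (`cm_map`). `Sp`: `h0` is `Q (ρ) = 0` with `cm_shift`; `h5`, `h6`: `cm_shift`;
`ind`: `p 0 * r 1 - p 1 * r 0 = (ρ y + 1) - y ρ = 1`; `g1`: if `cm f r p 1 = 0` then `be6 ^ 2 - al4 ^ 3 = 0` (definitions), which contradicts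
`hD`. `hD`: by `al4_inv`, `be6_inv` `be6 ^ 2 - al4 ^ 3 = (J ^ 2 - 4 I ^ 3) / 2916 = - ι (dsc q) / 2916 ≠ 0`. `hj`: if
`be6 ^ 2 = c * (be6 ^ 2 - al4 ^ 3)` then `J ^ 2 = - c * dsc`, take residues at `e1`: the residue of `dsc` is `dsc c₀ = 0` (`h.hd`), so
`bJ c₀ ^ 2 = 0`, and then `4 * bI c₀ ^ 3 = 0`, a contradiction to `h.hI`. `g0, g1, g2`: `grd f p i = ι (G i)` and `res_grd`.
`hG`: `grd_nonconst` and injectivity of `ι`.
-/

set_option linter.unusedSectionVars false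

namespace Pool.Agent.Helper83.DP

open VC VF Function Polynomial
open Pool.Agent.Helper51.VB

universe u

variable {k : Type u} [Field k] [IsAlgClosed k] [CharZero k] {f : MvPolynomial (Fin 3) k}
  {L : Type u} [Field L] [Algebra k L]

private lemma h80_div {e : Place k L} {a b : L} {c : k} (ha : IsRes e a 0) (hb : IsRes e b c)
    (hc : c ≠ 0) : IsRes e (a / b) 0 := by
  rw [isRes_zero_iff] at ha ⊢
  rw [div_eq_mul_inv, mul_comm]
  exact nonunits_mul (hb.inv_mem hc).2 ha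

private lemma h80_num {K : Type u} [Field K] [Algebra k K] {e : Place k K} (n : ℕ) :
    IsRes e ((n : ℕ) : K) ((n : ℕ) : k) := by
  have h := isRes_const (v := e) ((n : ℕ) : k)
  rwa [map_natCast] at h

private lemma h80_inv_res {K : Type u} [Field K] [Algebra k K] {e : Place k K} {q : Fin 5 → K}
    {c : Fin 5 → k} (h : ∀ j, IsRes e (q j) (c j)) :
    IsRes e (QF.bI q) (QF.bI c) ∧ IsRes e (QF.bJ q) (QF.bJ c) := by
  have n12 : IsRes e (12 : K) (12 : k) := by exact_mod_cast h80_num (e := e) 12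
  have n3 : IsRes e (3 : K) (3 : k) := by exact_mod_cast h80_num (e := e) 3
  have n72 : IsRes e (72 : K) (72 : k) := by exact_mod_cast h80_num (e := e) 72
  have n9 : IsRes e (9 : K) (9 : k) := by exact_mod_cast h80_num (e := e) 9
  have n27 : IsRes e (27 : K) (27 : k) := by exact_mod_cast h80_num (e := e) 27
  have n2 : IsRes e (2 : K) (2 : k) := by exact_mod_cast h80_num (e := e) 2
  constructor
  · exact (((n12.mul (h 0)).mul (h 4)).sub ((n3.mul (h 1)).mul (h 3))).add ((h 2).pow 2)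
  · exact ((((((n72.mul (h 0)).mul (h 2)).mul (h 4)).add (((n9.mul (h 1)).mul (h 2)).mul (h 3))).sub
      ((n27.mul (h 0)).mul ((h 3).pow 2))).sub ((n27.mul (h 4)).mul ((h 1).pow 2))).sub
        (n2.mul ((h 2).pow 3))

private lemma h80_inv_map {R S : Type*} [CommRing R] [CommRing S] (φ : R →+* S) (q : Fin 5 → R) :
    QF.bI (fun j => φ (q j)) = φ (QF.bI q) ∧ QF.bJ (fun j => φ (q j)) = φ (QF.bJ q) := by
  constructor
  · simp only [QF.bI, map_add, map_sub, map_mul, map_pow, map_ofNat]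
  · simp only [QF.bJ, map_add, map_sub, map_mul, map_pow, map_ofNat]

theorem vec_facts (hf : f.IsHomogeneous 6) (h : Nrm f) {y z : L}
    (hz : MvPolynomial.aeval ![1, y, z] f = 0) {e : Place k L} (hye : IsRes e y 0)
    (hze : IsRes e z 0) :
    cm f ![1, y, z] ![0, 1, -(grd f ![1, y, z] 1 / grd f ![1, y, z] 2)] 0 = 0 ∧
    cm f ![1, y, z] ![0, 1, -(grd f ![1, y, z] 1 / grd f ![1, y, z] 2)] 1 = 0 ∧
    ∀ m, IsRes e (cm f ![1, y, z] ![0, 1, -(grd f ![1, y, z] 1 / grd f ![1, y, z] 2)] m)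
      (cm f ![(1 : k), 0, 0] ![0, 1, 0] m) := by
  have hr := res_grd hf h hye hze
  have hG2 : grd f ![1, y, z] 2 ≠ 0 := hr.2.2.ne_zero h.hs
  refine ⟨?_, ?_, ?_⟩
  · rw [cm_zero]
    exact hz
  · rw [cm_one, Fin.sum_univ_three]
    change (0 : L) * grd f ![1, y, z] 0 + 1 * grd f ![1, y, z] 1 +
      -(grd f ![1, y, z] 1 / grd f ![1, y, z] 2) * grd f ![1, y, z] 2 = 0
    field_simp
    ring
  · intro m
    refine isRes_cm f ?_ ?_ m
    · intro i
      fin_cases i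
      · exact isRes_one
      · exact hye
      · exact hze
    · intro i
      fin_cases i
      · exact isRes_zero
      · exact isRes_one
      · have h1 := (h80_div hr.2.1 hr.2.2 h.hs).neg
        rw [neg_zero] at h1
        exact h1

theorem exists_geo (hf : f.IsHomogeneous 6) (h : Nrm f) (hL : IsFunctionField k L) {y z : L}
    (hy : Transcendental k y) (hz : MvPolynomial.aeval ![1, y, z] f = 0) {e : Place k L}
    (hye : IsRes e y 0) (hze : IsRes e z 0)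
    (hd : QF.dsc (fun j : Fin 5 => cm f ![1, y, z]
      ![0, 1, -(grd f ![1, y, z] 1 / grd f ![1, y, z] 2)] (j.val + 2)) ≠ 0) :
    ∃ (L' : Type u) (_ : Field L') (_ : Algebra k L'), Nonempty (Geo f L') := by
  obtain ⟨v0, v1, vres⟩ := vec_facts hf h hz hye hze
  set p₀ : Fin 3 → L := ![1, y, z] with hp₀
  set v₀ : Fin 3 → L := ![0, 1, -(grd f p₀ 1 / grd f p₀ 2)] with hv₀
  have hr := res_grd hf h hye hze
  rw [← hp₀] at hr
  -- the quartic
  set Q : L[X] := C (cm f p₀ v₀ 2) * X ^ 4 + C (cm f p₀ v₀ 3) * X ^ 3 + C (cm f p₀ v₀ 4) * X ^ 2 +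
    C (cm f p₀ v₀ 5) * X + C (cm f p₀ v₀ 6) with hQdef
  have hc : Q.coeff 4 = cm f p₀ v₀ 2 ∧ Q.coeff 3 = cm f p₀ v₀ 3 ∧ Q.coeff 2 = cm f p₀ v₀ 4 ∧
      Q.coeff 1 = cm f p₀ v₀ 5 := by
    rw [hQdef]
    refine ⟨?_, ?_, ?_, ?_⟩ <;> simp [coeff_C]
  have hQ : 0 < Q.natDegree := by
    by_contra h0
    have h1 : Q.natDegree = 0 := by omega
    have h2 : ∀ n, 0 < n → Q.coeff n = 0 := fun n hn =>
      Polynomial.coeff_eq_zero_of_natDegree_lt (by omega)
    have a2 : cm f p₀ v₀ 2 = 0 := by rw [← hc.1]; exact h2 4 (by norm_num)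
    have a3 : cm f p₀ v₀ 3 = 0 := by rw [← hc.2.1]; exact h2 3 (by norm_num)
    have a4 : cm f p₀ v₀ 4 = 0 := by rw [← hc.2.2.1]; exact h2 2 (by norm_num)
    have a5 : cm f p₀ v₀ 5 = 0 := by rw [← hc.2.2.2]; exact h2 1 (by norm_num)
    apply hd
    change 4 * (12 * cm f p₀ v₀ 2 * cm f p₀ v₀ 6 - 3 * cm f p₀ v₀ 3 * cm f p₀ v₀ 5 +
      cm f p₀ v₀ 4 ^ 2) ^ 3 - (72 * cm f p₀ v₀ 2 * cm f p₀ v₀ 4 * cm f p₀ v₀ 6 +
      9 * cm f p₀ v₀ 3 * cm f p₀ v₀ 4 * cm f p₀ v₀ 5 - 27 * cm f p₀ v₀ 2 * cm f p₀ v₀ 5 ^ 2 -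
      27 * cm f p₀ v₀ 6 * cm f p₀ v₀ 3 ^ 2 - 2 * cm f p₀ v₀ 4 ^ 3) ^ 2 = 0
    rw [a2, a3, a4, a5]
    ring
  obtain ⟨L', iF, iA, ι, ρ, e1, hL', hroot, hres⟩ := exists_root_ext hL e Q hQ
  have : CharZero L' := charZero_of_injective_algebraMap (algebraMap k L').injective
  have hinj : Function.Injective ι := ι.toRingHom.injective
  set p : Fin 3 → L' := fun i => ι (p₀ i) with hp
  set v : Fin 3 → L' := fun i => ι (v₀ i) with hv
  have hcm : ∀ m, cm f p v m = ι (cm f p₀ v₀ m) := fun m => cm_map ι f p₀ v₀ m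
  have h0 : cm f p v 0 = 0 := by rw [hcm, v0, map_zero]
  have h1 : cm f p v 1 = 0 := by rw [hcm, v1, map_zero]
  set r : Fin 3 → L' := fun i => ρ * p i + v i with hrdef
  obtain ⟨s0, s1, s2, s3, s4, s5, s6⟩ := cm_shift hf h0 h1 ρ
  rw [← hrdef] at s0 s1 s2 s3 s4 s5 s6
  have hρ : cm f r p 0 = 0 := by
    rw [s0, hcm, hcm, hcm, hcm, hcm, ← hroot, hQdef]
    simp only [eval₂_add, eval₂_mul, eval₂_C, eval₂_pow, eval₂_X]
    rfl
  have hal := al4_inv hf h0 h1 hρ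
  have hbe := be6_inv hf h0 h1 hρ
  rw [← hrdef] at hal hbe
  have hfun : (fun j : Fin 5 => cm f p v (j.val + 2)) =
      fun j : Fin 5 => (ι : L →+* L') (cm f p₀ v₀ (j.val + 2)) := by
    funext j
    exact hcm _
  rw [hfun, (h80_inv_map (ι : L →+* L') (fun j : Fin 5 => cm f p₀ v₀ (j.val + 2))).1] at hal
  rw [hfun, (h80_inv_map (ι : L →+* L') (fun j : Fin 5 => cm f p₀ v₀ (j.val + 2))).2] at hbe
  set q : Fin 5 → L := fun j : Fin 5 => cm f p₀ v₀ (j.val + 2) with hq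
  have key : be6 f p r ^ 2 - al4 f p r ^ 3 = -(ι (QF.dsc q)) / 2916 := by
    rw [hal, hbe]
    unfold QF.dsc
    rw [map_sub, map_mul, map_pow, map_pow, map_ofNat]
    change (ι (QF.bJ q) / 54) ^ 2 - (ι (QF.bI q) / 9) ^ 3 = _
    ring
  have hD : be6 f p r ^ 2 - al4 f p r ^ 3 ≠ 0 := by
    rw [key]
    have h2 : ι (QF.dsc q) ≠ 0 := by
      rw [Ne, map_eq_zero_iff ι hinj]
      exact hd
    exact div_ne_zero (neg_ne_zero.2 h2) (by norm_num)
  have hbJ : ∀ j, IsRes e (q j) ((fun j : Fin 5 => cm f ![(1 : k), 0, 0] ![0, 1, 0] (j.val + 2)) j) :=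
    fun j => vres _
  obtain ⟨rI, rJ⟩ := h80_inv_res hbJ
  set c₀ : Fin 5 → k := fun j : Fin 5 => cm f ![(1 : k), 0, 0] ![0, 1, 0] (j.val + 2) with hc₀
  have rD : IsRes e (QF.dsc q) 0 := by
    have h2 : IsRes e (QF.dsc q) (QF.dsc c₀) := by
      have n4 : IsRes e (4 : L) (4 : k) := by exact_mod_cast h80_num (e := e) 4
      exact (n4.mul (rI.pow 3)).sub (rJ.pow 2)
    rw [hc₀, h.hd] at h2
    exact h2
  have hgrd : ∀ i, grd f p i = ι (grd f p₀ i) := by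
    intro i
    unfold grd
    exact (MvPolynomial.comp_aeval_apply p₀ ι _).symm
  refine ⟨L', iF, iA, ⟨{
    hL := hL'
    p := p
    r := r
    sp := ⟨hρ, s5, s6, ⟨0, 1, ?_⟩, ?_⟩
    e1 := e1
    γ := MvPolynomial.aeval ![(1 : k), 0, 0] (MvPolynomial.pderiv 2 f)
    hγ := h.hs
    g0 := ?_
    g1 := ?_
    g2 := ?_
    hD := hD
    hj := ?_
    hG := ?_ }⟩⟩
  · -- independence
    intro h2
    have e0 : p 0 = 1 := by
      change ι 1 = 1
      exact map_one ι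
    have e2 : p 1 = ι y := rfl
    have e3 : v 0 = 0 := by
      change ι 0 = 0
      exact map_zero ι
    have e4 : v 1 = 1 := by
      change ι 1 = 1
      exact map_one ι
    have e5 : r 0 = ρ * p 0 + v 0 := rfl
    have e6 : r 1 = ρ * p 1 + v 1 := rfl
    rw [e5, e6, e0, e2, e3, e4] at h2
    exact one_ne_zero (show (1 : L') = 0 by linear_combination h2)
  · intro h2
    apply hD
    unfold be6 al4
    rw [h2]
    ring
  · rw [hgrd]
    exact hres _ _ hr.1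
  · rw [hgrd]
    exact hres _ _ hr.2.1
  · rw [hgrd]
    exact hres _ _ hr.2.2
  · -- the invariant is not constant
    intro c hcc
    rw [key, hbe] at hcc
    change (ι (QF.bJ q) / 54) ^ 2 = algebraMap k L' c * (-(ι (QF.dsc q)) / 2916) at hcc
    have h2 : ι (QF.bJ q) ^ 2 = algebraMap k L' c * -(ι (QF.dsc q)) := by
      have h3 : (ι (QF.bJ q) / 54) ^ 2 * 2916 = ι (QF.bJ q) ^ 2 := by ring
      rw [← h3, hcc]
      ring
    have r1 : IsRes e1 (ι (QF.bJ q) ^ 2) (QF.bJ c₀ ^ 2) := (hres _ _ rJ).pow 2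
    have r2 : IsRes e1 (algebraMap k L' c * -(ι (QF.dsc q))) (c * -0) :=
      (isRes_const c).mul (hres _ _ rD).neg
    rw [← h2] at r2
    have h3 := r1.unique r2
    rw [neg_zero, mul_zero] at h3
    have h4 : QF.bJ c₀ = 0 := pow_eq_zero_iff (two_ne_zero) |>.1 h3
    have h5 := h.hd
    rw [← hc₀] at h5
    unfold QF.dsc at h5
    rw [h4] at h5
    have h6 : QF.bI c₀ ^ 3 = 0 := by
      have h7 : (4 : k) * QF.bI c₀ ^ 3 = 0 := by linear_combination h5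
      exact (mul_eq_zero.1 h7).resolve_left (by norm_num)
    exact h.hI (pow_eq_zero_iff (three_ne_zero) |>.1 h6)
  · obtain ⟨i, hi⟩ := grd_nonconst hf h hy hz hye hze
    refine ⟨i, fun c hcc => hi c (hinj ?_)⟩
    rw [hgrd, hgrd] at hcc
    rw [map_mul, AlgHom.commutes]
    exact hcc

end Pool.Agent.Helper83.DP
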