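import Mathlib
import Pool.Agent.Helper9.NS
import Pool.Agent.Helper83.DP.Br
import Pool.Agent.Helper83.DP.Lch

/-!
# Block DP-NF: the normal form
Let `c` be a vector such that `e = ![a, b, c]` is a basis. `cm (chg e f) (1,0,0) (0,1,0) m = cm f a b m` (`aeval_chg` over `k[X]`).
From the hypothesis on the restriction to the line and `aeval_line` (compare coefficients of polynomials in `t`,
`s = 1`; `k` is infinite) one gets `cm f a b 0 = cm f a b 1 = 0`, `cm f a b 2 = l0 ^ 2 m0`, `cm f a b 3 = l0 ^ 2 m1 + 2 l0 l1 m0`,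
`cm f a b 4 = l0 ^ 2 m2 + 2 l0 l1 m1 + l1 ^ 2 m0`, `cm f a b 5 = 2 l0 l1 m2 + l1 ^ 2 m1`, `cm f a b 6 = l1 ^ 2 m2`; then
`dsc = 0` and `bI = (m0 l1 ^ 2 - m1 l0 l1 + m2 l0 ^ 2) ^ 2` by `ring`. `hs`: by the chain rule
`aeval (1,0,0) (pderiv 2 (chg e f)) = ∑ j, c j * aeval a (pderiv j f)` (or: it is `cm (chg e f) (1,0,0) (0,0,1) 1 = cm f a c 1`, `cm_one`);
the linear form `x ↦ ∑ j, x j * aeval a (pderiv j f)` is zero on `a` (`euler`) and on `b` (`cm f a b 1 = 0`); if it were zero on `c`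
it would be zero on the basis, so all `aeval a (pderiv j f) = 0`.
-/

set_option linter.unusedSectionVars false

namespace Pool.Agent.Helper83.DP

open VC VF Function Polynomial

universe u

variable {k : Type u} [Field k] [IsAlgClosed k] [CharZero k] {f : MvPolynomial (Fin 3) k}

/-- The line through `a` and `b` is tangent to the curve `f = 0` at its smooth point `a`, and the four
other points of intersection contain a double point but no triple point. -/
def Tgt {k : Type u} [Field k] (f : MvPolynomial (Fin 3) k) (a b : Fin 3 → k) : Prop :=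
  (∃ i, MvPolynomial.aeval a (MvPolynomial.pderiv i f) ≠ 0) ∧
  ∃ l0 l1 m0 m1 m2 : k, m0 * l1 ^ 2 - m1 * l0 * l1 + m2 * l0 ^ 2 ≠ 0 ∧
    ∀ s t : k, MvPolynomial.aeval (fun i => s * a i + t * b i) f =
      t ^ 2 * (l0 * s + l1 * t) ^ 2 * (m0 * s ^ 2 + m1 * s * t + m2 * t ^ 2)

private lemma cm_chg32 (e : Fin 3 → Fin 3 → k) (f : MvPolynomial (Fin 3) k) (p v p' v' : Fin 3 → k)
    (hp : ∀ j, ∑ i, e i j * p i = p' j) (hv : ∀ j, ∑ i, e i j * v i = v' j) (m : ℕ) :
    cm (chg e f) p v m = cm f p' v' m := by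
  unfold cm
  rw [aeval_chg]
  congr 3
  funext j
  rw [← hp j, ← hv j, map_sum, map_sum, Finset.mul_sum, ← Finset.sum_add_distrib]
  apply Finset.sum_congr rfl
  intro i _
  rw [← Polynomial.C_eq_algebraMap, Polynomial.C_mul, Polynomial.C_mul]
  ring

private lemma exists_third32 {a b : Fin 3 → k} (hab : LinearIndependent k ![a, b]) :
    ∃ c : Fin 3 → k, LinearIndependent k ![a, b, c] := by
  have h1 : Submodule.span k (Set.range ![a, b]) ≠ ⊤ := by
    intro h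
    have h2 := finrank_span_eq_card hab
    rw [h, finrank_top] at h2
    simp at h2
  obtain ⟨c, hc⟩ : ∃ c, c ∉ Submodule.span k (Set.range ![a, b]) := by
    by_contra h
    push Not at h
    exact h1 ((Submodule.eq_top_iff').mpr h)
  refine ⟨c, ?_⟩
  have h3 : LinearIndependent k (Fin.cons c ![a, b] : Fin 3 → Fin 3 → k) :=
    linearIndependent_finCons.mpr ⟨hab, hc⟩
  have h4 := h3.comp (![1, 2, 0] : Fin 3 → Fin 3) (by decide)
  convert h4 using 1
  funext i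
  fin_cases i <;> rfl

private lemma coeffs32 {g0 g1 g2 g3 g4 g5 g6 : k}
    (h : ∀ t : k, g0 + g1 * t + g2 * t ^ 2 + g3 * t ^ 3 + g4 * t ^ 4 + g5 * t ^ 5 + g6 * t ^ 6 = 0) :
    g0 = 0 ∧ g1 = 0 ∧ g2 = 0 ∧ g3 = 0 ∧ g4 = 0 ∧ g5 = 0 ∧ g6 = 0 := by
  have hD : (C g0 + C g1 * X + C g2 * X ^ 2 + C g3 * X ^ 3 + C g4 * X ^ 4 + C g5 * X ^ 5 +
      C g6 * X ^ 6 : k[X]) = 0 := by
    apply Polynomial.funext
    intro t
    have := h t
    simpa using this
  have hc : ∀ m, (C g0 + C g1 * X + C g2 * X ^ 2 + C g3 * X ^ 3 + C g4 * X ^ 4 + C g5 * X ^ 5 +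
      C g6 * X ^ 6 : k[X]).coeff m = 0 := by
    intro m
    rw [hD, coeff_zero]
  refine ⟨?_, ?_, ?_, ?_, ?_, ?_, ?_⟩
  · simpa [coeff_X, coeff_C, coeff_X_pow] using hc 0
  · simpa [coeff_X, coeff_C, coeff_X_pow] using hc 1
  · simpa [coeff_X, coeff_C, coeff_X_pow] using hc 2
  · simpa [coeff_X, coeff_C, coeff_X_pow] using hc 3
  · simpa [coeff_X, coeff_C, coeff_X_pow] using hc 4
  · simpa [coeff_X, coeff_C, coeff_X_pow] using hc 5
  · simpa [coeff_X, coeff_C, coeff_X_pow] using hc 6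

theorem exists_nrm (hf : f.IsHomogeneous 6) {a b : Fin 3 → k} (hab : LinearIndependent k ![a, b])
    (h : Tgt f a b) : ∃ e : Fin 3 → Fin 3 → k, LinearIndependent k e ∧ Nrm (chg e f) := by
  obtain ⟨⟨i0, hi0⟩, l0, l1, m0, m1, m2, hne, hl⟩ := h
  obtain ⟨c, he⟩ := exists_third32 hab
  have hA : ∀ j, ∑ i, (![a, b, c] : Fin 3 → Fin 3 → k) i j * (![(1 : k), 0, 0]) i = a j := by
    intro j
    simp [Fin.sum_univ_three]
  have hB : ∀ j, ∑ i, (![a, b, c] : Fin 3 → Fin 3 → k) i j * (![(0 : k), 1, 0]) i = b j := by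
    intro j
    simp [Fin.sum_univ_three]
  have hC : ∀ j, ∑ i, (![a, b, c] : Fin 3 → Fin 3 → k) i j * (![(0 : k), 0, 1]) i = c j := by
    intro j
    simp [Fin.sum_univ_three]
  have hcm := cm_chg32 ![a, b, c] f _ _ _ _ hA hB
  have hcm' := cm_chg32 ![a, b, c] f _ _ _ _ hA hC
  obtain ⟨g0, g1, g2, g3, g4, g5, g6⟩ : cm f a b 0 = 0 ∧ cm f a b 1 = 0 ∧
      cm f a b 2 - l0 ^ 2 * m0 = 0 ∧ cm f a b 3 - (l0 ^ 2 * m1 + 2 * l0 * l1 * m0) = 0 ∧
      cm f a b 4 - (l0 ^ 2 * m2 + 2 * l0 * l1 * m1 + l1 ^ 2 * m0) = 0 ∧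
      cm f a b 5 - (2 * l0 * l1 * m2 + l1 ^ 2 * m1) = 0 ∧ cm f a b 6 - l1 ^ 2 * m2 = 0 := by
    apply coeffs32
    intro t
    have h1 := hl 1 t
    rw [aeval_line hf] at h1
    linear_combination h1
  have hf0 : MvPolynomial.aeval a f = 0 := by rw [← cm_zero f a b]; exact g0
  refine ⟨![a, b, c], he, ?_, ?_, ?_, ?_, ?_⟩
  · rw [← cm_zero _ _ ![(0 : k), 1, 0], hcm, g0]
  · rw [hcm, g1]
  · simp only [hcm, QF.dsc, QF.bI, QF.bJ]
    change 4 * (12 * cm f a b 2 * cm f a b 6 - 3 * cm f a b 3 * cm f a b 5 + cm f a b 4 ^ 2) ^ 3 -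
      (72 * cm f a b 2 * cm f a b 4 * cm f a b 6 + 9 * cm f a b 3 * cm f a b 4 * cm f a b 5 -
        27 * cm f a b 2 * cm f a b 5 ^ 2 - 27 * cm f a b 6 * cm f a b 3 ^ 2 -
        2 * cm f a b 4 ^ 3) ^ 2 = 0
    rw [sub_eq_zero.mp g2, sub_eq_zero.mp g3, sub_eq_zero.mp g4, sub_eq_zero.mp g5,
      sub_eq_zero.mp g6]
    ring
  · simp only [hcm, QF.bI]
    change 12 * cm f a b 2 * cm f a b 6 - 3 * cm f a b 3 * cm f a b 5 + cm f a b 4 ^ 2 ≠ 0
    rw [sub_eq_zero.mp g2, sub_eq_zero.mp g3, sub_eq_zero.mp g4, sub_eq_zero.mp g5,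
      sub_eq_zero.mp g6]
    have e1 : 12 * (l0 ^ 2 * m0) * (l1 ^ 2 * m2) - 3 * (l0 ^ 2 * m1 + 2 * l0 * l1 * m0) *
        (2 * l0 * l1 * m2 + l1 ^ 2 * m1) + (l0 ^ 2 * m2 + 2 * l0 * l1 * m1 + l1 ^ 2 * m0) ^ 2 =
        (m0 * l1 ^ 2 - m1 * l0 * l1 + m2 * l0 ^ 2) ^ 2 := by ring
    rw [e1]
    exact pow_ne_zero 2 hne
  · intro h0
    have h1 : cm f a c 1 = 0 := by
      rw [← hcm' 1, cm_one, Fin.sum_univ_three]
      simp [h0]
    rw [cm_one] at h1 g1
    have h2 := euler hf a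
    rw [hf0, mul_zero] at h2
    -- the linear form
    let φ : (Fin 3 → k) →ₗ[k] k :=
      { toFun := fun x => ∑ i, x i * MvPolynomial.aeval a (MvPolynomial.pderiv i f)
        map_add' := fun x y => by
          rw [← Finset.sum_add_distrib]
          exact Finset.sum_congr rfl fun i _ => by rw [Pi.add_apply, add_mul]
        map_smul' := fun r x => by
          rw [RingHom.id_apply, smul_eq_mul, Finset.mul_sum]
          exact Finset.sum_congr rfl fun i _ => by rw [Pi.smul_apply, smul_eq_mul, mul_assoc] }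
    have h3 : φ = 0 := by
      apply (basisOfLinearIndependentOfCardEqFinrank he (by simp)).ext
      intro i
      rw [coe_basisOfLinearIndependentOfCardEqFinrank]
      fin_cases i
      · exact h2
      · exact g1
      · exact h1
    apply hi0
    have h4 : φ (Pi.single i0 1) = 0 := by rw [h3]; rfl
    have h5 : φ (Pi.single i0 1) =
        MvPolynomial.aeval a (MvPolynomial.pderiv i0 f) := by
      change ∑ i, (Pi.single i0 1 : Fin 3 → k) i * MvPolynomial.aeval a (MvPolynomial.pderiv i f) = _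
      rw [Finset.sum_eq_single i0]
      · rw [Pi.single_eq_same, one_mul]
      · intro i _ hi
        rw [Pi.single_eq_of_ne hi, zero_mul]
      · intro h
        exact absurd (Finset.mem_univ _) h
    rw [← h5, h4]


end Pool.Agent.Helper83.DP
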