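import Mathlib
import Pool.Agent.Helper9.NS
import Pool.Agent.Helper83.DP.Fam

/-!
# Block DP-RAT: the case of rational curves over the tangent lines
`const_of_rat`. Let `B` be the set of places at which one of `p i`, `v i` is not regular, or all
`rs P (p i) * rs P (v j) - rs P (p j) * rs P (v i)` vanish, or all `rs P (grd f p i)` vanish: finite (as in `exists_good`). Take
`K, c, v₀` from `dom_line` for the point `x`. At a place `w` which is not exceptional the value of `c` is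
`dpt f y m` with `OnT (grd f p) P y`, `P ∉ B`, so `y = s * rs P (p i) + t * rs P (v i)` (the proof of `onT_span`: `rs ∘ p` and `rs ∘ v`
are independent and orthogonal to `rs ∘ grd`: `euler`, `cm_one`). `line_const` (its hypotheses hold for the residues by
`isRes_cm`; the residue of `dsc = 0` is `0`) and `ram_const` give `ψ (dpt f y m) = ψ (dpt f (rs ∘ p) 0) = ψ (dpt f ![1,0,0] 0) =: A`. The
function `w ↦ ψ (eval c w) - A` is harmonic (`Kills.gen`; for the constant `degree_zero`) and vanishes at almost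
all places, so it vanishes at `v₀` (`GK.harm_zero`).
`vn_of_const`: `GK.assembly_norm` with `o = dpt f ![1,0,0] 0`: for `i = ⟨0, _⟩` the function `x ↦ Ψ (update p i x)` satisfies
`Kills` (`induced_update`), so `Ψ p = Ψ (update p i o) = 0`.
-/

set_option linter.unusedSectionVars false

namespace Pool.Agent.Helper83.DP

open VC VF Function Polynomial
open Pool.Agent.Helper51.VN (OnE)
open Pool.Agent.Helper51.VB

universe u

variable {k : Type u} [Field k] [IsAlgClosed k] [CharZero k] {f : MvPolynomial (Fin 3) k}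
  (hf : f.IsHomogeneous 6)

omit [IsAlgClosed k] [CharZero k] in
private lemma core46 {a0 a1 a2 b0 b1 b2 g0 g1 g2 y0 y1 y2 : k} (hd : a0 * b1 ≠ a1 * b0)
    (hg : ¬ (g0 = 0 ∧ g1 = 0 ∧ g2 = 0)) (ha : g0 * a0 + g1 * a1 + g2 * a2 = 0)
    (hb : g0 * b0 + g1 * b1 + g2 * b2 = 0) (hy : g0 * y0 + g1 * y1 + g2 * y2 = 0) :
    ∃ s t : k, y0 = s * a0 + t * b0 ∧ y1 = s * a1 + t * b1 ∧ y2 = s * a2 + t * b2 := by
  have hD : a0 * b1 - a1 * b0 ≠ 0 := sub_ne_zero.mpr hd
  have h2 : g2 ≠ 0 := by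
    intro h0
    rw [h0, zero_mul, add_zero] at ha hb
    apply hg
    refine ⟨?_, ?_, h0⟩
    · have e : (a0 * b1 - a1 * b0) * g0 = 0 := by linear_combination b1 * ha - a1 * hb
      exact (mul_eq_zero.mp e).resolve_left hD
    · have e : (a0 * b1 - a1 * b0) * g1 = 0 := by linear_combination a0 * hb - b0 * ha
      exact (mul_eq_zero.mp e).resolve_left hD
  refine ⟨(y0 * b1 - y1 * b0) / (a0 * b1 - a1 * b0), (a0 * y1 - a1 * y0) / (a0 * b1 - a1 * b0),
    ?_, ?_, ?_⟩
  · rw [div_mul_eq_mul_div, div_mul_eq_mul_div, ← add_div, eq_div_iff hD]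
    ring
  · rw [div_mul_eq_mul_div, div_mul_eq_mul_div, ← add_div, eq_div_iff hD]
    ring
  · have e : g2 * ((a0 * b1 - a1 * b0) * y2 - ((y0 * b1 - y1 * b0) * a2 +
        (a0 * y1 - a1 * y0) * b2)) = 0 := by
      linear_combination (a0 * b1 - a1 * b0) * hy - (y0 * b1 - y1 * b0) * ha -
        (a0 * y1 - a1 * y0) * hb
    have e2 := (mul_eq_zero.mp e).resolve_left h2
    rw [div_mul_eq_mul_div, div_mul_eq_mul_div, ← add_div, eq_div_iff hD]
    linear_combination e2

omit [IsAlgClosed k] [CharZero k] in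
private lemma span46 {a b g y : Fin 3 → k} (hi : ∃ i j, a i * b j ≠ a j * b i) (hg : g ≠ 0)
    (ha : ∑ i, g i * a i = 0) (hb : ∑ i, g i * b i = 0) (hy : ∑ i, g i * y i = 0) :
    ∃ s t : k, y = fun i => s * a i + t * b i := by
  rw [Fin.sum_univ_three] at ha hb hy
  have hg' : ¬ (g 0 = 0 ∧ g 1 = 0 ∧ g 2 = 0) := by
    rintro ⟨h0, h1, h2⟩
    apply hg
    funext i
    fin_cases i
    · exact h0
    · exact h1
    · exact h2
  have hor : a 0 * b 1 ≠ a 1 * b 0 ∨ a 0 * b 2 ≠ a 2 * b 0 ∨ a 1 * b 2 ≠ a 2 * b 1 := by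
    by_contra hcon
    push Not at hcon
    obtain ⟨h1, h2, h3⟩ := hcon
    obtain ⟨i, j, hij⟩ := hi
    apply hij
    fin_cases i <;> fin_cases j
    · rfl
    · exact h1
    · exact h2
    · exact h1.symm
    · rfl
    · exact h3
    · exact h2.symm
    · exact h3.symm
    · rfl
  rcases hor with h | h | h
  · obtain ⟨s, t, h0, h1, h2⟩ := core46 h hg' ha hb hy
    refine ⟨s, t, ?_⟩
    funext i
    fin_cases i
    · exact h0
    · exact h1
    · exact h2
  · obtain ⟨s, t, h0, h2, h1⟩ := core46 (a0 := a 0) (a1 := a 2) (a2 := a 1) (b0 := b 0)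
      (b1 := b 2) (b2 := b 1) (g0 := g 0) (g1 := g 2) (g2 := g 1) (y0 := y 0) (y1 := y 2)
      (y2 := y 1) h (fun h => hg' ⟨h.1, h.2.2, h.2.1⟩) (by rw [← ha]; ring) (by rw [← hb]; ring)
      (by rw [← hy]; ring)
    refine ⟨s, t, ?_⟩
    funext i
    fin_cases i
    · exact h0
    · exact h1
    · exact h2
  · obtain ⟨s, t, h1, h2, h0⟩ := core46 (a0 := a 1) (a1 := a 2) (a2 := a 0) (b0 := b 1)
      (b1 := b 2) (b2 := b 0) (g0 := g 1) (g1 := g 2) (g2 := g 0) (y0 := y 1) (y1 := y 2)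
      (y2 := y 0) h (fun h => hg' ⟨h.2.2, h.1, h.2.1⟩) (by rw [← ha]; ring) (by rw [← hb]; ring)
      (by rw [← hy]; ring)
    refine ⟨s, t, ?_⟩
    funext i
    fin_cases i
    · exact h0
    · exact h1
    · exact h2

private lemma fin46 {L : Type u} [Field L] [Algebra k L] (hL : IsFunctionField k L) (x : L) :
    {P : Place k L | x ≠ 0 ∧ ord P.ring x ≠ 0}.Finite := by
  by_cases hx : x = 0
  · refine Set.Finite.subset Set.finite_empty ?_
    rintro P ⟨h, -⟩
    exact h hx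
  · exact (finite_support_ord hL hx).subset fun P hP => hP.2

private lemma mem46 {L : Type u} [Field L] [Algebra k L] (hL : IsFunctionField k L) {x : L}
    {P : Place k L} (h : ¬ (x ≠ 0 ∧ ord P.ring x ≠ 0)) : x ∈ P.ring := by
  by_cases hx : x = 0
  · rw [hx]
    exact P.ring.zero_mem
  · have h1 : ord P.ring x = 0 := by
      by_contra h2
      exact h ⟨hx, h2⟩
    exact (ord_nonneg_iff hL P hx).mp h1.ge

private lemma dsc46 {L : Type u} [Field L] [Algebra k L] {P : Place k L} {c : Fin 5 → L}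
    {d : Fin 5 → k} (h : ∀ i, IsRes P (c i) (d i)) : IsRes P (QF.dsc c) (QF.dsc d) := by
  have hn : ∀ m : ℕ, IsRes P (m : L) (m : k) := by
    intro m
    have h1 := isRes_const (v := P) (m : k)
    rwa [map_natCast] at h1
  have h12 : IsRes P (12 : L) (12 : k) := by exact_mod_cast hn 12
  have h3 : IsRes P (3 : L) (3 : k) := by exact_mod_cast hn 3
  have h72 : IsRes P (72 : L) (72 : k) := by exact_mod_cast hn 72
  have h9 : IsRes P (9 : L) (9 : k) := by exact_mod_cast hn 9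
  have h27 : IsRes P (27 : L) (27 : k) := by exact_mod_cast hn 27
  have h2 : IsRes P (2 : L) (2 : k) := by exact_mod_cast hn 2
  have h4 : IsRes P (4 : L) (4 : k) := by exact_mod_cast hn 4
  have hI : IsRes P (QF.bI c) (QF.bI d) := by
    unfold QF.bI
    exact (((h12.mul (h 0)).mul (h 4)).sub ((h3.mul (h 1)).mul (h 3))).add ((h 2).pow 2)
  have hJ : IsRes P (QF.bJ c) (QF.bJ d) := by
    unfold QF.bJ
    exact ((((((h72.mul (h 0)).mul (h 2)).mul (h 4)).add
      (((h9.mul (h 1)).mul (h 2)).mul (h 3))).sub ((h27.mul (h 0)).mul ((h 3).pow 2))).sub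
      ((h27.mul (h 4)).mul ((h 1).pow 2))).sub (h2.mul ((h 2).pow 3))
  unfold QF.dsc
  exact (h4.mul (hI.pow 3)).sub (hJ.pow 2)

/-- The points over a line `T_P`. -/
private lemma over46 (h : Nrm f) {L : Type u} [Field L] [Algebra k L]
    (hL : IsFunctionField k L) {p v : Fin 3 → L} {i₀ j₀ : Fin 3}
    (h0 : cm f p v 0 = 0) (h1 : cm f p v 1 = 0)
    (hd : QF.dsc (fun j : Fin 5 => cm f p v (j.val + 2)) = 0)
    {ψ : (surface f hf).Pt → k} (hk : Kills (surface f hf) ψ) {P : Place k L}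
    (hp : ∀ i, p i ∈ P.ring) (hv : ∀ i, v i ∈ P.ring)
    (hD0 : p i₀ * v j₀ - p j₀ * v i₀ ≠ 0) (hD : ord P.ring (p i₀ * v j₀ - p j₀ * v i₀) = 0)
    {y : Fin 3 → k} {m : k} (hy : y ≠ 0) (hm : m ^ 2 = MvPolynomial.aeval y f)
    (hT : OnT (grd f p) P y) : ψ (dpt f y m) = ψ (dpt f ![1, 0, 0] 0) := by
  obtain ⟨l, g, hl, hg0, hg, hgy⟩ := hT
  choose a ha using fun i => exists_res hL (hp i)
  choose b hb using fun i => exists_res hL (hv i)
  have hi : ∃ i j, a i * b j ≠ a j * b i := by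
    refine ⟨i₀, j₀, fun hab => ?_⟩
    have h2 : IsRes P (p i₀ * v j₀ - p j₀ * v i₀) (a i₀ * b j₀ - a j₀ * b i₀) :=
      ((ha i₀).mul (hb j₀)).sub ((ha j₀).mul (hb i₀))
    rw [hab, sub_self] at h2
    have h3 := (ord_pos_iff hL P hD0).mpr (isRes_zero_iff.mp h2)
    rw [hD] at h3
    exact lt_irrefl _ h3
  have ha' : ∑ i, g i * a i = 0 := by
    have h2 : IsRes P (∑ i, (l * grd f p i) * p i) (∑ i, g i * a i) :=
      IsRes.sum _ fun i _ => (hg i).mul (ha i)
    have e : ∑ i, (l * grd f p i) * p i = 0 := by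
      have h3 := euler hf p
      rw [← cm_zero f p v, h0, mul_zero] at h3
      have h4 : ∑ i, (l * grd f p i) * p i =
          l * ∑ i, p i * MvPolynomial.aeval p (MvPolynomial.pderiv i f) := by
        rw [Finset.mul_sum]
        exact Finset.sum_congr rfl fun i _ => by unfold grd; ring
      rw [h4, h3, mul_zero]
    rw [e] at h2
    exact (h2.unique isRes_zero)
  have hb' : ∑ i, g i * b i = 0 := by
    have h2 : IsRes P (∑ i, (l * grd f p i) * v i) (∑ i, g i * b i) :=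
      IsRes.sum _ fun i _ => (hg i).mul (hb i)
    have e : ∑ i, (l * grd f p i) * v i = 0 := by
      have h3 := cm_one f p v
      rw [h1] at h3
      have h4 : ∑ i, (l * grd f p i) * v i =
          l * ∑ i, v i * MvPolynomial.aeval p (MvPolynomial.pderiv i f) := by
        rw [Finset.mul_sum]
        exact Finset.sum_congr rfl fun i _ => by unfold grd; ring
      rw [h4, ← h3, mul_zero]
    rw [e] at h2
    exact (h2.unique isRes_zero)
  obtain ⟨s, t, hst⟩ := span46 hi hg0 ha' hb' hgy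
  have hcm : ∀ m, IsRes P (cm f p v m) (cm f a b m) := fun m => isRes_cm f ha hb m
  have h0' : cm f a b 0 = 0 := by
    have h2 := hcm 0
    rw [h0] at h2
    exact h2.unique isRes_zero
  have h1' : cm f a b 1 = 0 := by
    have h2 := hcm 1
    rw [h1] at h2
    exact h2.unique isRes_zero
  have hd' : QF.dsc (fun j : Fin 5 => cm f a b (j.val + 2)) = 0 := by
    have h2 : IsRes P (QF.dsc (fun j : Fin 5 => cm f p v (j.val + 2)))
        (QF.dsc (fun j : Fin 5 => cm f a b (j.val + 2))) := dsc46 fun j => hcm (j.val + 2)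
    rw [hd] at h2
    exact h2.unique isRes_zero
  have hst' : s ≠ 0 ∨ t ≠ 0 := by
    by_contra hcon
    push Not at hcon
    apply hy
    rw [hst, hcon.1, hcon.2]
    funext i
    simp
  have ha0 : a ≠ 0 := by
    obtain ⟨i, j, hij⟩ := hi
    intro h2
    apply hij
    rw [h2]
    simp
  rw [hst] at hm ⊢
  rw [line_const hf hk hi h0' h1' hd' hst' hm]
  exact ram_const hf hk ha0 e0_ne (by rw [← cm_zero f a b]; exact h0') h.h0

theorem const_of_rat (h : Nrm f) {L : Type u} [Field L] [Algebra k L]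
    (hL : IsFunctionField k L) {p v : Fin 3 → L} (hi : ∃ i j, p i * v j ≠ p j * v i)
    (h0 : cm f p v 0 = 0) (h1 : cm f p v 1 = 0)
    (hd : QF.dsc (fun j : Fin 5 => cm f p v (j.val + 2)) = 0) (h2 : grd f p 2 ≠ 0)
    (hG : ∃ i, ∀ c : k, grd f p i ≠ algebraMap k L c * grd f p 2)
    {ψ : (surface f hf).Pt → k} (hk : Kills (surface f hf) ψ) (x : (surface f hf).Pt) :
    ψ x = ψ (dpt f ![1, 0, 0] 0) := by
  obtain ⟨i₀, j₀, hij⟩ := hi
  have hD0 : p i₀ * v j₀ - p j₀ * v i₀ ≠ 0 := sub_ne_zero.mpr hij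
  set B : Set (Place k L) := ((⋃ i, {P : Place k L | p i ≠ 0 ∧ ord P.ring (p i) ≠ 0}) ∪
    (⋃ i, {P : Place k L | v i ≠ 0 ∧ ord P.ring (v i) ≠ 0})) ∪
    {P : Place k L | p i₀ * v j₀ - p j₀ * v i₀ ≠ 0 ∧
      ord P.ring (p i₀ * v j₀ - p j₀ * v i₀) ≠ 0} with hB
  have hBf : B.Finite :=
    ((Set.finite_iUnion fun i => fin46 hL (p i)).union
      (Set.finite_iUnion fun i => fin46 hL (v i))).union (fin46 hL _)
  obtain ⟨K, _, _, hK, c, v₀, hv₀, hfin⟩ := dom_line hf hL h2 hG hBf x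
  have hharm : Helper51.VN.Harm hK
      (fun w => ψ ((surface f hf).eval hK c w) - ψ (dpt f ![1, 0, 0] 0)) := by
    intro g hg
    have e1 := hk.gen hK c hg
    have e2 := VP.degree_zero hK hg
    have e3 : ∑ w ∈ (finite_support_ord hK hg).toFinset, (ord w.ring g : k) = 0 := by
      exact_mod_cast congrArg (Int.cast : ℤ → k) e2
    simp only [mul_sub, Finset.sum_sub_distrib, ← Finset.sum_mul]
    rw [e1, e3, zero_mul, sub_zero]
  have h3 := GK.harm_zero hK hharm (hfin.subset ?_) v₀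
  · rw [hv₀] at h3
    exact sub_eq_zero.mp h3
  · intro w hw hcon
    apply hw
    obtain ⟨y, m, hy, hm, he, P, hPB, hT⟩ := hcon
    rw [hB, Set.mem_union, Set.mem_union, Set.mem_iUnion, Set.mem_iUnion] at hPB
    push Not at hPB
    obtain ⟨⟨hb1, hb2⟩, hb3⟩ := hPB
    have hp : ∀ i, p i ∈ P.ring := fun i => mem46 hL (hb1 i)
    have hv : ∀ i, v i ∈ P.ring := fun i => mem46 hL (hb2 i)
    have hD : ord P.ring (p i₀ * v j₀ - p j₀ * v i₀) = 0 := by
      by_contra h4
      exact hb3 ⟨hD0, h4⟩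
    rw [he, over46 hf h hL h0 h1 hd hk hp hv hD0 hD hy hm hT, sub_self]

theorem vn_of_const (H : ∀ ψ : (surface f hf).Pt → k, Kills (surface f hf) ψ →
    ∀ x, ψ x = ψ (dpt f ![1, 0, 0] 0)) {n : ℕ} (hn : 1 ≤ n) : Vn (surface f hf) n := by
  intro a ha
  refine GK.assembly_norm (fun K _ _ hK p => exists_const hf K hK p) (dpt f ![1, 0, 0] 0) n a ha ?_
  intro Ψ hΨ _ hz p
  have h1 : Kills (surface f hf) (fun x => Ψ (update p ⟨0, hn⟩ x)) :=
    hΨ.comp (induced_update (surface f hf) p (fun K _ _ hK q => exists_const hf K hK q) ⟨0, hn⟩)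
  have h2 := H _ h1 (p ⟨0, hn⟩)
  rw [update_eq_self] at h2
  rw [h2]
  exact hz _ ⟨0, hn⟩ (update_self _ _ _)

end Pool.Agent.Helper83.DP
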