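import Mathlib
import Pool.Agent.Helper9.NS
import Pool.Agent.Helper83.DP.Rat
import Pool.Agent.Helper83.DP.Mk
import Pool.Agent.Helper83.DP.Nf

/-!
# Double planes: the main theorem
-/

set_option linter.unusedSectionVars false

namespace Pool.Agent.Helper83.DP

open VC VF Function Polynomial
open Pool.Agent.Helper51.VB

universe u

variable {k : Type u} [Field k] [IsAlgClosed k] [CharZero k] {f : MvPolynomial (Fin 3) k}

theorem vn_nrm (hf : f.IsHomogeneous 6) (h : Nrm f) :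
    ∃ n₀ : ℕ, ∀ n, n₀ ≤ n → Vn (surface f hf) n := by
  obtain ⟨L, _, _, y, z, e, hL, hy, hz, hye, hze⟩ := exists_branch hf h
  obtain ⟨h1, h2, h3⟩ := vec_facts hf h hz hye hze
  by_cases hd : QF.dsc (fun j : Fin 5 => cm f ![1, y, z]
      ![0, 1, -(grd f ![1, y, z] 1 / grd f ![1, y, z] 2)] (j.val + 2)) = 0
  · refine ⟨1, fun n hn => vn_of_const hf (fun ψ hk x => ?_) hn⟩
    refine const_of_rat hf h hL ⟨0, 1, ?_⟩ h1 h2 hd ?_ (grd_nonconst hf h hy hz hye hze) hk x
    · change (1 : L) * 1 ≠ y * 0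
      simp
    · intro h0
      have h4 := (res_grd hf h hye hze).2.2
      rw [h0] at h4
      exact h.hs (h4.unique isRes_zero)
  · obtain ⟨L', _, _, ⟨g⟩⟩ := exists_geo hf h hL hy hz hye hze hd
    exact vn_of_geo hf h g

theorem vn_main (hf : f.IsHomogeneous 6) {a b : Fin 3 → k} (hab : LinearIndependent k ![a, b])
    (h : Tgt f a b) : ∃ n₀ : ℕ, ∀ n, n₀ ≤ n → Vn (surface f hf) n := by
  obtain ⟨e, he, hn⟩ := exists_nrm hf hab h
  obtain ⟨n₀, hn₀⟩ := vn_nrm (chg_hom e hf) hn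
  exact ⟨n₀, fun n hn => vn_chg he hf (hn₀ n hn)⟩

end Pool.Agent.Helper83.DP
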