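import Mathlib
import Pool.Agent.Helper9.NS
import Pool.Agent.Helper83.DP.Geo
import Pool.Agent.Helper83.DP.Nf

/-!
# Smooth sextic curves have tangent lines of the kind needed: definitions

Let `f` be a form of degree six whose curve is smooth. We show that there is a tangent line such that
the four other points of intersection contain a double but no triple point (`Tgt`). Otherwise the
tangent line at every point `a` is of one of the types: four different residual points (A), a triple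
tangent at two points (B), contact of order five (C) or six (D).
-/

set_option linter.unusedSectionVars false

namespace Pool.Agent.Helper83.DP

open VC VF Function Polynomial
open Pool.Agent.Helper51.VB

universe u

/-- The curve `f = 0` is smooth. -/
def Smooth {k : Type u} [Field k] (f : MvPolynomial (Fin 3) k) : Prop :=
  ∀ a : Fin 3 → k, a ≠ 0 → MvPolynomial.aeval a f = 0 →
    ∃ i, MvPolynomial.aeval a (MvPolynomial.pderiv i f) ≠ 0

/-- A tangent vector at the point `p` with `p 0 = 1`; the vector product of `p` and this vector is the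
gradient. -/
noncomputable def vG {k : Type u} [Field k] {L : Type u} [Field L] [Algebra k L]
    (f : MvPolynomial (Fin 3) k) (p : Fin 3 → L) : Fin 3 → L :=
  ![0, grd f p 2, -grd f p 1]

/-- The coefficients of the residual quartic on the line through `p` in the direction `v`. -/
noncomputable def qt {k : Type u} [Field k] {L : Type u} [Field L] [Algebra k L]
    (f : MvPolynomial (Fin 3) k) (p v : Fin 3 → L) : Fin 5 → L :=
  fun j => cm f p v (j.val + 2)

/-- The normal form at a point of the curve. -/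
structure Loc {k : Type u} [Field k] (f : MvPolynomial (Fin 3) k) : Prop where
  h0 : MvPolynomial.aeval ![(1 : k), 0, 0] f = 0
  h1 : cm f ![(1 : k), 0, 0] ![0, 1, 0] 1 = 0
  hs : MvPolynomial.aeval ![(1 : k), 0, 0] (MvPolynomial.pderiv 2 f) ≠ 0
  hc : QF.dsc (qt f ![(1 : k), 0, 0] ![0, 1, 0]) ≠ 0 ∨
    (qt f ![(1 : k), 0, 0] ![0, 1, 0] 0 = 0 ∧ qt f ![(1 : k), 0, 0] ![0, 1, 0] 1 ≠ 0 ∧
      qt f ![(1 : k), 0, 0] ![0, 1, 0] 2 = 0 ∧ qt f ![(1 : k), 0, 0] ![0, 1, 0] 3 = 0 ∧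
      qt f ![(1 : k), 0, 0] ![0, 1, 0] 4 = 0 ∧
      MvPolynomial.aeval ![(0 : k), 1, 0] (MvPolynomial.pderiv 2 f) ≠ 0) ∨
    (qt f ![(1 : k), 0, 0] ![0, 1, 0] 0 = 0 ∧ qt f ![(1 : k), 0, 0] ![0, 1, 0] 1 = 0 ∧
      qt f ![(1 : k), 0, 0] ![0, 1, 0] 2 = 0 ∧ qt f ![(1 : k), 0, 0] ![0, 1, 0] 3 ≠ 0) ∨
    (qt f ![(1 : k), 0, 0] ![0, 1, 0] 0 = 0 ∧ qt f ![(1 : k), 0, 0] ![0, 1, 0] 1 = 0 ∧
      qt f ![(1 : k), 0, 0] ![0, 1, 0] 2 = 0 ∧ qt f ![(1 : k), 0, 0] ![0, 1, 0] 3 = 0 ∧
      qt f ![(1 : k), 0, 0] ![0, 1, 0] 4 ≠ 0)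

/-- The expansion of the residual quartic `q` at the point `(1, y, z)` in the direction `(0, 1, m)`,
near the point `(1, 0, 0)` with residual quartic `c`. -/
structure Exp {k : Type u} [Field k] {L : Type u} [Field L] [Algebra k L] (P : Place k L)
    (y z m : L) (c : Fin 5 → k) (q : Fin 5 → L) (γ δ : k) : Prop where
  y0 : y ≠ 0
  hy : IsRes P y 0
  hz : IsRes P z 0
  hm : IsRes P m 0
  hγ : γ ≠ 0
  eqz : ∃ U, IsRes P U γ ∧ z * U = -(algebraMap k L (c 0) * y ^ 2 + algebraMap k L (c 1) * y ^ 3 +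
    algebraMap k L (c 2) * y ^ 4 + algebraMap k L (c 3) * y ^ 5 + algebraMap k L (c 4) * y ^ 6)
  eqm : ∃ V W, IsRes P V γ ∧ W ∈ P.ring ∧ m * V = -(2 * algebraMap k L (c 0) * y +
    3 * algebraMap k L (c 1) * y ^ 2 + 4 * algebraMap k L (c 2) * y ^ 3 +
    5 * algebraMap k L (c 3) * y ^ 4 + 6 * algebraMap k L (c 4) * y ^ 5 + z * W)
  eqq : ∃ A B : Fin 5 → L, (∀ j, A j ∈ P.ring) ∧ (∀ j, B j ∈ P.ring) ∧ IsRes P (B 4) δ ∧
    q 0 = algebraMap k L (c 0) + 3 * algebraMap k L (c 1) * y + 6 * algebraMap k L (c 2) * y ^ 2 +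
      10 * algebraMap k L (c 3) * y ^ 3 + 15 * algebraMap k L (c 4) * y ^ 4 + z * A 0 + m * B 0 ∧
    q 1 = algebraMap k L (c 1) + 4 * algebraMap k L (c 2) * y +
      10 * algebraMap k L (c 3) * y ^ 2 + 20 * algebraMap k L (c 4) * y ^ 3 + z * A 1 + m * B 1 ∧
    q 2 = algebraMap k L (c 2) + 5 * algebraMap k L (c 3) * y +
      15 * algebraMap k L (c 4) * y ^ 2 + z * A 2 + m * B 2 ∧
    q 3 = algebraMap k L (c 3) + 6 * algebraMap k L (c 4) * y + z * A 3 + m * B 3 ∧
    q 4 = algebraMap k L (c 4) + m * B 4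

end Pool.Agent.Helper83.DP
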