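import Mathlib
import Pool.Agent.Helper9.NS
import Pool.Agent.Helper83.DP.SmD
import Pool.Agent.Helper17.FF.Basic

/-!
# Block SM-A: the orders in the cases A and B
Helper (`exp_scale`): if `c 0 = 0` then `z / y ^ 3` is regular and `m / y ^ 2` has residue `- 3 c 1 / γ` (divide `eqz`, `eqm`
by powers of `y`, residues). `ord_A`: the residue of `q j` is `c j`, so that of `dsc q` is `dsc c ≠ 0`: `dsc q ≠ 0` has order `0`.
If `c 0 ≠ 0` then `q 0` has the residue `c 0`. If `c 0 = 0` then `c 1 ≠ 0` (otherwise `bI c = c 2 ^ 2`, `bJ c = - 2 c 2 ^ 3`, `dsc c = 0`), and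
`q 0 / y` has the residue `3 c 1 ≠ 0`. So `q 0 ≠ 0`, and it is regular, so its order is `≥ 0`.
`ord_B`: `c = (0, κ, 0, 0, 0)`. With `Y = y`: `q 0 = Y a0`, `q 1 = a1`, `q 2 = Y ^ 2 a2`, `q 3 = Y ^ 2 a3`, `q 4 = Y ^ 2 a4`, where the `a i` are
regular, `a0`, `a1`, `a4` have the residues `3 κ`, `κ`, `- 3 κ δ / γ` (all nonzero). Then
`dsc q = 4 bI ^ 3 - bJ ^ 2 = Y ^ 4 * (- 729 a4 ^ 2 a1 ^ 4 + Y * regular)`, so `dsc q / Y ^ 4` has a nonzero residue: order `4 ord Y`; `q 0 / Y`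
has a nonzero residue: order `ord Y`.
-/

set_option linter.unusedSectionVars false

namespace Pool.Agent.Helper83.DP

open VC VF Function Polynomial
open Pool.Agent.Helper51.VB

universe u

variable {k : Type u} [Field k] [IsAlgClosed k] [CharZero k] {L : Type u} [Field L] [Algebra k L]
  {P : Place k L} {y z m : L} {c : Fin 5 → k} {q : Fin 5 → L} {γ δ : k}

private lemma num56 (n : ℕ) [n.AtLeastTwo] : IsRes P (OfNat.ofNat n : L) (OfNat.ofNat n : k) := by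
  have h := isRes_const (v := P) (OfNat.ofNat n : k)
  rwa [map_ofNat] at h

private lemma addmul56 (hL : IsFunctionField k L) {x A : L} {d : k} (h : IsRes P x d)
    (hy : IsRes P y 0) (hA : A ∈ P.ring) : IsRes P (x + y * A) d := by
  obtain ⟨a, ha⟩ := exists_res hL hA
  have h1 := h.add (hy.mul ha)
  rwa [zero_mul, add_zero] at h1

private lemma dvd56 (hL : IsFunctionField k L) {x U A : L} {g d : k} (hU : IsRes P U g) (hg : g ≠ 0)
    (h : x * U = A) (hA : IsRes P A d) : IsRes P x (d / g) := by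
  obtain ⟨hU0, hU1⟩ := hU.inv_mem hg
  obtain ⟨e, he⟩ := exists_res hL hU1
  have h1 := hU.mul he
  rw [mul_inv_cancel₀ hU0] at h1
  have h2 : g * e = 1 := h1.unique isRes_one
  have h3 : x = A * U⁻¹ := by rw [← h, mul_assoc, mul_inv_cancel₀ hU0, mul_one]
  have h4 : d / g = d * e := by
    rw [div_eq_mul_inv, eq_inv_of_mul_eq_one_right h2]
  rw [h3, h4]
  exact hA.mul he

private lemma ord_res56 (hL : IsFunctionField k L) {x : L} {d : k} (h : IsRes P x d) (hd : d ≠ 0) :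
    x ≠ 0 ∧ ord P.ring x = 0 := by
  obtain ⟨h0, h1⟩ := h.inv_mem hd
  refine ⟨h0, ?_⟩
  have h2 := (FF.ord_nonneg_iff hL P h0).2 h.mem
  have h3 := (FF.ord_nonneg_iff hL P (inv_ne_zero h0)).2 h1
  rw [FF.ord_inv hL P h0] at h3
  omega

private lemma dsc_res56 {a : Fin 5 → L} {b : Fin 5 → k} (h : ∀ j, IsRes P (a j) (b j)) :
    IsRes P (QF.dsc a) (QF.dsc b) := by
  have hI : IsRes P (QF.bI a) (QF.bI b) :=
    ((((num56 12).mul (h 0)).mul (h 4)).sub (((num56 3).mul (h 1)).mul (h 3))).add ((h 2).pow 2)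
  have hJ : IsRes P (QF.bJ a) (QF.bJ b) :=
    ((((((num56 72).mul (h 0)).mul (h 2)).mul (h 4)).add
      ((((num56 9).mul (h 1)).mul (h 2)).mul (h 3))).sub (((num56 27).mul (h 0)).mul ((h 3).pow 2))
      |>.sub (((num56 27).mul (h 4)).mul ((h 1).pow 2))).sub ((num56 2).mul ((h 2).pow 3))
  exact ((num56 4).mul (hI.pow 3)).sub (hJ.pow 2)

/-- Divisibility of `z` and `m` by powers of `y` in the case `c 0 = 0`. -/
private lemma exp_scale56 (hL : IsFunctionField k L) (h : Exp P y z m c q γ δ) (c0 : c 0 = 0) :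
    ∃ z3 m2 : L, z = y ^ 3 * z3 ∧ z3 ∈ P.ring ∧ m = y ^ 2 * m2 ∧ IsRes P m2 (-(3 * c 1) / γ) := by
  have hc : ∀ a : k, algebraMap k L a ∈ P.ring := P.algebraMap_mem
  have hyR := h.hy.mem
  obtain ⟨U, hU, eU⟩ := h.eqz
  obtain ⟨V, W, hV, hW, eV⟩ := h.eqm
  have hy0 : y ≠ 0 := h.y0
  have hy3 : y ^ 3 ≠ 0 := pow_ne_zero _ h.y0
  have hy2 : y ^ 2 ≠ 0 := pow_ne_zero _ h.y0
  have ez : z = y ^ 3 * (z / y ^ 3) := by field_simp
  have em : m = y ^ 2 * (m / y ^ 2) := by field_simp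
  obtain ⟨d, hd⟩ := exists_res hL (x := -(algebraMap k L (c 1) + y * (algebraMap k L (c 2) +
    y * (algebraMap k L (c 3) + y * algebraMap k L (c 4))))) (v := P)
    (neg_mem (add_mem (hc _) (mul_mem hyR (add_mem (hc _) (mul_mem hyR (add_mem (hc _)
      (mul_mem hyR (hc _))))))))
  have h1 : (z / y ^ 3) * U = -(algebraMap k L (c 1) + y * (algebraMap k L (c 2) +
    y * (algebraMap k L (c 3) + y * algebraMap k L (c 4)))) := by
    apply mul_left_cancel₀ hy3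
    have h2 : y ^ 3 * (z / y ^ 3 * U) = z * U := by field_simp
    rw [h2, eU, c0, map_zero]
    ring
  have hz3 := dvd56 hL hU h.hγ h1 hd
  refine ⟨z / y ^ 3, m / y ^ 2, ez, hz3.mem, em, ?_⟩
  have n3 : IsRes P (3 : L) (3 : k) := num56 3
  have h3 : IsRes P (-(3 * algebraMap k L (c 1) + y * (4 * algebraMap k L (c 2) +
      5 * algebraMap k L (c 3) * y + 6 * algebraMap k L (c 4) * y ^ 2 + z / y ^ 3 * W)))
      (-(3 * c 1)) := by
    refine (addmul56 hL (n3.mul (isRes_const (c 1))) h.hy ?_).neg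
    refine add_mem (add_mem (add_mem (mul_mem (num56 4).mem (hc _))
      (mul_mem (mul_mem (num56 5).mem (hc _)) hyR)) (mul_mem (mul_mem (num56 6).mem (hc _))
      (pow_mem hyR 2))) (mul_mem hz3.mem hW)
  refine dvd56 hL hV h.hγ ?_ h3
  apply mul_left_cancel₀ hy2
  have h4 : y ^ 2 * (m / y ^ 2 * V) = m * V := by field_simp
  have h5 : z * W = y ^ 3 * (z / y ^ 3 * W) := by
    rw [← mul_assoc, ← ez]
  rw [h4, eV, c0, map_zero, h5]
  ring

theorem ord_A (hL : IsFunctionField k L) (h : Exp P y z m c q γ δ) (hc : QF.dsc c ≠ 0) :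
    q 0 ≠ 0 ∧ QF.dsc q ≠ 0 ∧ ord P.ring (QF.dsc q) ≤ 4 * ord P.ring (q 0) := by
  have hcm : ∀ a : k, algebraMap k L a ∈ P.ring := P.algebraMap_mem
  have hyR := h.hy.mem
  obtain ⟨A, B, hA, hB, -, e0, e1, e2, e3, e4⟩ := h.eqq
  have key : ∀ (x R A' B' : L) (d : k), IsRes P x d → R ∈ P.ring → A' ∈ P.ring → B' ∈ P.ring →
      IsRes P (x + y * R + z * A' + m * B') d := fun x R A' B' d hx hR hA' hB' =>
    addmul56 hL (addmul56 hL (addmul56 hL hx h.hy hR) h.hz hA') h.hm hB'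
  have r0 : IsRes P (q 0) (c 0) := by
    have h1 := key _ (3 * algebraMap k L (c 1) + 6 * algebraMap k L (c 2) * y +
      10 * algebraMap k L (c 3) * y ^ 2 + 15 * algebraMap k L (c 4) * y ^ 3) (A 0) (B 0) (c 0)
      (isRes_const (c 0)) (add_mem (add_mem (add_mem (mul_mem (num56 3).mem (hcm _))
        (mul_mem (mul_mem (num56 6).mem (hcm _)) hyR)) (mul_mem (mul_mem (num56 10).mem (hcm _))
        (pow_mem hyR 2))) (mul_mem (mul_mem (num56 15).mem (hcm _)) (pow_mem hyR 3))) (hA 0) (hB 0)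
    convert h1 using 1
    rw [e0]
    ring
  have r1 : IsRes P (q 1) (c 1) := by
    have h1 := key _ (4 * algebraMap k L (c 2) +
      10 * algebraMap k L (c 3) * y + 20 * algebraMap k L (c 4) * y ^ 2) (A 1) (B 1) (c 1)
      (isRes_const (c 1)) (add_mem (add_mem (mul_mem (num56 4).mem (hcm _))
        (mul_mem (mul_mem (num56 10).mem (hcm _)) hyR)) (mul_mem (mul_mem (num56 20).mem (hcm _))
        (pow_mem hyR 2))) (hA 1) (hB 1)
    convert h1 using 1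
    rw [e1]
    ring
  have r2 : IsRes P (q 2) (c 2) := by
    have h1 := key _ (5 * algebraMap k L (c 3) + 15 * algebraMap k L (c 4) * y) (A 2) (B 2) (c 2)
      (isRes_const (c 2)) (add_mem (mul_mem (num56 5).mem (hcm _))
        (mul_mem (mul_mem (num56 15).mem (hcm _)) hyR)) (hA 2) (hB 2)
    convert h1 using 1
    rw [e2]
    ring
  have r3 : IsRes P (q 3) (c 3) := by
    have h1 := key _ (6 * algebraMap k L (c 4)) (A 3) (B 3) (c 3)
      (isRes_const (c 3)) (mul_mem (num56 6).mem (hcm _)) (hA 3) (hB 3)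
    convert h1 using 1
    rw [e3]
    ring
  have r4 : IsRes P (q 4) (c 4) := by
    rw [e4]
    exact addmul56 hL (isRes_const (c 4)) h.hm (hB 4)
  have hr : ∀ j, IsRes P (q j) (c j) := by
    intro j
    fin_cases j
    · exact r0
    · exact r1
    · exact r2
    · exact r3
    · exact r4
  obtain ⟨hd0, hd1⟩ := ord_res56 hL (dsc_res56 hr) hc
  have hq0 : q 0 ≠ 0 := by
    by_cases c0 : c 0 = 0
    · have c1 : c 1 ≠ 0 := by
        intro c1
        apply hc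
        unfold QF.dsc QF.bI QF.bJ
        rw [c0, c1]
        ring
      obtain ⟨z3, m2, ez, hz3, em, hm2⟩ := exp_scale56 hL h c0
      have h1 : IsRes P (3 * algebraMap k L (c 1) + y * (6 * algebraMap k L (c 2) +
          10 * algebraMap k L (c 3) * y + 15 * algebraMap k L (c 4) * y ^ 2 + y * z3 * A 0 +
          m2 * B 0)) (3 * c 1) := by
        refine addmul56 hL ((num56 3).mul (isRes_const (c 1))) h.hy ?_
        exact add_mem (add_mem (add_mem (add_mem (mul_mem (num56 6).mem (hcm _))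
          (mul_mem (mul_mem (num56 10).mem (hcm _)) hyR)) (mul_mem (mul_mem (num56 15).mem (hcm _))
          (pow_mem hyR 2))) (mul_mem (mul_mem hyR hz3) (hA 0))) (mul_mem hm2.mem (hB 0))
      have h3 : (3 : k) * c 1 ≠ 0 := mul_ne_zero (by norm_num) c1
      have h2 := h1.ne_zero h3
      have h4 : q 0 = y * (3 * algebraMap k L (c 1) + y * (6 * algebraMap k L (c 2) +
          10 * algebraMap k L (c 3) * y + 15 * algebraMap k L (c 4) * y ^ 2 + y * z3 * A 0 +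
          m2 * B 0)) := by
        rw [e0, c0, map_zero, ez, em]
        ring
      rw [h4]
      exact mul_ne_zero h.y0 h2
    · exact r0.ne_zero c0
  refine ⟨hq0, hd0, ?_⟩
  have h1 := (FF.ord_nonneg_iff hL P hq0).2 r0.mem
  omega

theorem ord_B (hL : IsFunctionField k L) (h : Exp P y z m c q γ δ) (c0 : c 0 = 0) (c1 : c 1 ≠ 0)
    (c2 : c 2 = 0) (c3 : c 3 = 0) (c4 : c 4 = 0) (hδ : δ ≠ 0) :
    q 0 ≠ 0 ∧ QF.dsc q ≠ 0 ∧ ord P.ring (QF.dsc q) ≤ 4 * ord P.ring (q 0) := by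
  have hcm : ∀ a : k, algebraMap k L a ∈ P.ring := P.algebraMap_mem
  have hyR := h.hy.mem
  obtain ⟨A, B, hA, hB, hB4, e0, e1, e2, e3, e4⟩ := h.eqq
  obtain ⟨z3, m2, ez, hz3, em, hm2⟩ := exp_scale56 hL h c0
  have hm2R := hm2.mem
  obtain ⟨a0, ha0⟩ : ∃ a, a = 3 * algebraMap k L (c 1) + y * (y * z3 * A 0 + m2 * B 0) := ⟨_, rfl⟩
  obtain ⟨a1, ha1⟩ : ∃ a, a = algebraMap k L (c 1) + y * (y ^ 2 * z3 * A 1 + y * m2 * B 1) :=
    ⟨_, rfl⟩
  obtain ⟨a2, ha2⟩ : ∃ a, a = y * z3 * A 2 + m2 * B 2 := ⟨_, rfl⟩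
  obtain ⟨a3, ha3⟩ : ∃ a, a = y * z3 * A 3 + m2 * B 3 := ⟨_, rfl⟩
  obtain ⟨a4, ha4⟩ : ∃ a, a = m2 * B 4 := ⟨_, rfl⟩
  have r0 : IsRes P a0 (3 * c 1) := by
    rw [ha0]
    exact addmul56 hL ((num56 3).mul (isRes_const (c 1))) h.hy
      (add_mem (mul_mem (mul_mem hyR hz3) (hA 0)) (mul_mem hm2R (hB 0)))
  have r1 : IsRes P a1 (c 1) := by
    rw [ha1]
    exact addmul56 hL (isRes_const (c 1)) h.hy
      (add_mem (mul_mem (mul_mem (pow_mem hyR 2) hz3) (hA 1)) (mul_mem (mul_mem hyR hm2R) (hB 1)))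
  have m2' : a2 ∈ P.ring := by
    rw [ha2]
    exact add_mem (mul_mem (mul_mem hyR hz3) (hA 2)) (mul_mem hm2R (hB 2))
  have m3' : a3 ∈ P.ring := by
    rw [ha3]
    exact add_mem (mul_mem (mul_mem hyR hz3) (hA 3)) (mul_mem hm2R (hB 3))
  have r4 : IsRes P a4 (-(3 * c 1) / γ * δ) := by
    rw [ha4]
    exact hm2.mul hB4
  have q0 : q 0 = y * a0 := by
    rw [e0, c0, c2, c3, c4, map_zero, ez, em, ha0]
    ring
  have q1 : q 1 = a1 := by
    rw [e1, c2, c3, c4, map_zero, ez, em, ha1]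
    ring
  have q2 : q 2 = y ^ 2 * a2 := by
    rw [e2, c2, c3, c4, map_zero, ez, em, ha2]
    ring
  have q3 : q 3 = y ^ 2 * a3 := by
    rw [e3, c3, c4, map_zero, ez, em, ha3]
    ring
  have q4 : q 4 = y ^ 2 * a4 := by
    rw [e4, c4, map_zero, em, ha4]
    ring
  have hd : QF.dsc q = y ^ 4 * (-(27 * a4 * a1 ^ 2) ^ 2 + y * (
      4 * y * (-3 * a1 * a3 + 12 * y * a0 * a4 + y ^ 2 * a2 ^ 2) ^ 3 +
      2 * (27 * a4 * a1 ^ 2) * (72 * y ^ 2 * a0 * a2 * a4 + 9 * y * a1 * a2 * a3 -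
        27 * y ^ 2 * a0 * a3 ^ 2 - 2 * y ^ 3 * a2 ^ 3) -
      y * (72 * y ^ 2 * a0 * a2 * a4 + 9 * y * a1 * a2 * a3 -
        27 * y ^ 2 * a0 * a3 ^ 2 - 2 * y ^ 3 * a2 ^ 3) ^ 2)) := by
    unfold QF.dsc QF.bI QF.bJ
    rw [q0, q1, q2, q3, q4]
    ring
  obtain ⟨D, hD⟩ : ∃ D, D = -(27 * a4 * a1 ^ 2) ^ 2 + y * (
      4 * y * (-3 * a1 * a3 + 12 * y * a0 * a4 + y ^ 2 * a2 ^ 2) ^ 3 +
      2 * (27 * a4 * a1 ^ 2) * (72 * y ^ 2 * a0 * a2 * a4 + 9 * y * a1 * a2 * a3 -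
        27 * y ^ 2 * a0 * a3 ^ 2 - 2 * y ^ 3 * a2 ^ 3) -
      y * (72 * y ^ 2 * a0 * a2 * a4 + 9 * y * a1 * a2 * a3 -
        27 * y ^ 2 * a0 * a3 ^ 2 - 2 * y ^ 3 * a2 ^ 3) ^ 2) := ⟨_, rfl⟩
  rw [← hD] at hd
  have hjm : 72 * y ^ 2 * a0 * a2 * a4 + 9 * y * a1 * a2 * a3 -
      27 * y ^ 2 * a0 * a3 ^ 2 - 2 * y ^ 3 * a2 ^ 3 ∈ P.ring :=
    sub_mem (sub_mem (add_mem (mul_mem (mul_mem (mul_mem (mul_mem (num56 72).mem (pow_mem hyR 2))
      r0.mem) m2') r4.mem) (mul_mem (mul_mem (mul_mem (mul_mem (num56 9).mem hyR) r1.mem) m2') m3'))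
      (mul_mem (mul_mem (mul_mem (num56 27).mem (pow_mem hyR 2)) r0.mem) (pow_mem m3' 2)))
      (mul_mem (mul_mem (num56 2).mem (pow_mem hyR 3)) (pow_mem m2' 3))
  have him : -3 * a1 * a3 + 12 * y * a0 * a4 + y ^ 2 * a2 ^ 2 ∈ P.ring :=
    add_mem (add_mem (mul_mem (mul_mem (neg_mem (num56 3).mem) r1.mem) m3')
      (mul_mem (mul_mem (mul_mem (num56 12).mem hyR) r0.mem) r4.mem))
      (mul_mem (pow_mem hyR 2) (pow_mem m2' 2))
  have h27 : IsRes P (27 * a4 * a1 ^ 2) (27 * (-(3 * c 1) / γ * δ) * c 1 ^ 2) :=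
    ((num56 27).mul r4).mul (r1.pow 2)
  have rD : IsRes P D (-(27 * (-(3 * c 1) / γ * δ) * c 1 ^ 2) ^ 2) := by
    rw [hD]
    refine addmul56 hL (h27.pow 2).neg h.hy ?_
    exact sub_mem (add_mem (mul_mem (mul_mem (num56 4).mem hyR) (pow_mem him 3))
      (mul_mem (mul_mem (num56 2).mem h27.mem) hjm)) (mul_mem hyR (pow_mem hjm 2))
  have hne : -(27 * (-(3 * c 1) / γ * δ) * c 1 ^ 2) ^ 2 ≠ 0 := by
    refine neg_ne_zero.2 (pow_ne_zero _ (mul_ne_zero (mul_ne_zero (by norm_num)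
      (mul_ne_zero (div_ne_zero (neg_ne_zero.2 (mul_ne_zero (by norm_num) c1)) h.hγ) hδ))
      (pow_ne_zero _ c1)))
  obtain ⟨hD0, hD1⟩ := ord_res56 hL rD hne
  obtain ⟨ha00, ha01⟩ := ord_res56 hL r0 (mul_ne_zero (by norm_num) c1)
  have hy4 : y ^ 4 ≠ 0 := pow_ne_zero _ h.y0
  refine ⟨?_, ?_, ?_⟩
  · rw [q0]
    exact mul_ne_zero h.y0 ha00
  · rw [hd]
    exact mul_ne_zero hy4 hD0
  · rw [hd, q0, FF.ord_mul hL P hy4 hD0, FF.ord_mul hL P h.y0 ha00, FF.ord_pow hL P h.y0, hD1, ha01]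
    push_cast
    linarith

end Pool.Agent.Helper83.DP
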