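import Mathlib
import Pool.Agent.Helper9.NS
import Pool.Agent.Helper83.DP.SmD
import Pool.Agent.Helper83.DP.Ext

/-!
# Block SM-BR: the function field of the curve
Proof. Let `K₀ = RatFunc k` with variable `y`, `Q = aeval ![1, C y, X] f ∈ K₀[X]`. It has positive degree: otherwise
(its coefficients are polynomials in `y`) `f (1, Y, Z)` does not involve `Z`, hence `f` does not involve `X 2`
(`f` is homogeneous), all partial derivatives vanish at `(0, 0, 1)` and so does `f`: the curve is not smooth.
`exists_root_ext` (or `VF.ff_ext`) gives `L` with a root `z`; `y` is transcendental in `L`.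
-/

set_option linter.unusedSectionVars false

namespace Pool.Agent.Helper83.DP

open VC VF Function Polynomial
open Pool.Agent.Helper51.VB

universe u

variable {k : Type u} [Field k] [IsAlgClosed k] [CharZero k]

private lemma sum_deg {f : MvPolynomial (Fin 3) k} (hf : f.IsHomogeneous 6) {d : Fin 3 →₀ ℕ}
    (hd : d ∈ f.support) : d 0 + d 1 + d 2 = 6 := by
  have := hf (MvPolynomial.mem_support_iff.mp hd)
  rw [Finsupp.weight_apply, Finsupp.sum_fintype _ _ (fun i => by simp), Fin.sum_univ_three] at this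
  simpa using this

/-- A smooth curve: the last variable occurs. -/
private lemma exists_mem_support {f : MvPolynomial (Fin 3) k} (hf : f.IsHomogeneous 6)
    (hs : Smooth f) : ∃ d ∈ f.support, 0 < d 2 := by
  by_contra hcon
  have h2 : ∀ d ∈ f.support, d 2 = 0 := by
    intro d hd
    by_contra h
    exact hcon ⟨d, hd, Nat.pos_of_ne_zero h⟩
  have ha : (![0, 0, 1] : Fin 3 → k) ≠ 0 := by
    intro h
    exact one_ne_zero (congrFun h 2)
  have hline : ∀ v : Fin 3 → k, ∃ G : k[X],
      (MvPolynomial.aeval (fun i => C ((![0, 0, 1] : Fin 3 → k) i) + X * C (v i)) f : k[X]) =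
        X ^ 6 * G := by
    intro v
    refine ⟨∑ d ∈ f.support, C (f.coeff d) * (C (v 0) ^ d 0 * C (v 1) ^ d 1), ?_⟩
    rw [MvPolynomial.aeval_def, MvPolynomial.eval₂_eq', Finset.mul_sum]
    apply Finset.sum_congr rfl
    intro d hd
    have h3 := sum_deg hf hd
    have h4 := h2 d hd
    rw [Fin.prod_univ_three]
    have e0 : (![0, 0, 1] : Fin 3 → k) 0 = 0 := rfl
    have e1 : (![0, 0, 1] : Fin 3 → k) 1 = 0 := rfl
    rw [h4, pow_zero, mul_one, e0, e1, C_0, zero_add, zero_add, mul_pow, mul_pow,
      show (6 : ℕ) = d 0 + d 1 by omega, pow_add, Polynomial.algebraMap_apply,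
      Algebra.algebraMap_self, RingHom.id_apply]
    ring
  have h0 : MvPolynomial.aeval (![0, 0, 1] : Fin 3 → k) f = 0 := by
    rw [← cm_zero f _ 0]
    unfold cm
    obtain ⟨G, hG⟩ := hline 0
    rw [hG, Polynomial.coeff_X_pow_mul']
    simp
  obtain ⟨i, hi⟩ := hs _ ha h0
  apply hi
  have h1 := cm_one f (![0, 0, 1] : Fin 3 → k) (Pi.single i 1)
  obtain ⟨G, hG⟩ := hline (Pi.single i 1)
  unfold cm at h1
  rw [hG, Polynomial.coeff_X_pow_mul', Finset.sum_eq_single i] at h1
  · rw [Pi.single_eq_same, one_mul] at h1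
    rw [← h1]
    simp
  · intro j _ hj
    rw [Pi.single_eq_of_ne hj, zero_mul]
  · intro h
    exact absurd (Finset.mem_univ _) h

private lemma pos_degree {f : MvPolynomial (Fin 3) k} (hf : f.IsHomogeneous 6) (hs : Smooth f)
    {K : Type u} [Field K] [Algebra k K] {y : K} (hy : Transcendental k y) :
    0 < (MvPolynomial.aeval (![1, C y, X] : Fin 3 → K[X]) f : K[X]).natDegree := by
  classical
  obtain ⟨e, he, hpos⟩ := exists_mem_support hf hs
  have e1 : (MvPolynomial.aeval (![1, C y, X] : Fin 3 → K[X]) f : K[X]) =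
      ∑ d ∈ f.support, C (algebraMap k K (f.coeff d) * y ^ d 1) * X ^ d 2 := by
    rw [MvPolynomial.aeval_def, MvPolynomial.eval₂_eq']
    apply Finset.sum_congr rfl
    intro d _
    rw [Fin.prod_univ_three]
    change algebraMap k K[X] (f.coeff d) * (1 ^ d 0 * C y ^ d 1 * X ^ d 2) = _
    rw [one_pow, one_mul, C_mul, C_pow, Polynomial.algebraMap_apply]
    ring
  have e2 : (MvPolynomial.aeval (![1, C y, X] : Fin 3 → K[X]) f : K[X]).coeff (e 2) =
      Polynomial.aeval y (∑ d ∈ f.support, if e 2 = d 2 then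
        C (f.coeff d) * X ^ d 1 else (0 : k[X])) := by
    rw [e1, Polynomial.finsetSum_coeff, map_sum]
    apply Finset.sum_congr rfl
    intro d _
    rw [Polynomial.coeff_C_mul, Polynomial.coeff_X_pow]
    split_ifs
    · rw [mul_one, map_mul, map_pow, Polynomial.aeval_C, Polynomial.aeval_X]
    · rw [mul_zero, map_zero]
  have e3 : (∑ d ∈ f.support, if e 2 = d 2 then
      C (f.coeff d) * X ^ d 1 else (0 : k[X])).coeff (e 1) = f.coeff e := by
    rw [Polynomial.finsetSum_coeff, Finset.sum_eq_single e]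
    · rw [if_pos rfl, Polynomial.coeff_C_mul, Polynomial.coeff_X_pow, if_pos rfl, mul_one]
    · intro d hd hde
      split_ifs with h
      · rw [Polynomial.coeff_C_mul, Polynomial.coeff_X_pow, if_neg, mul_zero]
        intro h1
        apply hde
        have h2 := sum_deg hf hd
        have h3 := sum_deg hf he
        ext i
        fin_cases i
        · show d 0 = e 0
          omega
        · exact h1.symm
        · exact h.symm
      · exact Polynomial.coeff_zero _
    · intro h
      exact absurd he h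
  have e4 : (MvPolynomial.aeval (![1, C y, X] : Fin 3 → K[X]) f : K[X]).coeff (e 2) ≠ 0 := by
    rw [e2]
    intro h
    have h1 := (transcendental_iff.1 hy) _ h
    rw [h1, Polynomial.coeff_zero] at e3
    exact MvPolynomial.mem_support_iff.1 he e3.symm
  exact lt_of_lt_of_le hpos (Polynomial.le_natDegree_of_ne_zero e4)

theorem exists_curve {f : MvPolynomial (Fin 3) k} (hf : f.IsHomogeneous 6) (hs : Smooth f) :
    ∃ (L : Type u) (_ : Field L) (_ : Algebra k L) (y z : L), IsFunctionField k L ∧
      Transcendental k y ∧ MvPolynomial.aeval ![1, y, z] f = 0 := by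
  have hX : Transcendental k (RatFunc.X : RatFunc k) := transcendental_ratX
  have hQ := pos_degree hf hs hX
  obtain ⟨r, hr⟩ := IsAlgClosed.exists_eval₂_eq_zero
    (algebraMap (RatFunc k) (AlgebraicClosure (RatFunc k)))
    (MvPolynomial.aeval (![1, C RatFunc.X, X] : Fin 3 → (RatFunc k)[X]) f) (by
      intro h0
      rw [Polynomial.natDegree_eq_of_degree_eq_some h0] at hQ
      exact absurd hQ (lt_irrefl 0))
  let L : IntermediateField (RatFunc k) (AlgebraicClosure (RatFunc k)) :=
    IntermediateField.adjoin (RatFunc k) {r}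
  have hfin : FiniteDimensional (RatFunc k) L :=
    IntermediateField.adjoin.finiteDimensional (Algebra.IsAlgebraic.isAlgebraic r).isIntegral
  have hL : IsFunctionField k L := ff_ext (F := RatFunc k) ff_ratFunc
  have hrL : r ∈ L := IntermediateField.subset_adjoin _ _ rfl
  refine ⟨L, inferInstance, inferInstance, algebraMap (RatFunc k) L RatFunc.X, ⟨r, hrL⟩, hL,
    (transcendental_algebraMap_iff (algebraMap (RatFunc k) L).injective).mpr hX, ?_⟩
  apply (algebraMap L (AlgebraicClosure (RatFunc k))).injective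
  rw [map_zero, ← hr]
  let ψ : (RatFunc k)[X] →ₐ[k] AlgebraicClosure (RatFunc k) :=
    (Polynomial.aeval (R := RatFunc k) r).restrictScalars k
  let φ : L →ₐ[k] AlgebraicClosure (RatFunc k) := L.val.restrictScalars k
  have h1 : φ (MvPolynomial.aeval ![1, algebraMap (RatFunc k) L RatFunc.X, ⟨r, hrL⟩] f) =
      MvPolynomial.aeval (fun i => φ (![1, algebraMap (RatFunc k) L RatFunc.X, ⟨r, hrL⟩] i)) f :=
    MvPolynomial.comp_aeval_apply _ φ f
  have h2 : ψ (MvPolynomial.aeval (![1, C RatFunc.X, X] : Fin 3 → (RatFunc k)[X]) f) =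
      MvPolynomial.aeval (fun i => ψ ((![1, C RatFunc.X, X] : Fin 3 → (RatFunc k)[X]) i)) f :=
    MvPolynomial.comp_aeval_apply _ ψ f
  change φ _ = ψ _
  rw [h1, h2]
  congr 2
  funext i
  fin_cases i
  · change φ 1 = ψ 1
    rw [map_one, map_one]
  · change φ (algebraMap (RatFunc k) L RatFunc.X) = Polynomial.aeval r (C RatFunc.X)
    rw [Polynomial.aeval_C]
    rfl
  · change φ ⟨r, hrL⟩ = Polynomial.aeval r X
    rw [Polynomial.aeval_X]
    rfl

end Pool.Agent.Helper83.DP
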