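import Mathlib
import Pool.Agent.Helper9.NS
import Pool.Agent.Helper83.DP.SmD

/-!
# Block SM-C: the orders in the cases C and D
`ord_C`: `c = (0, 0, 0, κ, κ')`, `κ ≠ 0`. By `eqz`, `eqm`: `z / y ^ 5` and `m / y ^ 4` are regular. With `Y = y`: `q 0 = Y ^ 3 a0`,
`q 1 = Y ^ 2 a1`, `q 2 = Y a2`, `q 3 = a3`, where `a0, a1, a2, a3` have the residues `10 κ, 10 κ, 5 κ, κ`, and `q 4` is regular; put
`a4 = Y q 4` (residue `0`). Then `dsc q = Y ^ 6 * dsc ![a0, a1, a2, a3, a4]` (`ring`), and the residue of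
`dsc ![a0, .., a4]` is `dsc ![10 κ, 10 κ, 5 κ, κ, 0] = - 5400 κ ^ 6 ≠ 0`. So `ord dsc q = 6 ord Y`, `ord q 0 = 3 ord Y`, `ord Y > 0`.
`ord_D`: `c = (0, 0, 0, 0, κ)`: `z / y ^ 6` and `m / y ^ 5` are regular, `q j = Y ^ (4 - j) a j`, the residues of the `a j` are
`15 κ, 20 κ, 15 κ, 6 κ, κ`; `dsc q = Y ^ 12 * dsc a`, residue `dsc ![15 κ, 20 κ, 15 κ, 6 κ, κ] = 291600 κ ^ 6 ≠ 0`; so
`ord dsc q = 12 ord Y ≤ 16 ord Y = 4 ord q 0`.
-/

set_option linter.unusedSectionVars false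

namespace Pool.Agent.Helper83.DP

open VC VF Function Polynomial
open Pool.Agent.Helper51.VB

universe u

variable {k : Type u} [Field k] [IsAlgClosed k] [CharZero k] {L : Type u} [Field L] [Algebra k L]
  {P : Place k L} {y z m : L} {c : Fin 5 → k} {q : Fin 5 → L} {γ δ : k}

private lemma ord_res_c (hL : IsFunctionField k L) {x : L} {a : k} (hx : IsRes P x a)
    (ha : a ≠ 0) : x ≠ 0 ∧ ord P.ring x = 0 := by
  obtain ⟨h0, h1⟩ := hx.inv_mem ha
  refine ⟨h0, ?_⟩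
  have h2 := (ord_nonneg_iff hL P h0).2 hx.mem
  have h3 := (ord_nonneg_iff hL P (inv_ne_zero h0)).2 h1
  rw [ord_inv hL P h0] at h3
  omega

private lemma ord_fin_c (hL : IsFunctionField k L) (hy0 : y ≠ 0) (hy : IsRes P y 0)
    {a e f g : L} {α ε : k} {s t : ℕ}
    (hst : t ≤ 4 * s) (ha : IsRes P a α) (hα : α ≠ 0) (he : IsRes P e ε) (hε : ε ≠ 0)
    (hf : f = y ^ s * a) (hg : g = y ^ t * e) :
    f ≠ 0 ∧ g ≠ 0 ∧ ord P.ring g ≤ 4 * ord P.ring f := by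
  obtain ⟨a0, a1⟩ := ord_res_c hL ha hα
  obtain ⟨e0, e1⟩ := ord_res_c hL he hε
  have hp : 0 < ord P.ring y := (ord_pos_iff hL P hy0).2 (isRes_zero_iff.1 hy)
  have hs0 : y ^ s ≠ 0 := pow_ne_zero _ hy0
  have ht0 : y ^ t ≠ 0 := pow_ne_zero _ hy0
  subst hf hg
  refine ⟨mul_ne_zero hs0 a0, mul_ne_zero ht0 e0, ?_⟩
  rw [ord_mul hL P ht0 e0, ord_mul hL P hs0 a0, VP.ord_pow hL P hy0, VP.ord_pow hL P hy0, a1, e1]
  have h1 : ((t : ℕ) : ℤ) ≤ 4 * (s : ℤ) := by exact_mod_cast hst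
  nlinarith

private lemma isRes_dsc_c {a : Fin 5 → L} {r : Fin 5 → k} (h : ∀ j, IsRes P (a j) (r j)) :
    IsRes P (QF.dsc a) (QF.dsc r) := by
  have hn : ∀ n : ℕ, IsRes P ((n : ℕ) : L) ((n : ℕ) : k) := fun n => by
    have := isRes_const (v := P) ((n : ℕ) : k); rwa [map_natCast] at this
  have hI : IsRes P (QF.bI a) (QF.bI r) := by
    have := ((((hn 12).mul (h 0)).mul (h 4)).sub (((hn 3).mul (h 1)).mul (h 3))).add ((h 2).pow 2)
    unfold QF.bI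
    exact_mod_cast this
  have hJ : IsRes P (QF.bJ a) (QF.bJ r) := by
    have := (((((((hn 72).mul (h 0)).mul (h 2)).mul (h 4)).add
      ((((hn 9).mul (h 1)).mul (h 2)).mul (h 3))).sub (((hn 27).mul (h 0)).mul ((h 3).pow 2))).sub
      (((hn 27).mul (h 4)).mul ((h 1).pow 2))).sub ((hn 2).mul ((h 2).pow 3))
    unfold QF.bJ
    exact_mod_cast this
  have hD := ((hn 4).mul (hI.pow 3)).sub (hJ.pow 2)
  unfold QF.dsc
  exact_mod_cast hD

private lemma mul_inv_res_c {x U w : L} {γ : k} (hU : IsRes P U γ) (hγ : γ ≠ 0)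
    (h : x * U = w) : x = w * U⁻¹ := by
  rw [← h, mul_assoc, mul_inv_cancel₀ (hU.ne_zero hγ), mul_one]

private lemma isRes_zero_mul_c {x w : L} (hx : IsRes P x (0 : k)) (hw : w ∈ P.ring) :
    IsRes P (x * w) (0 : k) := by
  rw [isRes_zero_iff] at hx ⊢
  rw [mul_comm]
  exact nonunits_mul hw hx

theorem ord_C (hL : IsFunctionField k L) (h : Exp P y z m c q γ δ) (c0 : c 0 = 0) (c1 : c 1 = 0)
    (c2 : c 2 = 0) (c3 : c 3 ≠ 0) :
    q 0 ≠ 0 ∧ QF.dsc q ≠ 0 ∧ ord P.ring (QF.dsc q) ≤ 4 * ord P.ring (q 0) := by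
  obtain ⟨U, hU, eU⟩ := h.eqz
  obtain ⟨V, W, hV, hW, eV⟩ := h.eqm
  obtain ⟨A, B, hA, hB, -, q0, q1, q2, q3, q4⟩ := h.eqq
  have hy := h.hy
  have hym := hy.mem
  rw [c0, c1, c2, map_zero] at eU eV
  rw [c0, c1, c2, map_zero] at q0
  rw [c1, c2, map_zero] at q1
  rw [c2, map_zero] at q2
  set κ : L := algebraMap k L (c 3) with hκ
  set κ' : L := algebraMap k L (c 4) with hκ'
  have rκ : IsRes P κ (c 3) := isRes_const _
  have rκ' : IsRes P κ' (c 4) := isRes_const _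
  have hU' := (hU.inv_mem h.hγ).2
  have hV' := (hV.inv_mem h.hγ).2
  -- the functions `z / y ^ 5` and `m / y ^ 4`
  set Z : L := -(κ + κ' * y) * U⁻¹ with hZ
  have hZm : Z ∈ P.ring :=
    P.ring.mul_mem _ _ ((rκ.add (rκ'.mul hy)).neg).mem hU'
  have ez : z = y ^ 5 * Z := by
    rw [mul_inv_res_c hU h.hγ eU, hZ]; ring
  set M : L := -(5 * κ + 6 * κ' * y + y * Z * W) * V⁻¹ with hM
  have r5 : IsRes P (5 : L) (5 : k) := by
    have := isRes_const (v := P) (5 : k); rwa [map_ofNat] at this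
  have r6 : IsRes P (6 : L) (6 : k) := by
    have := isRes_const (v := P) (6 : k); rwa [map_ofNat] at this
  have r10 : IsRes P (10 : L) (10 : k) := by
    have := isRes_const (v := P) (10 : k); rwa [map_ofNat] at this
  have r15 : IsRes P (15 : L) (15 : k) := by
    have := isRes_const (v := P) (15 : k); rwa [map_ofNat] at this
  have r20 : IsRes P (20 : L) (20 : k) := by
    have := isRes_const (v := P) (20 : k); rwa [map_ofNat] at this
  have hMm : M ∈ P.ring := by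
    refine P.ring.mul_mem _ _ (P.ring.neg_mem _ ?_) hV'
    refine P.ring.add_mem _ _ (P.ring.add_mem _ _ (r5.mul rκ).mem ((r6.mul rκ').mul hy).mem) ?_
    exact P.ring.mul_mem _ _ (P.ring.mul_mem _ _ hym hZm) hW
  have em : m = y ^ 4 * M := by
    rw [mul_inv_res_c hV h.hγ eV, hM, ez]; ring
  -- the residues
  have ra0 : IsRes P (10 * κ + y * (15 * κ' + y * Z * A 0 + M * B 0)) (10 * c 3) := by
    have h1 := (r10.mul rκ).add (isRes_zero_mul_c hy (w := 15 * κ' + y * Z * A 0 + M * B 0)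
      (P.ring.add_mem _ _ (P.ring.add_mem _ _ (r15.mul rκ').mem
        (P.ring.mul_mem _ _ (P.ring.mul_mem _ _ hym hZm) (hA 0))) (P.ring.mul_mem _ _ hMm (hB 0))))
    rwa [add_zero] at h1
  have ra1 : IsRes P (10 * κ + y * (20 * κ' + y ^ 2 * Z * A 1 + y * M * B 1)) (10 * c 3) := by
    have h1 := (r10.mul rκ).add (isRes_zero_mul_c hy (w := 20 * κ' + y ^ 2 * Z * A 1 + y * M * B 1)
      (P.ring.add_mem _ _ (P.ring.add_mem _ _ (r20.mul rκ').mem
        (P.ring.mul_mem _ _ (P.ring.mul_mem _ _ (pow_mem hym 2) hZm) (hA 1)))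
        (P.ring.mul_mem _ _ (P.ring.mul_mem _ _ hym hMm) (hB 1))))
    rwa [add_zero] at h1
  have ra2 : IsRes P (5 * κ + y * (15 * κ' + y ^ 3 * Z * A 2 + y ^ 2 * M * B 2)) (5 * c 3) := by
    have h1 := (r5.mul rκ).add (isRes_zero_mul_c hy (w := 15 * κ' + y ^ 3 * Z * A 2 + y ^ 2 * M * B 2)
      (P.ring.add_mem _ _ (P.ring.add_mem _ _ (r15.mul rκ').mem
        (P.ring.mul_mem _ _ (P.ring.mul_mem _ _ (pow_mem hym 3) hZm) (hA 2)))
        (P.ring.mul_mem _ _ (P.ring.mul_mem _ _ (pow_mem hym 2) hMm) (hB 2))))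
    rwa [add_zero] at h1
  have ra3 : IsRes P (κ + y * (6 * κ' + y ^ 4 * Z * A 3 + y ^ 3 * M * B 3)) (c 3) := by
    have h1 := rκ.add (isRes_zero_mul_c hy (w := 6 * κ' + y ^ 4 * Z * A 3 + y ^ 3 * M * B 3)
      (P.ring.add_mem _ _ (P.ring.add_mem _ _ (r6.mul rκ').mem
        (P.ring.mul_mem _ _ (P.ring.mul_mem _ _ (pow_mem hym 4) hZm) (hA 3)))
        (P.ring.mul_mem _ _ (P.ring.mul_mem _ _ (pow_mem hym 3) hMm) (hB 3))))
    rwa [add_zero] at h1
  have ra4 : IsRes P (y * (κ' + m * B 4)) (0 : k) := by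
    refine isRes_zero_mul_c hy (P.ring.add_mem _ _ rκ'.mem (P.ring.mul_mem _ _ h.hm.mem (hB 4)))
  set a0 := 10 * κ + y * (15 * κ' + y * Z * A 0 + M * B 0) with ha0
  set a1 := 10 * κ + y * (20 * κ' + y ^ 2 * Z * A 1 + y * M * B 1) with ha1
  set a2 := 5 * κ + y * (15 * κ' + y ^ 3 * Z * A 2 + y ^ 2 * M * B 2) with ha2
  set a3 := κ + y * (6 * κ' + y ^ 4 * Z * A 3 + y ^ 3 * M * B 3) with ha3
  have e0 : q 0 = y ^ 3 * a0 := by rw [q0, ez, em, ha0]; ring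
  have e1 : q 1 = y ^ 2 * a1 := by rw [q1, ez, em, ha1]; ring
  have e2 : q 2 = y * a2 := by rw [q2, ez, em, ha2]; ring
  have e3 : q 3 = a3 := by rw [q3, ez, em, ha3]; ring
  have e4 : y * q 4 = y * (κ' + m * B 4) := by rw [q4]
  set a4 := y * (κ' + m * B 4) with ha4
  have hI : QF.bI q = y ^ 2 * QF.bI ![a0, a1, a2, a3, a4] := by
    simp only [QF.bI, Matrix.cons_val]
    rw [← e4, e0, e1, e2, e3]; ring
  have hJ : QF.bJ q = y ^ 3 * QF.bJ ![a0, a1, a2, a3, a4] := by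
    simp only [QF.bJ, Matrix.cons_val]
    rw [← e4, e0, e1, e2, e3]; ring
  have hD : QF.dsc q = y ^ 6 * QF.dsc ![a0, a1, a2, a3, a4] := by
    unfold QF.dsc; rw [hI, hJ]; ring
  have rD : IsRes P (QF.dsc ![a0, a1, a2, a3, a4]) (-5400 * c 3 ^ 6) := by
    have h1 : IsRes P (QF.dsc ![a0, a1, a2, a3, a4])
        (QF.dsc ![10 * c 3, 10 * c 3, 5 * c 3, c 3, 0]) := by
      apply isRes_dsc_c
      intro j
      fin_cases j
      · exact ra0
      · exact ra1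
      · exact ra2
      · exact ra3
      · exact ra4
    have h2 : QF.dsc ![10 * c 3, 10 * c 3, 5 * c 3, c 3, 0] = -5400 * c 3 ^ 6 := by
      simp only [QF.dsc, QF.bI, QF.bJ, Matrix.cons_val]
      ring
    rwa [h2] at h1
  exact ord_fin_c hL h.y0 hy (by norm_num) ra0 (mul_ne_zero (by norm_num) c3) rD
    (mul_ne_zero (by norm_num) (pow_ne_zero _ c3)) e0 hD

theorem ord_D (hL : IsFunctionField k L) (h : Exp P y z m c q γ δ) (c0 : c 0 = 0) (c1 : c 1 = 0)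
    (c2 : c 2 = 0) (c3 : c 3 = 0) (c4 : c 4 ≠ 0) :
    q 0 ≠ 0 ∧ QF.dsc q ≠ 0 ∧ ord P.ring (QF.dsc q) ≤ 4 * ord P.ring (q 0) := by
  obtain ⟨U, hU, eU⟩ := h.eqz
  obtain ⟨V, W, hV, hW, eV⟩ := h.eqm
  obtain ⟨A, B, hA, hB, -, q0, q1, q2, q3, q4⟩ := h.eqq
  have hy := h.hy
  have hym := hy.mem
  rw [c0, c1, c2, c3, map_zero] at eU eV
  rw [c0, c1, c2, c3, map_zero] at q0
  rw [c1, c2, c3, map_zero] at q1
  rw [c2, c3, map_zero] at q2
  rw [c3, map_zero] at q3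
  set κ : L := algebraMap k L (c 4) with hκ
  have rκ : IsRes P κ (c 4) := isRes_const _
  have hU' := (hU.inv_mem h.hγ).2
  have hV' := (hV.inv_mem h.hγ).2
  -- the functions `z / y ^ 6` and `m / y ^ 5`
  set Z : L := -κ * U⁻¹ with hZ
  have hZm : Z ∈ P.ring := P.ring.mul_mem _ _ rκ.neg.mem hU'
  have ez : z = y ^ 6 * Z := by
    rw [mul_inv_res_c hU h.hγ eU, hZ]; ring
  set M : L := -(6 * κ + y * Z * W) * V⁻¹ with hM
  have r6 : IsRes P (6 : L) (6 : k) := by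
    have := isRes_const (v := P) (6 : k); rwa [map_ofNat] at this
  have r15 : IsRes P (15 : L) (15 : k) := by
    have := isRes_const (v := P) (15 : k); rwa [map_ofNat] at this
  have r20 : IsRes P (20 : L) (20 : k) := by
    have := isRes_const (v := P) (20 : k); rwa [map_ofNat] at this
  have hMm : M ∈ P.ring := by
    refine P.ring.mul_mem _ _ (P.ring.neg_mem _ ?_) hV'
    refine P.ring.add_mem _ _ (r6.mul rκ).mem ?_
    exact P.ring.mul_mem _ _ (P.ring.mul_mem _ _ hym hZm) hW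
  have em : m = y ^ 5 * M := by
    rw [mul_inv_res_c hV h.hγ eV, hM, ez]; ring
  -- the residues
  have ra0 : IsRes P (15 * κ + y * (y * Z * A 0 + M * B 0)) (15 * c 4) := by
    have h1 := (r15.mul rκ).add (isRes_zero_mul_c hy (w := y * Z * A 0 + M * B 0)
      (P.ring.add_mem _ _ (P.ring.mul_mem _ _ (P.ring.mul_mem _ _ hym hZm) (hA 0))
        (P.ring.mul_mem _ _ hMm (hB 0))))
    rwa [add_zero] at h1
  have ra1 : IsRes P (20 * κ + y * (y ^ 2 * Z * A 1 + y * M * B 1)) (20 * c 4) := by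
    have h1 := (r20.mul rκ).add (isRes_zero_mul_c hy (w := y ^ 2 * Z * A 1 + y * M * B 1)
      (P.ring.add_mem _ _ (P.ring.mul_mem _ _ (P.ring.mul_mem _ _ (pow_mem hym 2) hZm) (hA 1))
        (P.ring.mul_mem _ _ (P.ring.mul_mem _ _ hym hMm) (hB 1))))
    rwa [add_zero] at h1
  have ra2 : IsRes P (15 * κ + y * (y ^ 3 * Z * A 2 + y ^ 2 * M * B 2)) (15 * c 4) := by
    have h1 := (r15.mul rκ).add (isRes_zero_mul_c hy (w := y ^ 3 * Z * A 2 + y ^ 2 * M * B 2)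
      (P.ring.add_mem _ _ (P.ring.mul_mem _ _ (P.ring.mul_mem _ _ (pow_mem hym 3) hZm) (hA 2))
        (P.ring.mul_mem _ _ (P.ring.mul_mem _ _ (pow_mem hym 2) hMm) (hB 2))))
    rwa [add_zero] at h1
  have ra3 : IsRes P (6 * κ + y * (y ^ 4 * Z * A 3 + y ^ 3 * M * B 3)) (6 * c 4) := by
    have h1 := (r6.mul rκ).add (isRes_zero_mul_c hy (w := y ^ 4 * Z * A 3 + y ^ 3 * M * B 3)
      (P.ring.add_mem _ _ (P.ring.mul_mem _ _ (P.ring.mul_mem _ _ (pow_mem hym 4) hZm) (hA 3))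
        (P.ring.mul_mem _ _ (P.ring.mul_mem _ _ (pow_mem hym 3) hMm) (hB 3))))
    rwa [add_zero] at h1
  have ra4 : IsRes P (κ + y * (y ^ 4 * M * B 4)) (c 4) := by
    have h1 := rκ.add (isRes_zero_mul_c hy (w := y ^ 4 * M * B 4)
      (P.ring.mul_mem _ _ (P.ring.mul_mem _ _ (pow_mem hym 4) hMm) (hB 4)))
    rwa [add_zero] at h1
  set a0 := 15 * κ + y * (y * Z * A 0 + M * B 0) with ha0
  set a1 := 20 * κ + y * (y ^ 2 * Z * A 1 + y * M * B 1) with ha1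
  set a2 := 15 * κ + y * (y ^ 3 * Z * A 2 + y ^ 2 * M * B 2) with ha2
  set a3 := 6 * κ + y * (y ^ 4 * Z * A 3 + y ^ 3 * M * B 3) with ha3
  set a4 := κ + y * (y ^ 4 * M * B 4) with ha4
  have e0 : q 0 = y ^ 4 * a0 := by rw [q0, ez, em, ha0]; ring
  have e1 : q 1 = y ^ 3 * a1 := by rw [q1, ez, em, ha1]; ring
  have e2 : q 2 = y ^ 2 * a2 := by rw [q2, ez, em, ha2]; ring
  have e3 : q 3 = y * a3 := by rw [q3, ez, em, ha3]; ring
  have e4 : q 4 = a4 := by rw [q4, em, ha4]; ring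
  have hI : QF.bI q = y ^ 4 * QF.bI ![a0, a1, a2, a3, a4] := by
    simp only [QF.bI, Matrix.cons_val]
    rw [e0, e1, e2, e3, e4]; ring
  have hJ : QF.bJ q = y ^ 6 * QF.bJ ![a0, a1, a2, a3, a4] := by
    simp only [QF.bJ, Matrix.cons_val]
    rw [e0, e1, e2, e3, e4]; ring
  have hD : QF.dsc q = y ^ 12 * QF.dsc ![a0, a1, a2, a3, a4] := by
    unfold QF.dsc; rw [hI, hJ]; ring
  have rD : IsRes P (QF.dsc ![a0, a1, a2, a3, a4]) (291600 * c 4 ^ 6) := by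
    have h1 : IsRes P (QF.dsc ![a0, a1, a2, a3, a4])
        (QF.dsc ![15 * c 4, 20 * c 4, 15 * c 4, 6 * c 4, c 4]) := by
      apply isRes_dsc_c
      intro j
      fin_cases j
      · exact ra0
      · exact ra1
      · exact ra2
      · exact ra3
      · exact ra4
    have h2 : QF.dsc ![15 * c 4, 20 * c 4, 15 * c 4, 6 * c 4, c 4] = 291600 * c 4 ^ 6 := by
      simp only [QF.dsc, QF.bI, QF.bJ, Matrix.cons_val]
      ring
    rwa [h2] at h1
  exact ord_fin_c hL h.y0 hy (by norm_num) ra0 (mul_ne_zero (by norm_num) c4) rD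
    (mul_ne_zero (by norm_num) (pow_ne_zero _ c4)) e0 hD

end Pool.Agent.Helper83.DP
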