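import Mathlib
import Pool.Agent.Helper9.NS
import Pool.Agent.Helper83.DP.SmD
import Pool.Agent.Helper83.QF.Dbl

/-!
# Block SM-CLS: classification of the tangent lines
Proof of `exists_loc`. The gradient `G` of `f` at `a` is not zero (`hs`), `G · a = 6 f (a) = 0` (`euler`). Let `b` be
such that `a`, `b` is a basis of the plane `G · x = 0`; `cm f a b 0 = f (a) = 0`, `cm f a b 1 = b · G = 0` (`cm_one`). Let
`c j = cm f a b (j + 2)`: `f (s a + t b) = t ^ 2 qu c (s, t)`.
(1) `c ≠ 0`: otherwise the line is contained in the curve; in coordinates `f = X 2 * g` and the curve is singular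
at a point of the line with `g = 0` (a binary form of degree five over an algebraically closed field has
a zero; `f = Φ + X 2 g`, `Φ = 0`, and the gradient at a point of the line is `g` times the third coordinate form). In
other words: for a vector `d` outside the plane, the polynomial `t ↦ d · ∇f (a + t b)` (degree five) or the form
`(s, t) ↦ d · ∇f (s a + t b)` has a zero `(s, t) ≠ 0`, and `∇f` is zero there, because it is zero on `a` and `b` (derivatives
of `f = 0` along the line).
(2) If `dsc c ≠ 0`: case A with `e = ![a, b, d]`.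
(3) If `dsc c = 0`: `exists_double` (`QF/Dbl.lean`): `qu c x = [x, ϖ] ^ 2 m (x)`, `[x, ϖ] = x 0 * ϖ 1 - x 1 * ϖ 0`, `m = q₀ x 0 ^ 2 + q₁ x 0 x 1 + q₂ x 1 ^ 2`. If
`m (ϖ) ≠ 0` then `Tgt f a b`. So `m (ϖ) = 0`, `m = [x, ϖ] n (x)`, `qu c x = [x, ϖ] ^ 3 n (x)`, `n ≠ 0` a linear form.
(3a) `ϖ 1 = 0`: `[x, ϖ]` is a multiple of `x 1`: `qu c (s, t) = t ^ 3 (κ s + κ' t)`: case C (`κ ≠ 0`) or D (`κ = 0`), `e = ![a, b, d]`.
(3b) `ϖ 1 ≠ 0` and `n (1, 0) ≠ 0`: put `b' = ϖ 0 a + ϖ 1 b`, a point of the curve, smooth. `f (s b' + t a) =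
(value at the coordinates (s ϖ 0 + t, s ϖ 1)) = s ^ 2 ϖ 1 ^ 2 (t ϖ 1) ^ 3 n (s ϖ 0 + t, s ϖ 1)`, so `Tgt f b' a` with
`l0 = 1`, `l1 = 0` and the quadratic form `ϖ 1 ^ 5 t n (s ϖ 0 + t, s ϖ 1)`, which at `(s, t) = (0, 1)` is `ϖ 1 ^ 5 n (1, 0) ≠ 0` (`m2 ≠ 0`).
Contradiction. (3c) `ϖ 1 ≠ 0` and `n (1, 0) = 0`: `n = ν x 1`; in the basis `e = ![a, b', d]`: `f (s a + t b') = κ s ^ 3 t ^ 3`, case B;
the last condition: `b'` is a point of the curve and the gradient at `b'` is zero on `a` and `b'` (coefficients of `s t ^ 5`, `t ^ 6`), not zero,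
so it is not zero on `d`.
The conditions `h0, h1, hs` of `Loc (chg e f)` and `cm (chg e f) (1,0,0) (0,1,0) m = cm f (e 0) (e 1) m`: as in `Nf.lean`.
-/

set_option linter.unusedSectionVars false

namespace Pool.Agent.Helper83.DP

open VC VF Function Polynomial
open Pool.Agent.Helper51.VB

universe u

variable {k : Type u} [Field k] [IsAlgClosed k] [CharZero k]

private lemma exists_third44 {a b : Fin 3 → k} (hab : LinearIndependent k ![a, b]) :
    ∃ c : Fin 3 → k, LinearIndependent k ![a, b, c] := by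
  have h1 : Submodule.span k (Set.range ![a, b]) ≠ ⊤ := by
    intro h
    have h2 := finrank_span_eq_card hab
    rw [h, finrank_top] at h2
    simp at h2
  obtain ⟨c, hc⟩ : ∃ c, c ∉ Submodule.span k (Set.range ![a, b]) := by
    by_contra h
    push Not at h
    exact h1 ((Submodule.eq_top_iff').mpr h)
  refine ⟨c, ?_⟩
  have h3 : LinearIndependent k (Fin.cons c ![a, b] : Fin 3 → Fin 3 → k) :=
    linearIndependent_finCons.mpr ⟨hab, hc⟩
  have h4 := h3.comp (![1, 2, 0] : Fin 3 → Fin 3) (by decide)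
  convert h4 using 1
  funext i
  fin_cases i <;> rfl

private lemma coeffs44 {g0 g1 g2 g3 g4 g5 g6 : k}
    (h : ∀ t : k, g0 + g1 * t + g2 * t ^ 2 + g3 * t ^ 3 + g4 * t ^ 4 + g5 * t ^ 5 + g6 * t ^ 6 = 0) :
    g0 = 0 ∧ g1 = 0 ∧ g2 = 0 ∧ g3 = 0 ∧ g4 = 0 ∧ g5 = 0 ∧ g6 = 0 := by
  have hD : (C g0 + C g1 * X + C g2 * X ^ 2 + C g3 * X ^ 3 + C g4 * X ^ 4 + C g5 * X ^ 5 +
      C g6 * X ^ 6 : k[X]) = 0 := by
    apply Polynomial.funext
    intro t
    have := h t
    simpa using this
  have hc : ∀ m, (C g0 + C g1 * X + C g2 * X ^ 2 + C g3 * X ^ 3 + C g4 * X ^ 4 + C g5 * X ^ 5 +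
      C g6 * X ^ 6 : k[X]).coeff m = 0 := by
    intro m
    rw [hD, coeff_zero]
  refine ⟨?_, ?_, ?_, ?_, ?_, ?_, ?_⟩
  · simpa [coeff_X, coeff_C, coeff_X_pow] using hc 0
  · simpa [coeff_X, coeff_C, coeff_X_pow] using hc 1
  · simpa [coeff_X, coeff_C, coeff_X_pow] using hc 2
  · simpa [coeff_X, coeff_C, coeff_X_pow] using hc 3
  · simpa [coeff_X, coeff_C, coeff_X_pow] using hc 4
  · simpa [coeff_X, coeff_C, coeff_X_pow] using hc 5
  · simpa [coeff_X, coeff_C, coeff_X_pow] using hc 6

/-- A vector which is orthogonal to a basis is zero. -/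
private lemma grad44 {e : Fin 3 → Fin 3 → k} (he : LinearIndependent k e) (G : Fin 3 → k)
    (h : ∀ i, ∑ j, e i j * G j = 0) (j : Fin 3) : G j = 0 := by
  let φ : (Fin 3 → k) →ₗ[k] k :=
    { toFun := fun x => ∑ i, x i * G i
      map_add' := fun x y => by
        rw [← Finset.sum_add_distrib]
        exact Finset.sum_congr rfl fun i _ => by rw [Pi.add_apply, add_mul]
      map_smul' := fun r x => by
        rw [RingHom.id_apply, smul_eq_mul, Finset.mul_sum]
        exact Finset.sum_congr rfl fun i _ => by rw [Pi.smul_apply, smul_eq_mul, mul_assoc] }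
  have h3 : φ = 0 := by
    apply (basisOfLinearIndependentOfCardEqFinrank he (by simp)).ext
    intro i
    rw [coe_basisOfLinearIndependentOfCardEqFinrank]
    exact h i
  have h4 : φ (Pi.single j 1) = 0 := by rw [h3]; rfl
  have h5 : φ (Pi.single j 1) = G j := by
    change ∑ i, (Pi.single j 1 : Fin 3 → k) i * G i = _
    rw [Finset.sum_eq_single j]
    · rw [Pi.single_eq_same, one_mul]
    · intro i _ hi
      rw [Pi.single_eq_of_ne hi, zero_mul]
    · intro h
      exact absurd (Finset.mem_univ _) h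
  rw [← h5, h4]

private lemma smul_pderiv44 {f : MvPolynomial (Fin 3) k} (hf : f.IsHomogeneous 6) (i : Fin 3)
    (c : k) (x : Fin 3 → k) : MvPolynomial.aeval (fun j => c * x j) (MvPolynomial.pderiv i f) =
      c ^ 5 * MvPolynomial.aeval x (MvPolynomial.pderiv i f) := by
  have hg : (MvPolynomial.pderiv i f).IsHomogeneous 5 := hf.pderiv
  rw [MvPolynomial.aeval_def, MvPolynomial.aeval_def, MvPolynomial.eval₂_eq',
    MvPolynomial.eval₂_eq', Finset.mul_sum]
  apply Finset.sum_congr rfl
  intro d hd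
  have h1 : ∑ i, d i = 5 := by
    have := hg (MvPolynomial.mem_support_iff.mp hd)
    rw [Finsupp.weight_apply, Finsupp.sum_fintype _ _ (fun i => by simp)] at this
    simpa using this
  simp only [mul_pow, Finset.prod_mul_distrib]
  rw [Finset.prod_pow_eq_pow_sum, h1]
  ring

/-- The derivative in the direction `d` along the line. -/
private noncomputable def dl44 (f : MvPolynomial (Fin 3) k) (a b d : Fin 3 → k) : k[X] :=
  ∑ i, C (d i) * MvPolynomial.aeval (fun j => C (a j) + X * C (b j)) (MvPolynomial.pderiv i f)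

private lemma eval_dl44 (f : MvPolynomial (Fin 3) k) (a b d : Fin 3 → k) (t : k) :
    (dl44 f a b d).eval t = ∑ i, d i * MvPolynomial.aeval (fun j => a j + t * b j) (MvPolynomial.pderiv i f) := by
  unfold dl44
  rw [Polynomial.eval_finsetSum]
  refine Finset.sum_congr rfl fun i _ => ?_
  rw [Polynomial.eval_mul, Polynomial.eval_C]
  congr 1
  have h := MvPolynomial.comp_aeval_apply (fun j => C (a j) + X * C (b j) : Fin 3 → k[X])
    (Polynomial.aeval t : k[X] →ₐ[k] k) (MvPolynomial.pderiv i f)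
  rw [Polynomial.coe_aeval_eq_eval] at h
  rw [h]
  congr 2
  funext j
  rw [Polynomial.eval_add, Polynomial.eval_mul, Polynomial.eval_C, Polynomial.eval_C, Polynomial.eval_X]

/-- The curve contains no line. -/
theorem no_line {f : MvPolynomial (Fin 3) k} (hf : f.IsHomogeneous 6) (hs : Smooth f)
    {a b : Fin 3 → k} (hab : LinearIndependent k ![a, b]) :
    ∃ s t : k, MvPolynomial.aeval (fun i => s * a i + t * b i) f ≠ 0 := by
  by_contra hcon
  push Not at hcon
  obtain ⟨d, he⟩ := exists_third44 hab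
  -- a zero of the derivative gives a singular point
  have key : ∀ s t : k, (s ≠ 0 ∨ t ≠ 0) →
      ∑ i, d i * MvPolynomial.aeval (fun j => s * a j + t * b j) (MvPolynomial.pderiv i f) ≠ 0 := by
    intro s t hst h0
    have hp : (fun j => s * a j + t * b j) ≠ 0 := by
      intro h
      have h1 := LinearIndependent.pair_iff.mp hab s t (by
        funext j
        have := congrFun h j
        simpa using this)
      rcases hst with h2 | h2
      · exact h2 h1.1
      · exact h2 h1.2
    obtain ⟨i0, hi0⟩ := hs _ hp (hcon s t)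
    apply hi0
    refine grad44 he (fun i => MvPolynomial.aeval (fun j => s * a j + t * b j)
      (MvPolynomial.pderiv i f)) ?_ i0
    have hdir : ∀ s' t' : k, ∑ i, (s' * a i + t' * b i) *
        MvPolynomial.aeval (fun j => s * a j + t * b j) (MvPolynomial.pderiv i f) = 0 := by
      intro s' t'
      rw [← cm_one f (fun j => s * a j + t * b j) (fun j => s' * a j + t' * b j)]
      have h2 := (coeffs44 (k := k) (g0 := cm f (fun j => s * a j + t * b j) (fun j => s' * a j + t' * b j) 0)
        (g1 := cm f (fun j => s * a j + t * b j) (fun j => s' * a j + t' * b j) 1)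
        (g2 := cm f (fun j => s * a j + t * b j) (fun j => s' * a j + t' * b j) 2)
        (g3 := cm f (fun j => s * a j + t * b j) (fun j => s' * a j + t' * b j) 3)
        (g4 := cm f (fun j => s * a j + t * b j) (fun j => s' * a j + t' * b j) 4)
        (g5 := cm f (fun j => s * a j + t * b j) (fun j => s' * a j + t' * b j) 5)
        (g6 := cm f (fun j => s * a j + t * b j) (fun j => s' * a j + t' * b j) 6) ?_).2.1
      · exact h2
      · intro r
        have h3 := aeval_line hf (fun j => s * a j + t * b j) (fun j => s' * a j + t' * b j) 1 r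
        have h4 : (fun i => 1 * (s * a i + t * b i) + r * (s' * a i + t' * b i)) =
            fun i => (s + r * s') * a i + (t + r * t') * b i := by
          funext i
          ring
        rw [h4, hcon] at h3
        linear_combination -h3
    intro i
    fin_cases i
    · have := hdir 1 0
      simpa using this
    · have := hdir 0 1
      simpa using this
    · exact h0
  have hroot : ∀ a' b' : Fin 3 → k, (∀ t : k, (dl44 f a' b' d).eval t ≠ 0) → ∃ c : k, c ≠ 0 ∧
      dl44 f a' b' d = C c := by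
    intro a' b' h
    have h1 : (dl44 f a' b' d).degree = 0 := by
      by_contra h2
      obtain ⟨t, ht⟩ := IsAlgClosed.exists_root _ h2
      exact h t ht
    have h2 := Polynomial.eq_C_of_degree_eq_zero h1
    refine ⟨_, ?_, h2⟩
    intro h3
    apply h 0
    rw [h2, h3, C_0, eval_zero]
  obtain ⟨c, hc, hP⟩ := hroot a b (by
    intro t ht
    rw [eval_dl44] at ht
    apply key 1 t (Or.inl one_ne_zero)
    simpa using ht)
  obtain ⟨c', hc', hQ⟩ := hroot b a (by
    intro t ht
    rw [eval_dl44] at ht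
    apply key t 1 (Or.inr one_ne_zero)
    rw [← ht]
    refine Finset.sum_congr rfl fun i _ => ?_
    congr 3
    funext j
    ring)
  have hrel : ∀ t : k, t ≠ 0 → c' = t ^ 5 * c := by
    intro t ht
    have h1 : (dl44 f b a d).eval t = t ^ 5 * (dl44 f a b d).eval t⁻¹ := by
      rw [eval_dl44, eval_dl44, Finset.mul_sum]
      refine Finset.sum_congr rfl fun i _ => ?_
      have h2 : (fun j => b j + t * a j) = fun j => t * (a j + t⁻¹ * b j) := by
        funext j
        field_simp
        ring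
      rw [h2, smul_pderiv44 hf]
      ring
    rw [hP, hQ, eval_C, eval_C] at h1
    exact h1
  have h1 := hrel 1 one_ne_zero
  have h2 := hrel 2 two_ne_zero
  apply hc
  have h3 : (31 : k) * c = 0 := by
    rw [h1] at h2
    linear_combination -h2
  exact (mul_eq_zero.mp h3).resolve_left (by norm_num)

private lemma cm_chg44 (e : Fin 3 → Fin 3 → k) (f : MvPolynomial (Fin 3) k) (p v p' v' : Fin 3 → k)
    (hp : ∀ j, ∑ i, e i j * p i = p' j) (hv : ∀ j, ∑ i, e i j * v i = v' j) (m : ℕ) :
    cm (chg e f) p v m = cm f p' v' m := by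
  unfold cm
  rw [aeval_chg]
  congr 3
  funext j
  rw [← hp j, ← hv j, map_sum, map_sum, Finset.mul_sum, ← Finset.sum_add_distrib]
  apply Finset.sum_congr rfl
  intro i _
  rw [← Polynomial.C_eq_algebraMap, Polynomial.C_mul, Polynomial.C_mul]
  ring

private lemma pd2_44 (a b d : Fin 3 → k) (f : MvPolynomial (Fin 3) k) :
    (∀ m, cm (chg ![a, b, d] f) ![(1 : k), 0, 0] ![0, 1, 0] m = cm f a b m) ∧
    MvPolynomial.aeval ![(1 : k), 0, 0] (MvPolynomial.pderiv 2 (chg ![a, b, d] f)) =
      ∑ i, d i * MvPolynomial.aeval a (MvPolynomial.pderiv i f) ∧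
    MvPolynomial.aeval ![(0 : k), 1, 0] (MvPolynomial.pderiv 2 (chg ![a, b, d] f)) =
      ∑ i, d i * MvPolynomial.aeval b (MvPolynomial.pderiv i f) := by
  have hA : ∀ j, ∑ i, (![a, b, d] : Fin 3 → Fin 3 → k) i j * (![(1 : k), 0, 0]) i = a j := by
    intro j
    simp [Fin.sum_univ_three]
  have hB : ∀ j, ∑ i, (![a, b, d] : Fin 3 → Fin 3 → k) i j * (![(0 : k), 1, 0]) i = b j := by
    intro j
    simp [Fin.sum_univ_three]
  have hC : ∀ j, ∑ i, (![a, b, d] : Fin 3 → Fin 3 → k) i j * (![(0 : k), 0, 1]) i = d j := by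
    intro j
    simp [Fin.sum_univ_three]
  refine ⟨cm_chg44 ![a, b, d] f _ _ _ _ hA hB, ?_, ?_⟩
  · rw [← cm_one, ← cm_chg44 ![a, b, d] f _ _ _ _ hA hC, cm_one, Fin.sum_univ_three]
    simp
  · rw [← cm_one, ← cm_chg44 ![a, b, d] f _ _ _ _ hB hC, cm_one, Fin.sum_univ_three]
    simp

/-- The first three conditions of `Loc`. -/
private lemma base44 {f : MvPolynomial (Fin 3) k} (hf : f.IsHomogeneous 6)
    {a b d : Fin 3 → k} (he : LinearIndependent k ![a, b, d]) (h0 : cm f a b 0 = 0)
    (h1 : cm f a b 1 = 0) (hG : ∃ i, MvPolynomial.aeval a (MvPolynomial.pderiv i f) ≠ 0) :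
    MvPolynomial.aeval ![(1 : k), 0, 0] (chg ![a, b, d] f) = 0 ∧
    cm (chg ![a, b, d] f) ![(1 : k), 0, 0] ![0, 1, 0] 1 = 0 ∧
    MvPolynomial.aeval ![(1 : k), 0, 0] (MvPolynomial.pderiv 2 (chg ![a, b, d] f)) ≠ 0 := by
  obtain ⟨hcm, hp, -⟩ := pd2_44 a b d f
  refine ⟨?_, ?_, ?_⟩
  · rw [← cm_zero _ _ ![(0 : k), 1, 0], hcm, h0]
  · rw [hcm, h1]
  · rw [hp]
    intro h2
    obtain ⟨i, hi⟩ := hG
    apply hi
    refine grad44 he (fun i => MvPolynomial.aeval a (MvPolynomial.pderiv i f)) ?_ i
    intro j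
    fin_cases j
    · have h3 := euler hf a
      rw [← cm_zero f a b, h0, mul_zero] at h3
      exact h3
    · rw [cm_one] at h1
      exact h1
    · exact h2

/-- A second vector of the tangent. -/
private lemma exists_tan44 (G a : Fin 3 → k) (ha : a ≠ 0) :
    ∃ b : Fin 3 → k, LinearIndependent k ![a, b] ∧ ∑ i, b i * G i = 0 := by
  let φ : (Fin 3 → k) →ₗ[k] k :=
    { toFun := fun x => ∑ i, x i * G i
      map_add' := fun x y => by
        rw [← Finset.sum_add_distrib]
        exact Finset.sum_congr rfl fun i _ => by rw [Pi.add_apply, add_mul]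
      map_smul' := fun r x => by
        rw [RingHom.id_apply, smul_eq_mul, Finset.mul_sum]
        exact Finset.sum_congr rfl fun i _ => by rw [Pi.smul_apply, smul_eq_mul, mul_assoc] }
  have hφ : ∀ x, φ x = ∑ i, x i * G i := fun _ => rfl
  have h1 : 2 ≤ Module.finrank k (LinearMap.ker φ) := by
    have h2 := LinearMap.finrank_range_add_finrank_ker φ
    have h3 : Module.finrank k (LinearMap.range φ) ≤ 1 := by
      have := Submodule.finrank_le (LinearMap.range φ)
      rwa [Module.finrank_self] at this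
    rw [Module.finrank_fin_fun] at h2
    omega
  have h2 : ¬ LinearMap.ker φ ≤ Submodule.span k {a} := by
    intro h
    have h3 := Submodule.finrank_mono h
    have h4 := finrank_span_singleton (K := k) ha
    omega
  obtain ⟨b, hb, hb2⟩ := SetLike.not_le_iff_exists.mp h2
  refine ⟨b, ?_, hb⟩
  rw [LinearIndependent.pair_iff' ha]
  intro c hc
  apply hb2
  rw [Submodule.mem_span_singleton]
  exact ⟨c, hc⟩

theorem exists_loc {f : MvPolynomial (Fin 3) k} (hf : f.IsHomogeneous 6) (hs : Smooth f)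
    (hn : ∀ a b : Fin 3 → k, LinearIndependent k ![a, b] → ¬ Tgt f a b) {a : Fin 3 → k}
    (ha : a ≠ 0) (h0 : MvPolynomial.aeval a f = 0) :
    ∃ e : Fin 3 → Fin 3 → k, LinearIndependent k e ∧ e 0 = a ∧ Loc (chg e f) := by
  have hG := hs a ha h0
  obtain ⟨b, hab, hGb⟩ := exists_tan44 (fun i => MvPolynomial.aeval a (MvPolynomial.pderiv i f)) a ha
  obtain ⟨d, he⟩ := exists_third44 hab
  have c0 : cm f a b 0 = 0 := by rw [cm_zero, h0]
  have c1 : cm f a b 1 = 0 := by rw [cm_one]; exact hGb
  obtain ⟨c, hc⟩ : ∃ c : Fin 5 → k, c = fun j => cm f a b (j.val + 2) := ⟨_, rfl⟩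
  have e0 : c 0 = cm f a b 2 := by rw [hc]; rfl
  have e1 : c 1 = cm f a b 3 := by rw [hc]; rfl
  have e2 : c 2 = cm f a b 4 := by rw [hc]; rfl
  have e3 : c 3 = cm f a b 5 := by rw [hc]; rfl
  have e4 : c 4 = cm f a b 6 := by rw [hc]; rfl
  have hline : ∀ s t : k, MvPolynomial.aeval (fun i => s * a i + t * b i) f =
      t ^ 2 * QF.qu c ![s, t] := by
    intro s t
    rw [aeval_line hf, c0, c1]
    simp only [QF.qu, Matrix.cons_val_zero, Matrix.cons_val_one]
    rw [e0, e1, e2, e3, e4]
    ring
  have hqt : ∀ b' d' : Fin 3 → k, ∀ j, qt (chg ![a, b', d'] f) ![(1 : k), 0, 0] ![0, 1, 0] j =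
      cm f a b' (j.val + 2) := by
    intro b' d' j
    unfold qt
    exact (pd2_44 a b' d' f).1 _
  have hne : ¬ (∀ s t : k, QF.qu c ![s, t] = 0) := by
    intro h
    obtain ⟨s, t, hst⟩ := no_line hf hs hab
    apply hst
    rw [hline, h, mul_zero]
  obtain ⟨b0, b1, b2⟩ := base44 hf he c0 c1 hG
  by_cases hd : QF.dsc c = 0
  swap
  · refine ⟨![a, b, d], he, rfl, ⟨b0, b1, b2, Or.inl ?_⟩⟩
    have h1 : qt (chg ![a, b, d] f) ![(1 : k), 0, 0] ![0, 1, 0] = c := by
      funext j
      rw [hqt, hc]
    rw [h1]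
    exact hd
  obtain ⟨w, q0, q1, q2, hw, hq⟩ := QF.exists_double c hd
  have hq' : ∀ s t : k, QF.qu c ![s, t] = (s * w 1 - t * w 0) ^ 2 * (q0 * s ^ 2 + q1 * s * t + q2 * t ^ 2) := by
    intro s t
    have := hq ![s, t]
    simpa using this
  have hm : q0 * w 0 ^ 2 + q1 * w 0 * w 1 + q2 * w 1 ^ 2 = 0 := by
    by_contra h1
    refine hn a b hab ⟨hG, w 1, -w 0, q0, q1, q2, ?_, ?_⟩
    · intro h2
      apply h1
      linear_combination h2
    · intro s t
      rw [hline, hq']
      ring
  by_cases hw1 : w 1 = 0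
  · -- contact at `a`
    have hw0 : w 0 ≠ 0 := by
      intro h
      apply hw
      funext i
      fin_cases i
      · exact h
      · exact hw1
    have hq0 : q0 = 0 := by
      rw [hw1] at hm
      have h1 : q0 * w 0 ^ 2 = 0 := by linear_combination hm
      exact (mul_eq_zero.mp h1).resolve_right (pow_ne_zero _ hw0)
    have hcs := coeffs44 (k := k) (g0 := c 4 - w 0 ^ 2 * q2) (g1 := c 3 - w 0 ^ 2 * q1) (g2 := c 2)
      (g3 := c 1) (g4 := c 0) (g5 := 0) (g6 := 0) (by
        intro t
        have h1 := hq' t 1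
        rw [hw1, hq0] at h1
        simp only [QF.qu, Matrix.cons_val_zero, Matrix.cons_val_one] at h1
        linear_combination h1)
    obtain ⟨g4, g3, g2, g1, g0, -, -⟩ := hcs
    have q_0 : qt (chg ![a, b, d] f) ![(1 : k), 0, 0] ![0, 1, 0] 0 = 0 := by
      rw [hqt]
      exact e0 ▸ g0
    have q_1 : qt (chg ![a, b, d] f) ![(1 : k), 0, 0] ![0, 1, 0] 1 = 0 := by
      rw [hqt]
      exact e1 ▸ g1
    have q_2 : qt (chg ![a, b, d] f) ![(1 : k), 0, 0] ![0, 1, 0] 2 = 0 := by
      rw [hqt]
      exact e2 ▸ g2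
    by_cases h3 : c 3 = 0
    · refine ⟨![a, b, d], he, rfl, ⟨b0, b1, b2, Or.inr (Or.inr (Or.inr ⟨q_0, q_1, q_2, ?_, ?_⟩))⟩⟩
      · rw [hqt]
        exact e3 ▸ h3
      · rw [hqt]
        intro h4
        have h5 : c 4 = 0 := by rw [e4]; exact h4
        apply hne
        intro s t
        simp only [QF.qu]
        rw [g0, g1, g2, h3, h5]
        ring
    · refine ⟨![a, b, d], he, rfl, ⟨b0, b1, b2, Or.inr (Or.inr (Or.inl ⟨q_0, q_1, q_2, ?_⟩))⟩⟩
      rw [hqt]
      exact e3 ▸ h3
  · -- the second point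
    obtain ⟨n0, hn0⟩ : ∃ n0, n0 * w 1 = q0 := ⟨q0 / w 1, div_mul_cancel₀ _ hw1⟩
    obtain ⟨n1, hn1⟩ : ∃ n1, n1 * w 1 = q1 + w 0 * n0 := ⟨(q1 + w 0 * n0) / w 1, div_mul_cancel₀ _ hw1⟩
    have hn2 : q2 = -w 0 * n1 := by
      have h1 : w 1 ^ 2 * (q2 + w 0 * n1) = 0 := by
        have h2 : w 1 * (w 1 * (q2 + w 0 * n1)) = 0 := by
          linear_combination hm + w 0 ^ 2 * hn0 + w 0 * w 1 * hn1
        linear_combination h2
      have h2 := (mul_eq_zero.mp h1).resolve_left (pow_ne_zero _ hw1)
      linear_combination h2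
    have hq3 : ∀ s t : k, QF.qu c ![s, t] = (s * w 1 - t * w 0) ^ 3 * (n0 * s + n1 * t) := by
      intro s t
      rw [hq', ← hn0, hn2]
      have h1 : q1 = n1 * w 1 - w 0 * n0 := by linear_combination -hn1
      rw [h1]
      ring
    set b' : Fin 3 → k := fun i => w 0 * a i + w 1 * b i with hb'
    have hb'0 : b' ≠ 0 := by
      intro h
      have h1 := LinearIndependent.pair_iff.mp hab (w 0) (w 1) (by
        funext j
        have := congrFun h j
        simpa [hb'] using this)
      exact hw1 h1.2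
    have hfb' : MvPolynomial.aeval b' f = 0 := by
      rw [hb', hline, hq3]
      ring
    have hGb' := hs b' hb'0 hfb'
    by_cases hn00 : n0 = 0
    · -- case B
      have hn10 : n1 ≠ 0 := by
        intro h
        apply hne
        intro s t
        rw [hq3, hn00, h]
        ring
      have hab' : LinearIndependent k ![a, b'] := by
        rw [LinearIndependent.pair_iff]
        intro s t hst
        have h1 := LinearIndependent.pair_iff.mp hab (s + t * w 0) (t * w 1) (by
          rw [← hst]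
          funext j
          simp only [hb', Pi.add_apply, Pi.smul_apply, smul_eq_mul]
          ring)
        have ht : t = 0 := (mul_eq_zero.mp h1.2).resolve_right hw1
        refine ⟨?_, ht⟩
        have := h1.1
        rw [ht] at this
        simpa using this
      obtain ⟨d', he'⟩ := exists_third44 hab'
      have hl : ∀ s t : k, MvPolynomial.aeval (fun i => s * a i + t * b' i) f =
          w 1 ^ 6 * n1 * s ^ 3 * t ^ 3 := by
        intro s t
        have h1 : (fun i => s * a i + t * b' i) = fun i => (s + t * w 0) * a i + (t * w 1) * b i := by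
          funext i
          simp only [hb']
          ring
        rw [h1, hline, hq3, hn00]
        ring
      obtain ⟨g0, g1, g2, g3, g4, g5, g6⟩ := coeffs44 (k := k) (g0 := cm f a b' 0)
        (g1 := cm f a b' 1) (g2 := cm f a b' 2) (g3 := cm f a b' 3 - w 1 ^ 6 * n1)
        (g4 := cm f a b' 4) (g5 := cm f a b' 5) (g6 := cm f a b' 6) (by
          intro t
          have h1 := hl 1 t
          rw [aeval_line hf] at h1
          linear_combination h1)
      obtain ⟨b0', b1', b2'⟩ := base44 hf he' g0 g1 hG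
      refine ⟨![a, b', d'], he', rfl, ⟨b0', b1', b2', Or.inr (Or.inl ⟨?_, ?_, ?_, ?_, ?_, ?_⟩)⟩⟩
      · rw [hqt]
        exact g2
      · rw [hqt]
        intro h1
        have h2 : cm f a b' 3 = 0 := h1
        rw [h2] at g3
        have h3 : w 1 ^ 6 * n1 = 0 := by linear_combination -g3
        exact mul_ne_zero (pow_ne_zero _ hw1) hn10 h3
      · rw [hqt]
        exact g4
      · rw [hqt]
        exact g5
      · rw [hqt]
        exact g6
      · rw [(pd2_44 a b' d' f).2.2]
        intro h1
        obtain ⟨i, hi⟩ := hGb'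
        apply hi
        refine grad44 he' (fun i => MvPolynomial.aeval b' (MvPolynomial.pderiv i f)) ?_ i
        intro j
        fin_cases j
        · have h2 := cm_symm hf a b' (m := 1) (by norm_num)
          rw [cm_one] at h2
          exact h2.trans g5
        · have h2 := euler hf b'
          rw [hfb', mul_zero] at h2
          exact h2
        · exact h1
    · -- a tangent at `b'`
      exfalso
      have hb'a : LinearIndependent k ![b', a] := by
        rw [LinearIndependent.pair_iff]
        intro s t hst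
        have h1 := LinearIndependent.pair_iff.mp hab (s * w 0 + t) (s * w 1) (by
          rw [← hst]
          funext j
          simp only [hb', Pi.add_apply, Pi.smul_apply, smul_eq_mul]
          ring)
        have hs0 : s = 0 := (mul_eq_zero.mp h1.2).resolve_right hw1
        refine ⟨hs0, ?_⟩
        have := h1.1
        rw [hs0] at this
        simpa using this
      refine hn b' a hb'a ⟨hGb', 1, 0, 0, w 1 ^ 5 * (n0 * w 0 + n1 * w 1), w 1 ^ 5 * n0, ?_, ?_⟩
      · have h1 : w 1 ^ 5 * n0 ≠ 0 := mul_ne_zero (pow_ne_zero _ hw1) hn00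
        intro h2
        apply h1
        linear_combination h2
      · intro s t
        have h1 : (fun i => s * b' i + t * a i) = fun i => (s * w 0 + t) * a i + (s * w 1) * b i := by
          funext i
          simp only [hb']
          ring
        rw [h1, hline, hq3]
        ring

end Pool.Agent.Helper83.DP
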