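import Mathlib
import Pool.Agent.Helper9.NS
import Pool.Agent.Helper83.DP.SmD

/-!
# Block SM-EXP: the expansion of the residual quartic
Proof. (1) There are polynomials `Φ` (not involving `X 2`) and `g` with `f = Φ + X 2 * g`, where
`Φ = aeval ![X 0, X 1, 0] f` (induction on `f`; `Φ` is the value at `X 2 = 0`). So for all `x` in a
`k`-algebra `f (x) = f (x 0, x 1, 0) + x 2 * g (x)`. Let `p = (1, y, z)`, `v = (0, 1, m)`. By `aeval_line`
`f (1, T, 0) = ∑ j, c j T ^ (j + 2)` (`c j = cm f (1,0,0) (0,1,0) (j + 2)`, `h.h0`, `h.h1`). `eqz`: `0 = f (p) = f (1, y, 0) + z g (p)`,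
`U = g (p)`, its residue is `g (1,0,0) = (∂f/∂x₂) (1,0,0) = γ` (`∂f/∂x₂ = g + X 2 ∂g/∂x₂`). `eqm`: `grd f p 1 = ∂Φ/∂x₁ (1, y) + z (∂g/∂x₁) (p)`,
`V = grd f p 2`, residue `γ`; `m = - grd f p 1 / grd f p 2`. `eqq`: `cm` is linear in the form, and
`cm (X 2 * g) p v (j + 1) = z * cm g p v (j + 1) + m * cm g p v j` (multiplication by the linear polynomial `z + m X`); so
`A j = cm g p v (j + 2)`, `B j = cm g p v (j + 1)`; `A 4 = cm g p v 6 = 0` as `g` has degree five (or: `q 4 = cm f p v 6 = f (v)` by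
`cm_symm`, `cm_zero`, `f (0, 1, m) = f (0, 1, 0) + m g (0, 1, m)`, so `B 4 = g (0, 1, m)` with residue
`g (0,1,0) = (∂f/∂x₂) (0,1,0) = δ`); `cm Φ p v (j + 2)` is the coefficient of `X ^ (j + 2)` in
`∑ i, c i (y + X) ^ (i + 2)`, i.e. `∑ i ≥ j, (i+2 choose j+2) c i y ^ (i - j)`. Regularity: `isRes_cm`.
`hm`: `grd f p 1` has residue `(∂f/∂x₁) (1,0,0) = 0` (`h.h1`, `cm_one`).
-/

set_option linter.unusedSectionVars false

namespace Pool.Agent.Helper83.DP

open VC VF Function Polynomial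
open Pool.Agent.Helper51.VB

universe u

section split77

variable {k : Type u} [Field k]

/-- The value at `X 2 = 0`. -/
private noncomputable def ph77 (f : MvPolynomial (Fin 3) k) : MvPolynomial (Fin 3) k :=
  MvPolynomial.aeval ![MvPolynomial.X 0, MvPolynomial.X 1, 0] f

private lemma ph_C77 (a : k) : ph77 (MvPolynomial.C a) = MvPolynomial.C a := by
  unfold ph77
  rw [MvPolynomial.algHom_C, MvPolynomial.algebraMap_eq]

private lemma ph_add77 (f g : MvPolynomial (Fin 3) k) : ph77 (f + g) = ph77 f + ph77 g := by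
  unfold ph77
  rw [map_add]

private lemma ph_mul77 (f : MvPolynomial (Fin 3) k) (j : Fin 3) :
    ph77 (f * MvPolynomial.X j) = ph77 f * (![MvPolynomial.X 0, MvPolynomial.X 1, 0] :
      Fin 3 → MvPolynomial (Fin 3) k) j := by
  unfold ph77
  rw [map_mul, MvPolynomial.aeval_X]

private lemma exists_g77 (f : MvPolynomial (Fin 3) k) :
    ∃ g, f = ph77 f + MvPolynomial.X 2 * g := by
  induction f using MvPolynomial.induction_on with
  | C a => exact ⟨0, by rw [ph_C77, mul_zero, add_zero]⟩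
  | add f f' hf hf' =>
    obtain ⟨g, hg⟩ := hf
    obtain ⟨g', hg'⟩ := hf'
    refine ⟨g + g', ?_⟩
    rw [ph_add77]
    linear_combination hg + hg'
  | mul_X f j hf =>
    obtain ⟨g, hg⟩ := hf
    rw [ph_mul77]
    fin_cases j
    · refine ⟨g * MvPolynomial.X 0, ?_⟩
      change f * MvPolynomial.X 0 = ph77 f * MvPolynomial.X 0 + _
      linear_combination MvPolynomial.X 0 * hg
    · refine ⟨g * MvPolynomial.X 1, ?_⟩
      change f * MvPolynomial.X 1 = ph77 f * MvPolynomial.X 1 + _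
      linear_combination MvPolynomial.X 1 * hg
    · refine ⟨f, ?_⟩
      change f * MvPolynomial.X 2 = ph77 f * 0 + _
      ring

private lemma pderiv_ph77 (f : MvPolynomial (Fin 3) k) : MvPolynomial.pderiv 2 (ph77 f) = 0 := by
  induction f using MvPolynomial.induction_on with
  | C a => rw [ph_C77, MvPolynomial.pderiv_C]
  | add f f' hf hf' => rw [ph_add77, map_add, hf, hf', add_zero]
  | mul_X f j hf =>
    rw [ph_mul77, MvPolynomial.pderiv_mul, hf, zero_mul, zero_add]
    fin_cases j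
    · change _ * MvPolynomial.pderiv 2 (MvPolynomial.X 0) = 0
      rw [MvPolynomial.pderiv_X_of_ne (by decide), mul_zero]
    · change _ * MvPolynomial.pderiv 2 (MvPolynomial.X 1) = 0
      rw [MvPolynomial.pderiv_X_of_ne (by decide), mul_zero]
    · change _ * MvPolynomial.pderiv 2 (0 : MvPolynomial (Fin 3) k) = 0
      rw [map_zero, mul_zero]

private lemma aeval_ph77 {R : Type*} [CommRing R] [Algebra k R] (f : MvPolynomial (Fin 3) k)
    (x : Fin 3 → R) : MvPolynomial.aeval x (ph77 f) = MvPolynomial.aeval ![x 0, x 1, 0] f := by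
  unfold ph77
  rw [MvPolynomial.comp_aeval_apply]
  congr 2
  funext i
  fin_cases i
  · exact MvPolynomial.aeval_X _ _
  · exact MvPolynomial.aeval_X _ _
  · exact map_zero _

private lemma line77 {f : MvPolynomial (Fin 3) k} (hf : f.IsHomogeneous 6)
    (h0 : MvPolynomial.aeval ![(1 : k), 0, 0] f = 0)
    (h1 : cm f ![(1 : k), 0, 0] ![0, 1, 0] 1 = 0) {R : Type*} [CommRing R] [Algebra k R] (T : R) :
    MvPolynomial.aeval ![(1 : R), T, 0] f =
      ∑ j : Fin 5, algebraMap k R (qt f ![(1 : k), 0, 0] ![0, 1, 0] j) * T ^ (j.val + 2) := by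
  have h := aeval_line hf (fun i => Algebra.ofId k R ((![1, 0, 0] : Fin 3 → k) i))
    (fun i => Algebra.ofId k R ((![0, 1, 0] : Fin 3 → k) i)) 1 T
  simp only [cm_map] at h
  rw [cm_zero, h0, h1] at h
  have e : (fun i => (1 : R) * Algebra.ofId k R ((![1, 0, 0] : Fin 3 → k) i) +
      T * Algebra.ofId k R ((![0, 1, 0] : Fin 3 → k) i)) = ![(1 : R), T, 0] := by
    funext i
    fin_cases i <;> simp
  rw [e] at h
  rw [h, Fin.sum_univ_five]
  simp only [qt, Algebra.ofId_apply, map_zero]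
  change _ = algebraMap k R (cm f ![(1 : k), 0, 0] ![0, 1, 0] 2) * T ^ 2 +
    algebraMap k R (cm f ![(1 : k), 0, 0] ![0, 1, 0] 3) * T ^ 3 +
    algebraMap k R (cm f ![(1 : k), 0, 0] ![0, 1, 0] 4) * T ^ 4 +
    algebraMap k R (cm f ![(1 : k), 0, 0] ![0, 1, 0] 5) * T ^ 5 +
    algebraMap k R (cm f ![(1 : k), 0, 0] ![0, 1, 0] 6) * T ^ 6
  ring

private lemma cm_ph77 {f : MvPolynomial (Fin 3) k} (hf : f.IsHomogeneous 6)
    (h0 : MvPolynomial.aeval ![(1 : k), 0, 0] f = 0)
    (h1 : cm f ![(1 : k), 0, 0] ![0, 1, 0] 1 = 0) {L : Type u} [Field L] [Algebra k L]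
    (y z m : L) (n : ℕ) : cm (ph77 f) ![1, y, z] ![0, 1, m] n =
      ∑ j : Fin 5, algebraMap k L (qt f ![(1 : k), 0, 0] ![0, 1, 0] j) *
        (y ^ (j.val + 2 - n) * ((j.val + 2).choose n : L)) := by
  unfold cm
  rw [aeval_ph77]
  have e : (![C ((![1, y, z] : Fin 3 → L) 0) + X * C ((![0, 1, m] : Fin 3 → L) 0),
      C ((![1, y, z] : Fin 3 → L) 1) + X * C ((![0, 1, m] : Fin 3 → L) 1), 0] : Fin 3 → L[X]) =
      ![1, X + C y, 0] := by
    funext i
    fin_cases i
    · simp
    · simp [add_comm]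
    · simp
  rw [e, line77 hf h0 h1, Polynomial.finsetSum_coeff]
  refine Finset.sum_congr rfl fun j _ => ?_
  rw [Polynomial.algebraMap_apply, Polynomial.coeff_C_mul, Polynomial.coeff_X_add_C_pow]

private lemma cm_split77 {L : Type u} [Field L] [Algebra k L] {f g : MvPolynomial (Fin 3) k}
    (hg : f = ph77 f + MvPolynomial.X 2 * g) (p v : Fin 3 → L) (n : ℕ) :
    cm f p v (n + 1) = cm (ph77 f) p v (n + 1) +
      (p 2 * cm g p v (n + 1) + v 2 * cm g p v n) := by
  have h : MvPolynomial.aeval (fun i => C (p i) + X * C (v i)) f =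
      MvPolynomial.aeval (fun i => C (p i) + X * C (v i)) (ph77 f) +
        (C (p 2) * MvPolynomial.aeval (fun i => C (p i) + X * C (v i)) g +
          X * (C (v 2) * MvPolynomial.aeval (fun i => C (p i) + X * C (v i)) g)) := by
    conv_lhs => rw [hg]
    rw [map_add, map_mul, MvPolynomial.aeval_X]
    ring
  unfold cm
  rw [h, Polynomial.coeff_add, Polynomial.coeff_add, Polynomial.coeff_C_mul,
    Polynomial.coeff_X_mul, Polynomial.coeff_C_mul]

end split77

variable {k : Type u} [Field k] [IsAlgClosed k] [CharZero k] {L : Type u} [Field L] [Algebra k L]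

theorem exp_of_loc {f : MvPolynomial (Fin 3) k} (hf : f.IsHomogeneous 6)
    (h0 : MvPolynomial.aeval ![(1 : k), 0, 0] f = 0)
    (h1 : cm f ![(1 : k), 0, 0] ![0, 1, 0] 1 = 0)
    (hs : MvPolynomial.aeval ![(1 : k), 0, 0] (MvPolynomial.pderiv 2 f) ≠ 0)
    {P : Place k L} {y z : L} (hy0 : y ≠ 0) (hy : IsRes P y 0) (hz : IsRes P z 0)
    (hp : MvPolynomial.aeval ![1, y, z] f = 0) :
    Exp P y z (-(grd f ![1, y, z] 1 / grd f ![1, y, z] 2))
      (qt f ![(1 : k), 0, 0] ![0, 1, 0])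
      (qt f ![1, y, z] ![0, 1, -(grd f ![1, y, z] 1 / grd f ![1, y, z] 2)])
      (MvPolynomial.aeval ![(1 : k), 0, 0] (MvPolynomial.pderiv 2 f))
      (MvPolynomial.aeval ![(0 : k), 1, 0] (MvPolynomial.pderiv 2 f)) := by
  classical
  obtain ⟨g, hg⟩ := exists_g77 f
  set c : Fin 5 → k := qt f ![(1 : k), 0, 0] ![0, 1, 0] with hc
  set m : L := -(grd f ![1, y, z] 1 / grd f ![1, y, z] 2) with hm
  -- values of the parts
  have ev : ∀ {R : Type u} [Field R] [Algebra k R] (x : Fin 3 → R), MvPolynomial.aeval x f =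
      MvPolynomial.aeval ![x 0, x 1, 0] f + x 2 * MvPolynomial.aeval x g := by
    intro R _ _ x
    conv_lhs => rw [hg]
    rw [map_add, map_mul, MvPolynomial.aeval_X, aeval_ph77]
  have hd2 : MvPolynomial.pderiv 2 f = g + MvPolynomial.X 2 * MvPolynomial.pderiv 2 g := by
    conv_lhs => rw [hg]
    rw [map_add, pderiv_ph77, MvPolynomial.pderiv_mul, MvPolynomial.pderiv_X_self]
    ring
  have hd1 : MvPolynomial.pderiv 1 f =
      MvPolynomial.pderiv 1 (ph77 f) + MvPolynomial.X 2 * MvPolynomial.pderiv 1 g := by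
    conv_lhs => rw [hg]
    rw [map_add, MvPolynomial.pderiv_mul, MvPolynomial.pderiv_X_of_ne (by decide)]
    ring
  have hγg : MvPolynomial.aeval ![(1 : k), 0, 0] g =
      MvPolynomial.aeval ![(1 : k), 0, 0] (MvPolynomial.pderiv 2 f) := by
    rw [hd2, map_add, map_mul, MvPolynomial.aeval_X]
    simp
  have hδg : MvPolynomial.aeval ![(0 : k), 1, 0] g =
      MvPolynomial.aeval ![(0 : k), 1, 0] (MvPolynomial.pderiv 2 f) := by
    rw [hd2, map_add, map_mul, MvPolynomial.aeval_X]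
    simp
  -- residues
  have hp0 : ∀ i, IsRes P ((![1, y, z] : Fin 3 → L) i) ((![(1 : k), 0, 0]) i) := by
    intro i
    fin_cases i
    · exact isRes_one
    · exact hy
    · exact hz
  have hev : ∀ F : MvPolynomial (Fin 3) k, IsRes P (MvPolynomial.aeval ![1, y, z] F)
      (MvPolynomial.aeval ![(1 : k), 0, 0] F) := by
    intro F
    have := isRes_cm F hp0 hp0 0
    rwa [cm_zero, cm_zero] at this
  have hg2 : IsRes P (grd f ![1, y, z] 2)
      (MvPolynomial.aeval ![(1 : k), 0, 0] (MvPolynomial.pderiv 2 f)) := hev _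
  have hg1 : IsRes P (grd f ![1, y, z] 1) 0 := by
    have h2 := hev (MvPolynomial.pderiv 1 f)
    have h3 : MvPolynomial.aeval ![(1 : k), 0, 0] (MvPolynomial.pderiv 1 f) = 0 := by
      have h4 := h1
      rw [cm_one, Fin.sum_univ_three] at h4
      simpa using h4
    rwa [h3] at h2
  obtain ⟨hg2ne, hg2inv⟩ := hg2.inv_mem hs
  have hmres : IsRes P m 0 := by
    have h2 : IsRes P (grd f ![1, y, z] 1 / grd f ![1, y, z] 2) 0 := by
      rw [isRes_zero_iff, div_eq_mul_inv, mul_comm]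
      exact nonunits_mul hg2inv (isRes_zero_iff.1 hg1)
    have h3 := h2.neg
    rwa [neg_zero] at h3
  have hv0 : ∀ i, IsRes P ((![0, 1, m] : Fin 3 → L) i) ((![(0 : k), 1, 0]) i) := by
    intro i
    fin_cases i
    · exact isRes_zero
    · exact isRes_one
    · exact hmres
  have hcmg : ∀ n, cm g ![1, y, z] ![0, 1, m] n ∈ P.ring := fun n =>
    (isRes_cm g hp0 hv0 n).mem
  have hB4 : IsRes P (MvPolynomial.aeval ![0, 1, m] g)
      (MvPolynomial.aeval ![(0 : k), 1, 0] (MvPolynomial.pderiv 2 f)) := by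
    rw [← hδg]
    have := isRes_cm g hv0 hv0 0
    rwa [cm_zero, cm_zero] at this
  -- the coefficients of the restriction
  have hq : ∀ n, cm f ![1, y, z] ![0, 1, m] (n + 1) =
      ∑ j : Fin 5, algebraMap k L (c j) * (y ^ (j.val + 2 - (n + 1)) *
        ((j.val + 2).choose (n + 1) : L)) +
        (z * cm g ![1, y, z] ![0, 1, m] (n + 1) + m * cm g ![1, y, z] ![0, 1, m] n) := by
    intro n
    rw [cm_split77 hg, cm_ph77 hf h0 h1]
    rfl
  have hq4 : cm f ![1, y, z] ![0, 1, m] 6 =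
      algebraMap k L (c 4) + m * MvPolynomial.aeval ![0, 1, m] g := by
    have h2 : cm f ![1, y, z] ![0, 1, m] 6 = MvPolynomial.aeval ![0, 1, m] f := by
      rw [← cm_zero f ![0, 1, m] ![1, y, z], cm_symm hf _ _ (by norm_num)]
    have h3 : MvPolynomial.aeval ![(0 : L), 1, 0] f = algebraMap k L (c 4) := by
      have h4 : c 4 = MvPolynomial.aeval ![(0 : k), 1, 0] f := by
        rw [← cm_zero f ![0, 1, 0] ![(1 : k), 0, 0], cm_symm hf _ _ (by norm_num)]
        rfl
      rw [h4, ← Algebra.ofId_apply, MvPolynomial.comp_aeval_apply]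
      congr 2
      funext i
      fin_cases i <;> simp
    rw [h2, ev, ← h3]
    rfl
  refine ⟨hy0, hy, hz, hmres, hs, ?_, ?_, ?_⟩
  · refine ⟨MvPolynomial.aeval ![1, y, z] g, ?_, ?_⟩
    · rw [← hγg]
      exact hev g
    · have h2 := ev (![1, y, z] : Fin 3 → L)
      rw [hp] at h2
      have h3 : MvPolynomial.aeval ![(![1, y, z] : Fin 3 → L) 0, (![1, y, z] : Fin 3 → L) 1, 0] f =
          MvPolynomial.aeval ![(1 : L), y, 0] f := rfl
      rw [h3, line77 hf h0 h1, Fin.sum_univ_five] at h2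
      change (0 : L) = (algebraMap k L (c 0) * y ^ 2 + algebraMap k L (c 1) * y ^ 3 +
        algebraMap k L (c 2) * y ^ 4 + algebraMap k L (c 3) * y ^ 5 +
        algebraMap k L (c 4) * y ^ 6) + z * MvPolynomial.aeval ![1, y, z] g at h2
      linear_combination (-1 : L) * h2
  · refine ⟨grd f ![1, y, z] 2, MvPolynomial.aeval ![1, y, z] (MvPolynomial.pderiv 1 g), hg2,
      (hev _).mem, ?_⟩
    have h2 : m * grd f ![1, y, z] 2 = -grd f ![1, y, z] 1 := by
      rw [hm, neg_mul, div_mul_cancel₀ _ hg2ne]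
    have h3 : grd f ![1, y, z] 1 = MvPolynomial.aeval ![1, y, z] (MvPolynomial.pderiv 1 (ph77 f)) +
        z * MvPolynomial.aeval ![1, y, z] (MvPolynomial.pderiv 1 g) := by
      unfold grd
      rw [hd1, map_add, map_mul, MvPolynomial.aeval_X]
      rfl
    have h4 : MvPolynomial.aeval ![1, y, z] (MvPolynomial.pderiv 1 (ph77 f)) =
        2 * algebraMap k L (c 0) * y + 3 * algebraMap k L (c 1) * y ^ 2 +
          4 * algebraMap k L (c 2) * y ^ 3 + 5 * algebraMap k L (c 3) * y ^ 4 +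
          6 * algebraMap k L (c 4) * y ^ 5 := by
      have h5 := cm_ph77 hf h0 h1 y z 0 1
      rw [cm_one, Fin.sum_univ_three, Fin.sum_univ_five] at h5
      change (0 : L) * _ + 1 * MvPolynomial.aeval ![1, y, z] (MvPolynomial.pderiv 1 (ph77 f)) +
        0 * _ = algebraMap k L (c 0) * (y ^ 1 * ((2 : ℕ) : L)) +
          algebraMap k L (c 1) * (y ^ 2 * ((3 : ℕ) : L)) +
          algebraMap k L (c 2) * (y ^ 3 * ((4 : ℕ) : L)) +
          algebraMap k L (c 3) * (y ^ 4 * ((5 : ℕ) : L)) +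
          algebraMap k L (c 4) * (y ^ 5 * ((6 : ℕ) : L)) at h5
      push_cast at h5
      linear_combination h5
    rw [h2, h3, h4]
  · refine ⟨fun j => cm g ![1, y, z] ![0, 1, m] (j.val + 2),
      fun j => if j = 4 then MvPolynomial.aeval ![0, 1, m] g else
        cm g ![1, y, z] ![0, 1, m] (j.val + 1), fun j => hcmg _, fun j => ?_, ?_, ?_, ?_, ?_, ?_, ?_⟩
    · by_cases hj : j = 4
      · simp only [hj, if_true]
        exact hB4.mem
      · simp only [hj, if_false]
        exact hcmg _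
    · simp only [if_true]
      exact hB4
    · have h2 := hq 1
      rw [Fin.sum_univ_five] at h2
      change cm f ![1, y, z] ![0, 1, m] 2 = algebraMap k L (c 0) * (y ^ 0 * ((1 : ℕ) : L)) +
          algebraMap k L (c 1) * (y ^ 1 * ((3 : ℕ) : L)) +
          algebraMap k L (c 2) * (y ^ 2 * ((6 : ℕ) : L)) +
          algebraMap k L (c 3) * (y ^ 3 * ((10 : ℕ) : L)) +
          algebraMap k L (c 4) * (y ^ 4 * ((15 : ℕ) : L)) +
          (z * cm g ![1, y, z] ![0, 1, m] 2 + m * cm g ![1, y, z] ![0, 1, m] 1) at h2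
      push_cast at h2
      change cm f ![1, y, z] ![0, 1, m] 2 = algebraMap k L (c 0) + 3 * algebraMap k L (c 1) * y +
        6 * algebraMap k L (c 2) * y ^ 2 + 10 * algebraMap k L (c 3) * y ^ 3 +
        15 * algebraMap k L (c 4) * y ^ 4 + z * cm g ![1, y, z] ![0, 1, m] 2 +
        m * cm g ![1, y, z] ![0, 1, m] 1
      linear_combination h2
    · have h2 := hq 2
      rw [Fin.sum_univ_five] at h2
      change cm f ![1, y, z] ![0, 1, m] 3 = algebraMap k L (c 0) * (y ^ 0 * ((0 : ℕ) : L)) +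
          algebraMap k L (c 1) * (y ^ 0 * ((1 : ℕ) : L)) +
          algebraMap k L (c 2) * (y ^ 1 * ((4 : ℕ) : L)) +
          algebraMap k L (c 3) * (y ^ 2 * ((10 : ℕ) : L)) +
          algebraMap k L (c 4) * (y ^ 3 * ((20 : ℕ) : L)) +
          (z * cm g ![1, y, z] ![0, 1, m] 3 + m * cm g ![1, y, z] ![0, 1, m] 2) at h2
      push_cast at h2
      change cm f ![1, y, z] ![0, 1, m] 3 = algebraMap k L (c 1) + 4 * algebraMap k L (c 2) * y +
        10 * algebraMap k L (c 3) * y ^ 2 + 20 * algebraMap k L (c 4) * y ^ 3 +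
        z * cm g ![1, y, z] ![0, 1, m] 3 + m * cm g ![1, y, z] ![0, 1, m] 2
      linear_combination h2
    · have h2 := hq 3
      rw [Fin.sum_univ_five] at h2
      change cm f ![1, y, z] ![0, 1, m] 4 = algebraMap k L (c 0) * (y ^ 0 * ((0 : ℕ) : L)) +
          algebraMap k L (c 1) * (y ^ 0 * ((0 : ℕ) : L)) +
          algebraMap k L (c 2) * (y ^ 0 * ((1 : ℕ) : L)) +
          algebraMap k L (c 3) * (y ^ 1 * ((5 : ℕ) : L)) +
          algebraMap k L (c 4) * (y ^ 2 * ((15 : ℕ) : L)) +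
          (z * cm g ![1, y, z] ![0, 1, m] 4 + m * cm g ![1, y, z] ![0, 1, m] 3) at h2
      push_cast at h2
      change cm f ![1, y, z] ![0, 1, m] 4 = algebraMap k L (c 2) + 5 * algebraMap k L (c 3) * y +
        15 * algebraMap k L (c 4) * y ^ 2 + z * cm g ![1, y, z] ![0, 1, m] 4 +
        m * cm g ![1, y, z] ![0, 1, m] 3
      linear_combination h2
    · have h2 := hq 4
      rw [Fin.sum_univ_five] at h2
      change cm f ![1, y, z] ![0, 1, m] 5 = algebraMap k L (c 0) * (y ^ 0 * ((0 : ℕ) : L)) +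
          algebraMap k L (c 1) * (y ^ 0 * ((0 : ℕ) : L)) +
          algebraMap k L (c 2) * (y ^ 0 * ((0 : ℕ) : L)) +
          algebraMap k L (c 3) * (y ^ 0 * ((1 : ℕ) : L)) +
          algebraMap k L (c 4) * (y ^ 1 * ((6 : ℕ) : L)) +
          (z * cm g ![1, y, z] ![0, 1, m] 5 + m * cm g ![1, y, z] ![0, 1, m] 4) at h2
      push_cast at h2
      change cm f ![1, y, z] ![0, 1, m] 5 = algebraMap k L (c 3) + 6 * algebraMap k L (c 4) * y +
        z * cm g ![1, y, z] ![0, 1, m] 5 + m * cm g ![1, y, z] ![0, 1, m] 4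
      linear_combination h2
    · simp only [if_true]
      exact hq4

end Pool.Agent.Helper83.DP
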