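import Mathlib
import Pool.Agent.Helper9.NS
import Pool.Agent.Helper83.DP.SmD

/-!
# Block SM-TR: change of coordinates
Proof. Let `M` be the matrix with `M j i = e i j` (over `L`), `Δ = det M ≠ 0` in `k`, `F = chg e f`, `v = vG f p`,
`v' = vG F p'`; `p = c M p'`. `aeval_chg`: `F (x) = f (M x)`, so `∇F (p') = Mᵀ ∇f (M p')` (chain rule; e.g. from `cm_one` for
`v = M w`: `cm F p' w 1 = cm f (M p') (M w) 1` for all `w`), and `∇f (p) = c ^ 5 ∇f (M p')` (`pderiv i f` is homogeneous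
of degree five). For vectors with first coordinate `1` of the point, `euler` gives `p × v = ∇f (p)`,
`p' × v' = ∇F (p')`. Since `(M a) × (M b) = Δ (Mᵀ)⁻¹ (a × b)`, `p × (M v') = c Δ (Mᵀ)⁻¹ ∇F (p') = c Δ ∇f (M p') = c ^ (-4) Δ (p × v)`,
so `v = (c ^ 4 / Δ) M v' + β p` for some `β` (vectors with zero vector product with `p ≠ 0`; the third coordinate: solve
explicitly from `p 0 = 1`: `β` is determined by the first coordinate, `0 = (c ^ 4 / Δ) (M v') 0 + β`). Put `α = c ^ 4 / Δ`. For all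
`s`, `t`: `f (s p + t v) = f ((s + β t) p + α t M v') = F ((s + β t) c p' + α t v')`. With `aeval_line` and
`cm _ _ _ 0 = cm _ _ _ 1 = 0` for both: `q (s, t) = α ^ 2 q' (c (s + β t), α t)`, where `q = qt f p v`, `q' = qt F p' v'` (coefficients of
polynomials in `t` for `s = 1`, `L` is infinite; `Shf.lean` is a similar computation). So `q 0 = α ^ 2 c ^ 4 q' 0` and
`dsc q = α ^ 12 (c α) ^ 12 dsc q'` (`ring` after substituting the coefficients:
`q 0 = α² c⁴ q'0`, `q 1 = α² (4 c⁴ β q'0 + c³ α q'1)`, `q 2 = α² (6 c⁴ β² q'0 + 3 c³ α β q'1 + c² α² q'2)`, …).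
-/

set_option linter.unusedSectionVars false

namespace Pool.Agent.Helper83.DP

open VC VF Function Polynomial
open Pool.Agent.Helper51.VB

universe u

variable {k : Type u} [Field k] [IsAlgClosed k] [CharZero k] {L : Type u} [Field L] [Algebra k L]

/-! ### Auxiliary facts -/

private lemma cm_chg29 {R : Type*} [CommRing R] [Algebra k R] (e : Fin 3 → Fin 3 → k)
    (f : MvPolynomial (Fin 3) k) (p v : Fin 3 → R) (m : ℕ) :
    cm (chg e f) p v m = cm f (fun j => ∑ i, algebraMap k R (e i j) * p i)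
      (fun j => ∑ i, algebraMap k R (e i j) * v i) m := by
  unfold cm
  rw [aeval_chg]
  congr 3
  funext j
  rw [map_sum, map_sum, Finset.mul_sum, ← Finset.sum_add_distrib]
  refine Finset.sum_congr rfl fun i _ => ?_
  rw [Polynomial.C_mul, Polynomial.C_mul, IsScalarTower.algebraMap_apply k R R[X],
    Polynomial.algebraMap_eq]
  ring

/-- The chain rule. -/
private lemma grd_chg29 (e : Fin 3 → Fin 3 → k) (f : MvPolynomial (Fin 3) k) (p : Fin 3 → L)
    (i : Fin 3) : grd (chg e f) p i =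
      ∑ j, algebraMap k L (e i j) * grd f (fun j => ∑ i, algebraMap k L (e i j) * p i) j := by
  have h1 := cm_one (chg e f) p (Pi.single i (1 : L))
  rw [cm_chg29, cm_one] at h1
  have h2 : ∑ l, (Pi.single i (1 : L) : Fin 3 → L) l *
      MvPolynomial.aeval p (MvPolynomial.pderiv l (chg e f)) = grd (chg e f) p i := by
    rw [Finset.sum_eq_single i]
    · rw [Pi.single_eq_same, one_mul]
      rfl
    · intro l _ hl
      rw [Pi.single_eq_of_ne hl, zero_mul]
    · intro h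
      exact absurd (Finset.mem_univ _) h
  rw [h2] at h1
  rw [← h1]
  refine Finset.sum_congr rfl fun j _ => ?_
  have h3 : ∑ l, algebraMap k L (e l j) * (Pi.single i (1 : L) : Fin 3 → L) l =
      algebraMap k L (e i j) := by
    rw [Finset.sum_eq_single i]
    · rw [Pi.single_eq_same, mul_one]
    · intro l _ hl
      rw [Pi.single_eq_of_ne hl, mul_zero]
    · intro h
      exact absurd (Finset.mem_univ _) h
  rw [h3]
  rfl

/-- The gradient is homogeneous of degree five. -/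
private lemma grd_smul29 {f : MvPolynomial (Fin 3) k} (hf : f.IsHomogeneous 6) (p : Fin 3 → L)
    (c : L) (i : Fin 3) : grd f (fun j => c * p j) i = c ^ 5 * grd f p i := by
  unfold grd
  have h1 : (MvPolynomial.pderiv i f).IsHomogeneous 5 := hf.pderiv
  rw [MvPolynomial.aeval_def, MvPolynomial.aeval_def, MvPolynomial.eval₂_eq',
    MvPolynomial.eval₂_eq', Finset.mul_sum]
  refine Finset.sum_congr rfl fun d hd => ?_
  have h2 : ∑ j, d j = 5 := by
    have := h1 (MvPolynomial.mem_support_iff.mp hd)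
    rw [Finsupp.weight_apply, Finsupp.sum_fintype _ _ (fun i => by simp)] at this
    simpa using this
  have h3 : ∏ j, (c * p j) ^ d j = c ^ 5 * ∏ j, p j ^ d j := by
    simp only [mul_pow]
    rw [Finset.prod_mul_distrib, Finset.prod_pow_eq_pow_sum, h2]
  rw [h3]
  ring

/-- Polynomial functions of degree at most six which vanish. -/
private lemma pz29 [CharZero L] (a : Fin 7 → L) (h : ∀ t : L, ∑ i, a i * t ^ (i : ℕ) = 0)
    (i : Fin 7) : a i = 0 := by
  have h1 : (∑ i : Fin 7, C (a i) * X ^ (i : ℕ) : L[X]) = 0 := by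
    apply Polynomial.funext
    intro t
    rw [eval_finsetSum, eval_zero, ← h t]
    refine Finset.sum_congr rfl fun i _ => ?_
    rw [eval_mul, eval_C, eval_pow, eval_X]
  have h2 := congrArg (fun P : L[X] => P.coeff (i : ℕ)) h1
  simp only [finsetSum_coeff, coeff_C_mul_X_pow, coeff_zero] at h2
  rw [Finset.sum_eq_single i] at h2
  · simpa using h2
  · intro j _ hj
    rw [if_neg]
    intro e
    exact hj (Fin.ext e.symm)
  · intro h3
    exact absurd (Finset.mem_univ i) h3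

/-- The determinant. -/
private lemma det29 {e : Fin 3 → Fin 3 → k} (he : LinearIndependent k e) :
    e 0 0 * (e 1 1 * e 2 2 - e 1 2 * e 2 1) + e 0 1 * (e 1 2 * e 2 0 - e 1 0 * e 2 2) +
      e 0 2 * (e 1 0 * e 2 1 - e 1 1 * e 2 0) ≠ 0 := by
  have h1 : IsUnit (Matrix.of e) := Matrix.linearIndependent_rows_iff_isUnit.mp he
  have h2 := (Matrix.isUnit_iff_isUnit_det _).mp h1
  have h3 := h2.ne_zero
  rw [Matrix.det_fin_three] at h3
  intro h
  apply h3
  simp only [Matrix.of_apply]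
  linear_combination h

/-- The coefficients in the other coordinates. -/
private lemma line29 [CharZero L] {f F : MvPolynomial (Fin 3) k} (hf : f.IsHomogeneous 6)
    (hF : F.IsHomogeneous 6) {p v p' v' : Fin 3 → L} {c α β : L}
    (h0 : cm f p v 0 = 0) (h1 : cm f p v 1 = 0) (h0' : cm F p' v' 0 = 0) (h1' : cm F p' v' 1 = 0)
    (h : ∀ t : L, MvPolynomial.aeval (fun i => 1 * p i + t * v i) f =
      MvPolynomial.aeval (fun i => (c * (1 + β * t)) * p' i + (α * t) * v' i) F) :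
    cm f p v 2 = α ^ 2 * (c ^ 4 * cm F p' v' 2) ∧
    cm f p v 3 = α ^ 2 * (4 * c ^ 4 * β * cm F p' v' 2 + c ^ 3 * α * cm F p' v' 3) ∧
    cm f p v 4 = α ^ 2 * (6 * c ^ 4 * β ^ 2 * cm F p' v' 2 + 3 * c ^ 3 * α * β * cm F p' v' 3 +
      c ^ 2 * α ^ 2 * cm F p' v' 4) ∧
    cm f p v 5 = α ^ 2 * (4 * c ^ 4 * β ^ 3 * cm F p' v' 2 +
      3 * c ^ 3 * α * β ^ 2 * cm F p' v' 3 + 2 * c ^ 2 * α ^ 2 * β * cm F p' v' 4 +
      c * α ^ 3 * cm F p' v' 5) ∧
    cm f p v 6 = α ^ 2 * (c ^ 4 * β ^ 4 * cm F p' v' 2 + c ^ 3 * α * β ^ 3 * cm F p' v' 3 +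
      c ^ 2 * α ^ 2 * β ^ 2 * cm F p' v' 4 + c * α ^ 3 * β * cm F p' v' 5 +
      α ^ 4 * cm F p' v' 6) := by
  have hk : ∀ i : Fin 7, (![0, 0, cm f p v 2 - α ^ 2 * (c ^ 4 * cm F p' v' 2),
      cm f p v 3 - α ^ 2 * (4 * c ^ 4 * β * cm F p' v' 2 + c ^ 3 * α * cm F p' v' 3),
      cm f p v 4 - α ^ 2 * (6 * c ^ 4 * β ^ 2 * cm F p' v' 2 + 3 * c ^ 3 * α * β * cm F p' v' 3 +
        c ^ 2 * α ^ 2 * cm F p' v' 4),
      cm f p v 5 - α ^ 2 * (4 * c ^ 4 * β ^ 3 * cm F p' v' 2 +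
        3 * c ^ 3 * α * β ^ 2 * cm F p' v' 3 + 2 * c ^ 2 * α ^ 2 * β * cm F p' v' 4 +
        c * α ^ 3 * cm F p' v' 5),
      cm f p v 6 - α ^ 2 * (c ^ 4 * β ^ 4 * cm F p' v' 2 + c ^ 3 * α * β ^ 3 * cm F p' v' 3 +
        c ^ 2 * α ^ 2 * β ^ 2 * cm F p' v' 4 + c * α ^ 3 * β * cm F p' v' 5 +
        α ^ 4 * cm F p' v' 6)] : Fin 7 → L) i = 0 := by
    apply pz29
    intro t
    have e1 := h t
    rw [aeval_line hf, aeval_line hF, h0, h1, h0', h1'] at e1
    simp only [Fin.sum_univ_succ, Fin.sum_univ_zero, Matrix.cons_val_zero, Matrix.cons_val_succ,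
      Fin.val_zero, Fin.val_succ]
    linear_combination e1
  exact ⟨sub_eq_zero.mp (hk 2), sub_eq_zero.mp (hk 3), sub_eq_zero.mp (hk 4),
    sub_eq_zero.mp (hk 5), sub_eq_zero.mp (hk 6)⟩

/-- The discriminant in the other coordinates. -/
private lemma dsc29 {R : Type*} [CommRing R] (q q' : Fin 5 → R) (c α β : R)
    (e0 : q 0 = α ^ 2 * (c ^ 4 * q' 0))
    (e1 : q 1 = α ^ 2 * (4 * c ^ 4 * β * q' 0 + c ^ 3 * α * q' 1))
    (e2 : q 2 = α ^ 2 * (6 * c ^ 4 * β ^ 2 * q' 0 + 3 * c ^ 3 * α * β * q' 1 +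
      c ^ 2 * α ^ 2 * q' 2))
    (e3 : q 3 = α ^ 2 * (4 * c ^ 4 * β ^ 3 * q' 0 + 3 * c ^ 3 * α * β ^ 2 * q' 1 +
      2 * c ^ 2 * α ^ 2 * β * q' 2 + c * α ^ 3 * q' 3))
    (e4 : q 4 = α ^ 2 * (c ^ 4 * β ^ 4 * q' 0 + c ^ 3 * α * β ^ 3 * q' 1 +
      c ^ 2 * α ^ 2 * β ^ 2 * q' 2 + c * α ^ 3 * β * q' 3 + α ^ 4 * q' 4)) :
    QF.dsc q = α ^ 24 * c ^ 12 * QF.dsc q' := by
  have hI : QF.bI q = α ^ 8 * c ^ 4 * QF.bI q' := by
    unfold QF.bI
    rw [e0, e1, e2, e3, e4]
    ring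
  have hJ : QF.bJ q = α ^ 12 * c ^ 6 * QF.bJ q' := by
    unfold QF.bJ
    rw [e0, e1, e2, e3, e4]
    ring
  unfold QF.dsc
  rw [hI, hJ]
  ring

theorem tr_qt {f : MvPolynomial (Fin 3) k} (hf : f.IsHomogeneous 6) {e : Fin 3 → Fin 3 → k}
    (he : LinearIndependent k e) {p p' : Fin 3 → L} {c : L} (hc : c ≠ 0) (h0 : p 0 = 1)
    (h0' : p' 0 = 1) (hp : ∀ j, p j = c * ∑ i, algebraMap k L (e i j) * p' i)
    (hz : MvPolynomial.aeval p f = 0) :
    ∃ Δ : k, Δ ≠ 0 ∧
      qt f p (vG f p) 0 = c ^ 12 / algebraMap k L Δ ^ 2 * qt (chg e f) p' (vG (chg e f) p') 0 ∧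
      QF.dsc (qt f p (vG f p)) = c ^ 108 / algebraMap k L Δ ^ 24 *
        QF.dsc (qt (chg e f) p' (vG (chg e f) p')) := by
  have : CharZero L := charZero_of_injective_algebraMap (algebraMap k L).injective
  set Δ : k := e 0 0 * (e 1 1 * e 2 2 - e 1 2 * e 2 1) +
    e 0 1 * (e 1 2 * e 2 0 - e 1 0 * e 2 2) + e 0 2 * (e 1 0 * e 2 1 - e 1 1 * e 2 0) with hΔd
  have hΔ : Δ ≠ 0 := det29 he
  have hΔL : algebraMap k L Δ ≠ 0 := by
    intro h
    exact hΔ ((algebraMap k L).injective (by rw [h, map_zero]))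
  refine ⟨Δ, hΔ, ?_⟩
  set F := chg e f with hFd
  have hF : F.IsHomogeneous 6 := chg_hom e hf
  set E : Fin 3 → Fin 3 → L := fun i j => algebraMap k L (e i j) with hE
  have hp' : p = fun j => c * ∑ i, E i j * p' i := funext hp
  have hDE : algebraMap k L Δ = E 0 0 * (E 1 1 * E 2 2 - E 1 2 * E 2 1) +
      E 0 1 * (E 1 2 * E 2 0 - E 1 0 * E 2 2) + E 0 2 * (E 1 0 * E 2 1 - E 1 1 * E 2 0) := by
    rw [hΔd]
    simp only [map_add, map_sub, map_mul, hE]
  -- the gradients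
  have hG : ∀ i, c ^ 5 * grd F p' i = ∑ j, E i j * grd f p j := by
    intro i
    rw [hFd, grd_chg29, Finset.mul_sum]
    refine Finset.sum_congr rfl fun j _ => ?_
    rw [hp', grd_smul29 hf]
    ring
  have hz' : MvPolynomial.aeval p' F = 0 := by
    have h1 : c ^ 6 * MvPolynomial.aeval p' F = 0 := by
      rw [← hz, hFd, aeval_chg, hp']
      exact (aeval_smul hf c _).symm
    rcases mul_eq_zero.mp h1 with h2 | h2
    · exact absurd h2 (pow_ne_zero 6 hc)
    · exact h2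
  have hEu : grd f p 0 + p 1 * grd f p 1 + p 2 * grd f p 2 = 0 := by
    have h1 := euler hf p
    rw [hz, mul_zero, Fin.sum_univ_three, h0, one_mul] at h1
    exact h1
  have c0 : cm f p (vG f p) 0 = 0 := by rw [cm_zero, hz]
  have c1 : cm f p (vG f p) 1 = 0 := by
    rw [cm_one, Fin.sum_univ_three]
    change 0 * grd f p 0 + grd f p 2 * grd f p 1 + -grd f p 1 * grd f p 2 = 0
    ring
  have c0' : cm F p' (vG F p') 0 = 0 := by rw [cm_zero, hz']
  have c1' : cm F p' (vG F p') 1 = 0 := by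
    rw [cm_one, Fin.sum_univ_three]
    change 0 * grd F p' 0 + grd F p' 2 * grd F p' 1 + -grd F p' 1 * grd F p' 2 = 0
    ring
  set α : L := c ^ 4 / algebraMap k L Δ with hα
  set K0 := E 1 1 * E 2 2 - E 1 2 * E 2 1 with hK0
  set K1 := E 1 2 * E 2 0 - E 1 0 * E 2 2 with hK1
  set K2 := E 1 0 * E 2 1 - E 1 1 * E 2 0 with hK2
  set β : L := (K1 * grd f p 2 - K2 * grd f p 1) / (c * algebraMap k L Δ) with hβ
  have hG1 := hG 1
  have hG2 := hG 2
  rw [Fin.sum_univ_three] at hG1 hG2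
  have q0 := hp 0
  have q1 := hp 1
  have q2 := hp 2
  rw [Fin.sum_univ_three] at q0 q1 q2
  change p 0 = c * (E 0 0 * p' 0 + E 1 0 * p' 1 + E 2 0 * p' 2) at q0
  change p 1 = c * (E 0 1 * p' 0 + E 1 1 * p' 1 + E 2 1 * p' 2) at q1
  change p 2 = c * (E 0 2 * p' 0 + E 1 2 * p' 1 + E 2 2 * p' 2) at q2
  have hpK : p 0 * K0 + p 1 * K1 + p 2 * K2 = c * algebraMap k L Δ := by
    rw [q0, q1, q2, hDE, hK0, hK1, hK2, h0']
    ring
  rw [h0, one_mul] at hpK
  have hv : ∀ j, c * algebraMap k L Δ * vG f p j = c ^ 5 * (∑ i, E i j * vG F p' i) +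
      (K1 * grd f p 2 - K2 * grd f p 1) * p j := by
    intro j
    rw [Fin.sum_univ_three]
    change _ = c ^ 5 * (E 0 j * 0 + E 1 j * grd F p' 2 + E 2 j * -grd F p' 1) + _
    have e1 : c ^ 5 * (E 0 j * 0 + E 1 j * grd F p' 2 + E 2 j * -grd F p' 1) =
        E 1 j * (c ^ 5 * grd F p' 2) - E 2 j * (c ^ 5 * grd F p' 1) := by ring
    rw [e1, hG1, hG2, ← hpK]
    fin_cases j
    · change (K0 + p 1 * K1 + p 2 * K2) * 0 = E 1 0 * _ - E 2 0 * _ + _ * p 0
      rw [h0, hK1, hK2]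
      ring
    · change (K0 + p 1 * K1 + p 2 * K2) * grd f p 2 = E 1 1 * _ - E 2 1 * _ + _ * p 1
      rw [hK0, hK1, hK2]
      linear_combination (E 1 0 * E 2 1 - E 1 1 * E 2 0) * hEu
    · change (K0 + p 1 * K1 + p 2 * K2) * -grd f p 1 = E 1 2 * _ - E 2 2 * _ + _ * p 2
      rw [hK0, hK1, hK2]
      linear_combination -(E 1 2 * E 2 0 - E 1 0 * E 2 2) * hEu
  have hcd : c * algebraMap k L Δ ≠ 0 := mul_ne_zero hc hΔL
  have hv' : ∀ j, vG f p j = α * (∑ i, E i j * vG F p' i) + β * p j := by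
    intro j
    apply mul_left_cancel₀ hcd
    rw [hv j, hα, hβ]
    field_simp
  have hline : ∀ t : L, MvPolynomial.aeval (fun i => 1 * p i + t * vG f p i) f =
      MvPolynomial.aeval (fun i => (c * (1 + β * t)) * p' i + (α * t) * vG F p' i) F := by
    intro t
    rw [hFd, aeval_chg]
    congr 2
    funext j
    rw [hv' j, hp j]
    simp only [mul_add, Finset.sum_add_distrib]
    have e1 : ∀ (a : L) (x : Fin 3 → L), ∑ i, algebraMap k L (e i j) * (a * x i) =
        a * ∑ i, algebraMap k L (e i j) * x i := by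
      intro a x
      rw [Finset.mul_sum]
      refine Finset.sum_congr rfl fun i _ => ?_
      ring
    have e2 : ∑ i, algebraMap k L (e i j) * ((c * 1 + c * (β * t)) * p' i) =
        (c * 1 + c * (β * t)) * ∑ i, algebraMap k L (e i j) * p' i := e1 _ _
    have e3 : ∑ i, algebraMap k L (e i j) * (α * t * vG (chg e f) p' i) =
        (α * t) * ∑ i, algebraMap k L (e i j) * vG (chg e f) p' i := e1 _ _
    rw [e2, e3]
    simp only [hE, hFd]
    ring
  obtain ⟨d0, d1, d2, d3, d4⟩ := line29 hf hF c0 c1 c0' c1' hline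
  constructor
  · change cm f p (vG f p) 2 = _ * cm F p' (vG F p') 2
    rw [d0, hα]
    field_simp
  · rw [dsc29 (qt f p (vG f p)) (qt F p' (vG F p')) c α β d0 d1 d2 d3 d4, hα]
    field_simp

/-- Multiples of the direction. -/
theorem qt_smul {f : MvPolynomial (Fin 3) k} (p v : Fin 3 → L) (l : L) :
    qt f p (fun i => l * v i) 0 = l ^ 2 * qt f p v 0 ∧
      QF.dsc (qt f p (fun i => l * v i)) = l ^ 24 * QF.dsc (qt f p v) := by
  have h : ∀ m, cm f p (fun i => l * v i) m = l ^ m * cm f p v m := by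
    intro m
    have h1 : (MvPolynomial.aeval (fun i => C (p i) + X * C (l * v i)) f : L[X]) =
        (MvPolynomial.aeval (fun i => C (p i) + X * C (v i)) f : L[X]).comp (C l * X) := by
      have h2 := MvPolynomial.comp_aeval_apply
        (φ := (Polynomial.aeval (C l * X : L[X])).restrictScalars k)
        (f := fun i => C (p i) + X * C (v i)) f
      have h3 : (MvPolynomial.aeval (fun i => C (p i) + X * C (v i)) f : L[X]).comp (C l * X) =
          (Polynomial.aeval (C l * X : L[X])).restrictScalars k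
            (MvPolynomial.aeval (fun i => C (p i) + X * C (v i)) f : L[X]) := rfl
      rw [h3, h2]
      congr 2
      funext i
      rw [AlgHom.restrictScalars_apply]
      simp only [map_add, map_mul, Polynomial.aeval_C, Polynomial.aeval_X,
        Polynomial.algebraMap_eq]
      ring
    unfold cm
    rw [h1, Polynomial.comp_C_mul_X_coeff, mul_comm]
  have e : ∀ j : Fin 5, qt f p (fun i => l * v i) j = l ^ (j.val + 2) * qt f p v j :=
    fun j => h _
  constructor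
  · exact e 0
  · unfold QF.dsc QF.bI QF.bJ
    rw [e 0, e 1, e 2, e 3, e 4]
    simp only [Fin.val_zero, Fin.val_one]
    change 4 * (12 * (l ^ 2 * qt f p v 0) * (l ^ 6 * qt f p v 4) -
      3 * (l ^ 3 * qt f p v 1) * (l ^ 5 * qt f p v 3) + (l ^ 4 * qt f p v 2) ^ 2) ^ 3 -
      (72 * (l ^ 2 * qt f p v 0) * (l ^ 4 * qt f p v 2) * (l ^ 6 * qt f p v 4) +
        9 * (l ^ 3 * qt f p v 1) * (l ^ 4 * qt f p v 2) * (l ^ 5 * qt f p v 3) -
        27 * (l ^ 2 * qt f p v 0) * (l ^ 5 * qt f p v 3) ^ 2 -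
        27 * (l ^ 6 * qt f p v 4) * (l ^ 3 * qt f p v 1) ^ 2 - 2 * (l ^ 4 * qt f p v 2) ^ 3) ^ 2 = _
    ring

end Pool.Agent.Helper83.DP
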