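import Mathlib
import Pool.Agent.Helper9.NS
import Pool.Agent.Helper83.DP.SmExp
import Pool.Agent.Helper83.DP.SmA
import Pool.Agent.Helper83.DP.SmC
import Pool.Agent.Helper83.DP.SmTr
import Pool.Agent.Helper83.DP.SmCls

/-!
# Block SM-PL: the orders at a place
`loc_ord`: by `exp_of_loc` and `h.hc` one of `ord_A, ord_B, ord_C, ord_D` applies to
`q = qt f (1, y, z) (0, 1, m)`, `m = - grd 1 / grd 2`; `vG f p = grd 2 * (0, 1, m)` and `grd f p 2` is a unit at `P` (residue `≠ 0`), `qt_smul`.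
`place_ord`. Let `p = ![1, y, z]`, `j` with `p i / p j ∈ P.ring` for all `i` (`VF.exists_max`), `a i` the residue of
`p i / p j`, `a j = 1`; `f (a) = 0`. Take `e` from `exists_loc` for `a`. Let `x ∈ L ^ 3` be the coordinates of the vector
`p / p j` in the basis `e` (inverse matrix); their residues are the coordinates of `a = e 0`: `(1, 0, 0)`. So `x 0 ≠ 0` is a unit;
`c = p j * x 0`, `p' = x / x 0 = ![1, y', z']`, with residues `0` of `y'`, `z'`; `p = c * ∑ p' i e i`; `f (p) = 0` gives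
`chg e f (p') = 0` (`aeval_chg`, homogeneity). `y' ≠ 0`: otherwise `(chg e f) (1, 0, z') = 0`, a nontrivial polynomial equation for `z'`
over `k` (its linear coefficient is `h.hs ≠ 0`), so `z' ∈ k`, `z' = 0`, `p' = (1,0,0)` and `y = p 1 / p 0 ∈ k`. `loc_ord` for
`chg e f`, `p'`, and `tr_qt`: `ord (dsc q) - 4 ord (q 0) = (108 - 48) ord c + (ord (dsc q') - 4 ord (q' 0)) ≤ 60 ord c`, and
`ord c = ord (p j) ≤ 0` (`p 0 / p j = 1 / p j ∈ P.ring`), `< 0` if `y ∉ P.ring` (then `p j ∉ P.ring`: if `p j ∈ P.ring` then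
`y = p 1 = (p 1 / p j) p j ∈ P.ring`).
-/

set_option linter.unusedSectionVars false

namespace Pool.Agent.Helper83.DP

open VC VF Function Polynomial
open Pool.Agent.Helper51.VB

universe u

variable {k : Type u} [Field k] [IsAlgClosed k] [CharZero k] {L : Type u} [Field L] [Algebra k L]

private lemma ord_scale68 (hL : IsFunctionField k L) (P : Place k L) {l d : L} {n : ℕ} (hl : l ≠ 0) (hd : d ≠ 0) :
    ord P.ring (l ^ n * d) = n * ord P.ring l + ord P.ring d := by
  rw [VC.ord_mul hL P (pow_ne_zero n hl) hd, VP.ord_pow hL P hl]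

private lemma ord_isRes68 (hL : IsFunctionField k L) {P : Place k L} {x : L} {c : k} (h : IsRes P x c)
    (hc : c ≠ 0) : x ≠ 0 ∧ ord P.ring x = 0 := by
  obtain ⟨h1, h2⟩ := h.inv_mem hc
  refine ⟨h1, ?_⟩
  have h3 := (VC.ord_nonneg_iff hL P h1).2 h.mem
  have h4 := (VC.ord_nonneg_iff hL P (inv_ne_zero h1)).2 h2
  rw [VC.ord_inv hL P h1] at h4
  omega

theorem loc_ord {f : MvPolynomial (Fin 3) k} (hf : f.IsHomogeneous 6) (h : Loc f)
    (hL : IsFunctionField k L) {P : Place k L} {y z : L} (hy0 : y ≠ 0) (hy : IsRes P y 0)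
    (hz : IsRes P z 0) (hp : MvPolynomial.aeval ![1, y, z] f = 0) :
    qt f ![1, y, z] (vG f ![1, y, z]) 0 ≠ 0 ∧
      QF.dsc (qt f ![1, y, z] (vG f ![1, y, z])) ≠ 0 ∧
      ord P.ring (QF.dsc (qt f ![1, y, z] (vG f ![1, y, z]))) ≤
        4 * ord P.ring (qt f ![1, y, z] (vG f ![1, y, z]) 0) := by
  have hE := exp_of_loc hf h.h0 h.h1 h.hs hy0 hy hz hp
  set m : L := -(grd f ![1, y, z] 1 / grd f ![1, y, z] 2) with hm
  have key : qt f ![1, y, z] ![0, 1, m] 0 ≠ 0 ∧ QF.dsc (qt f ![1, y, z] ![0, 1, m]) ≠ 0 ∧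
      ord P.ring (QF.dsc (qt f ![1, y, z] ![0, 1, m])) ≤ 4 * ord P.ring (qt f ![1, y, z] ![0, 1, m] 0) := by
    rcases h.hc with hA | ⟨b0, b1, b2, b3, b4, b5⟩ | ⟨c0, c1, c2, c3⟩ | ⟨d0, d1, d2, d3, d4⟩
    · exact ord_A hL hE hA
    · exact ord_B hL hE b0 b1 b2 b3 b4 b5
    · exact ord_C hL hE c0 c1 c2 c3
    · exact ord_D hL hE d0 d1 d2 d3 d4
  have hres : ∀ i, IsRes P ((![1, y, z] : Fin 3 → L) i) ((![(1 : k), 0, 0] : Fin 3 → k) i) := by
    intro i
    fin_cases i
    · exact isRes_one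
    · exact hy
    · exact hz
  have hg : IsRes P (grd f ![1, y, z] 2) (MvPolynomial.aeval ![(1 : k), 0, 0] (MvPolynomial.pderiv 2 f)) :=
    isRes_aeval hres _
  obtain ⟨hg0, hgo⟩ := ord_isRes68 hL hg h.hs
  have hv : vG f ![1, y, z] = fun i => grd f ![1, y, z] 2 * (![0, 1, m] : Fin 3 → L) i := by
    funext i
    fin_cases i
    · simp [vG]
    · simp [vG]
    · simp only [vG, hm]
      change -grd f ![1, y, z] 1 = grd f ![1, y, z] 2 * -(grd f ![1, y, z] 1 / grd f ![1, y, z] 2)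
      field_simp
  obtain ⟨q1, q2⟩ := qt_smul (f := f) ![1, y, z] ![0, 1, m] (grd f ![1, y, z] 2)
  rw [hv, q1, q2]
  obtain ⟨k1, k2, k3⟩ := key
  refine ⟨mul_ne_zero (pow_ne_zero _ hg0) k1, mul_ne_zero (pow_ne_zero _ hg0) k2, ?_⟩
  rw [ord_scale68 hL P hg0 k1, ord_scale68 hL P hg0 k2, hgo]
  simpa using k3

theorem place_ord {f : MvPolynomial (Fin 3) k} (hf : f.IsHomogeneous 6) (hs : Smooth f)
    (hn : ∀ a b : Fin 3 → k, LinearIndependent k ![a, b] → ¬ Tgt f a b)
    (hL : IsFunctionField k L) {y z : L} (hy : Transcendental k y)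
    (hp : MvPolynomial.aeval ![1, y, z] f = 0) (P : Place k L) :
    qt f ![1, y, z] (vG f ![1, y, z]) 0 ≠ 0 ∧
      QF.dsc (qt f ![1, y, z] (vG f ![1, y, z])) ≠ 0 ∧
      ord P.ring (QF.dsc (qt f ![1, y, z] (vG f ![1, y, z]))) ≤
        4 * ord P.ring (qt f ![1, y, z] (vG f ![1, y, z]) 0) ∧
      (y ∉ P.ring → ord P.ring (QF.dsc (qt f ![1, y, z] (vG f ![1, y, z]))) <
        4 * ord P.ring (qt f ![1, y, z] (vG f ![1, y, z]) 0)) := by
  set p : Fin 3 → L := ![1, y, z] with hpdef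
  have hp0 : p 0 = 1 := rfl
  have hp1 : p 1 = y := rfl
  have hpne : p ≠ 0 := by
    intro h
    have := congrFun h 0
    rw [hp0] at this
    exact one_ne_zero this
  obtain ⟨j, hj0, hj⟩ := exists_max P.ring p hpne
  choose a ha using fun i => exists_res hL (hj i)
  have haj : a j = 1 := by
    have h1 := ha j
    rw [mul_inv_cancel₀ hj0] at h1
    exact h1.unique isRes_one
  have hane : a ≠ 0 := by
    intro h
    rw [h] at haj
    exact zero_ne_one haj
  have hfa : MvPolynomial.aeval a f = 0 := by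
    have h1 := isRes_aeval ha f
    have h2 : MvPolynomial.aeval (fun i => p i * (p j)⁻¹) f = 0 := by
      have h3 : (fun i => p i * (p j)⁻¹) = fun i => (p j)⁻¹ * p i := by
        funext i
        rw [mul_comm]
      rw [h3, aeval_smul hf, hp, mul_zero]
    rw [h2] at h1
    exact h1.unique isRes_zero
  obtain ⟨e, he, hea, hloc⟩ := exists_loc hf hs hn hane hfa
  -- the inverse matrix
  set E : Matrix (Fin 3) (Fin 3) k := Matrix.of e with hE
  have hEu : IsUnit E := Matrix.linearIndependent_rows_iff_isUnit.mp he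
  have hdet : IsUnit E.det := (Matrix.isUnit_iff_isUnit_det E).mp hEu
  have hNE : E⁻¹ * E = 1 := Matrix.nonsing_inv_mul E hdet
  have hEN : E * E⁻¹ = 1 := Matrix.mul_nonsing_inv E hdet
  set x : Fin 3 → L := fun i => ∑ l, p l * (p j)⁻¹ * algebraMap k L (E⁻¹ l i) with hx
  have hxres : ∀ i, IsRes P (x i) ((1 : Matrix (Fin 3) (Fin 3) k) 0 i) := by
    intro i
    rw [← hEN, Matrix.mul_apply]
    have h1 : ∀ l, E 0 l = a l := by
      intro l
      rw [hE, Matrix.of_apply, hea]
    simp only [h1]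
    exact IsRes.sum _ fun l _ => (ha l).mul (isRes_const _)
  have hxsum : ∀ l, ∑ i, algebraMap k L (e i l) * x i = p l * (p j)⁻¹ := by
    intro l
    have h1 : ∀ l', ∑ i, E⁻¹ l' i * E i l = (1 : Matrix (Fin 3) (Fin 3) k) l' l := by
      intro l'
      rw [← Matrix.mul_apply, hNE]
    calc ∑ i, algebraMap k L (e i l) * x i
        = ∑ i, ∑ l', p l' * (p j)⁻¹ * algebraMap k L (E⁻¹ l' i * E i l) := by
          refine Finset.sum_congr rfl fun i _ => ?_
          rw [hx, Finset.mul_sum]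
          refine Finset.sum_congr rfl fun l' _ => ?_
          rw [map_mul, hE, Matrix.of_apply]
          ring
      _ = ∑ l', p l' * (p j)⁻¹ * algebraMap k L ((1 : Matrix (Fin 3) (Fin 3) k) l' l) := by
          rw [Finset.sum_comm]
          refine Finset.sum_congr rfl fun l' _ => ?_
          rw [← Finset.mul_sum, ← map_sum, h1]
      _ = p l * (p j)⁻¹ := by
          rw [Finset.sum_eq_single l]
          · rw [Matrix.one_apply_eq, map_one, mul_one]
          · intro l' _ hl'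
            rw [Matrix.one_apply_ne hl', map_zero, mul_zero]
          · intro hl'
            exact absurd (Finset.mem_univ _) hl'
  have hx0r : IsRes P (x 0) 1 := by
    have := hxres 0
    rwa [Matrix.one_apply_eq] at this
  obtain ⟨hx0, hx0o⟩ := ord_isRes68 hL hx0r one_ne_zero
  have hx0i : IsRes P (x 0)⁻¹ 1 := by
    have h1 := (hx0r.inv_mem one_ne_zero).2
    obtain ⟨c, hc⟩ := exists_res hL h1
    have h2 := hx0r.mul hc
    rw [mul_inv_cancel₀ hx0, one_mul] at h2
    rw [← h2.unique isRes_one]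
    exact hc
  set y' : L := x 1 * (x 0)⁻¹ with hy'
  set z' : L := x 2 * (x 0)⁻¹ with hz'
  have hy'r : IsRes P y' 0 := by
    have h1 := (hxres 1).mul hx0i
    rwa [Matrix.one_apply_ne (by decide), zero_mul] at h1
  have hz'r : IsRes P z' 0 := by
    have h1 := (hxres 2).mul hx0i
    rwa [Matrix.one_apply_ne (by decide), zero_mul] at h1
  set p' : Fin 3 → L := ![1, y', z'] with hp'def
  have hxp' : ∀ i, x i = x 0 * p' i := by
    intro i
    fin_cases i
    · change x 0 = x 0 * 1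
      rw [mul_one]
    · change x 1 = x 0 * (x 1 * (x 0)⁻¹)
      field_simp
    · change x 2 = x 0 * (x 2 * (x 0)⁻¹)
      field_simp
  set c : L := p j * x 0 with hcdef
  have hc0 : c ≠ 0 := mul_ne_zero hj0 hx0
  have hpc : ∀ l, p l = c * ∑ i, algebraMap k L (e i l) * p' i := by
    intro l
    have h1 := hxsum l
    have h2 : ∑ i, algebraMap k L (e i l) * x i = x 0 * ∑ i, algebraMap k L (e i l) * p' i := by
      rw [Finset.mul_sum]
      refine Finset.sum_congr rfl fun i _ => ?_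
      rw [hxp' i]
      ring
    rw [h2] at h1
    rw [hcdef, mul_assoc, h1]
    field_simp
  have hFp' : MvPolynomial.aeval p' (chg e f) = 0 := by
    rw [aeval_chg]
    have h1 : (fun l => c * ∑ i, algebraMap k L (e i l) * p' i) = p := by
      funext l
      rw [hpc l]
    have h2 := aeval_smul hf c (fun l => ∑ i, algebraMap k L (e i l) * p' i)
    rw [h1, hp] at h2
    exact (mul_eq_zero.mp h2.symm).resolve_left (pow_ne_zero _ hc0)
  have hy'0 : y' ≠ 0 := by
    intro h0
    -- the polynomial of `z'`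
    set G : k[X] := MvPolynomial.aeval (fun i => C ((![(1 : k), 0, 0] : Fin 3 → k) i) +
      X * C ((![(0 : k), 0, 1] : Fin 3 → k) i)) (chg e f) with hG
    have hG0 : G ≠ 0 := by
      intro h
      have h1 : cm (chg e f) ![(1 : k), 0, 0] ![(0 : k), 0, 1] 1 = 0 := by
        unfold cm
        rw [← hG, h, coeff_zero]
      rw [cm_one, Fin.sum_univ_three] at h1
      apply hloc.hs
      simpa using h1
    have hGz : Polynomial.aeval z' G = 0 := by
      rw [hG, MvPolynomial.comp_aeval_apply, ← hFp']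
      congr 2
      funext i
      fin_cases i
      · simp [p']
      · simp [p', h0]
      · simp [p']
    have halg : IsAlgebraic k z' := ⟨G, hG0, hGz⟩
    obtain ⟨t, ht⟩ : ∃ t, algebraMap k L t = z' := by
      have : Algebra.IsAlgebraic k (IntermediateField.adjoin k {z'}) :=
        IntermediateField.isAlgebraic_adjoin_simple halg.isIntegral
      obtain ⟨t, ht⟩ := (IsAlgClosed.algebraMap_bijective_of_isIntegral (k := k)
        (K := IntermediateField.adjoin k {z'})).2 ⟨z', IntermediateField.mem_adjoin_simple_self k z'⟩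
      exact ⟨t, congrArg Subtype.val ht⟩
    have hS : ∀ l, ∑ i, algebraMap k L (e i l) * p' i = algebraMap k L (e 0 l + e 2 l * t) := by
      intro l
      rw [Fin.sum_univ_three, map_add, map_mul, ht]
      simp [p', h0]
    have h3 := hpc 0
    rw [hp0, hS] at h3
    have h4 := hpc 1
    rw [hp1, hS] at h4
    have h5 : e 0 0 + e 2 0 * t ≠ 0 := by
      intro h
      rw [h, map_zero, mul_zero] at h3
      exact one_ne_zero h3
    have h6 : c = algebraMap k L (e 0 0 + e 2 0 * t)⁻¹ := by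
      rw [map_inv₀]
      exact eq_inv_of_mul_eq_one_left h3.symm
    rw [h6, ← map_mul] at h4
    apply hy
    rw [h4]
    exact isAlgebraic_algebraMap _
  obtain ⟨k1, k2, k3⟩ := loc_ord (chg_hom e hf) hloc hL hy'0 hy'r hz'r hFp'
  obtain ⟨Δ, hΔ, t1, t2⟩ := tr_qt hf he hc0 hp0 (rfl : p' 0 = 1) hpc hp
  have hΔL : algebraMap k L Δ ≠ 0 := (_root_.map_ne_zero _).mpr hΔ
  have hΔo := VC.ord_algebraMap hL P hΔ
  have hA : ∀ (n r : ℕ) (d : L), d ≠ 0 → c ^ n / algebraMap k L Δ ^ r * d ≠ 0 ∧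
      ord P.ring (c ^ n / algebraMap k L Δ ^ r * d) = n * ord P.ring c + ord P.ring d := by
    intro n r d hd
    have h1 : c ^ n / algebraMap k L Δ ^ r ≠ 0 := div_ne_zero (pow_ne_zero _ hc0) (pow_ne_zero _ hΔL)
    refine ⟨mul_ne_zero h1 hd, ?_⟩
    rw [VC.ord_mul hL P h1 hd, div_eq_mul_inv, VC.ord_mul hL P (pow_ne_zero _ hc0)
      (inv_ne_zero (pow_ne_zero _ hΔL)), VC.ord_inv hL P (pow_ne_zero _ hΔL), VP.ord_pow hL P hΔL,
      VP.ord_pow hL P hc0, hΔo]
    ring
  obtain ⟨u1, u2⟩ := hA 12 2 _ k1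
  obtain ⟨v1, v2⟩ := hA 108 24 _ k2
  have hco : ord P.ring c = ord P.ring (p j) := by
    rw [hcdef, VC.ord_mul hL P hj0 hx0, hx0o, add_zero]
  have hpj : ord P.ring (p j) ≤ 0 := by
    have h1 := hj 0
    rw [hp0, one_mul] at h1
    have h2 := (VC.ord_nonneg_iff hL P (inv_ne_zero hj0)).2 h1
    rw [VC.ord_inv hL P hj0] at h2
    omega
  rw [t1, t2]
  refine ⟨u1, v1, ?_, ?_⟩
  · rw [u2, v2, hco]
    push_cast
    linarith
  · intro hyP
    have hpjn : p j ∉ P.ring := by
      intro h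
      apply hyP
      have h1 := P.ring.mul_mem _ _ (hj 1) h
      rw [hp1, mul_assoc, inv_mul_cancel₀ hj0, mul_one] at h1
      exact h1
    have h1 : ord P.ring (p j) < 0 := by
      by_contra h2
      exact hpjn ((VC.ord_nonneg_iff hL P hj0).1 (by omega))
    rw [u2, v2, hco]
    push_cast
    linarith

end Pool.Agent.Helper83.DP
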