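import Mathlib
import Pool.Agent.Helper9.NS
import Pool.Agent.Helper83.DP.SmPl
import Pool.Agent.Helper83.DP.SmBr
import Pool.Agent.Helper83.DP.Main

/-!
# Block SM-FIN: smooth sextic curves have a tangent line of the kind needed
Proof of `exists_tgt`. By contradiction; `exists_curve` gives `L`, `y`, `z`. `y` has a pole at some place `P₀` (it is transcendental: a nonconstant
function has a pole: `1 / y` has a zero, `exists_zero_at` in `Helper83/KV/App.lean`). Let
`h = dsc q / (q 0) ^ 4` with `q = qt f p (vG f p)`, `p = ![1, y, z]`, a nonzero element of `L` (`place_ord` at `P₀`). By `place_ord` its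
order is `≤ 0` at all places and `< 0` at `P₀`; this contradicts the fact that the sum of the orders is zero
(`VP.degree_zero`).
-/

set_option linter.unusedSectionVars false

namespace Pool.Agent.Helper83.DP

open VC VF Function Polynomial
open Pool.Agent.Helper51.VB

universe u

variable {k : Type u} [Field k] [IsAlgClosed k] [CharZero k]

theorem exists_tgt {f : MvPolynomial (Fin 3) k} (hf : f.IsHomogeneous 6) (hs : Smooth f) :
    ∃ a b : Fin 3 → k, LinearIndependent k ![a, b] ∧ Tgt f a b := by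
  by_contra hcon
  have hn : ∀ a b : Fin 3 → k, LinearIndependent k ![a, b] → ¬ Tgt f a b :=
    fun a b h1 h2 => hcon ⟨a, b, h1, h2⟩
  obtain ⟨L, _, _, y, z, hL, hy, hp⟩ := exists_curve hf hs
  have hy0 : y ≠ 0 := by
    rintro rfl
    exact hy isAlgebraic_zero
  have hyi : Transcendental k y⁻¹ := fun h => hy (by
    have h1 := h.inv
    rwa [inv_inv] at h1)
  obtain ⟨P₀, hP₀⟩ := VC.exists_place hL hyi
  have hP₀' : y ∉ P₀.ring := by
    intro h
    have h1 := (VC.ord_pos_iff hL P₀ (inv_ne_zero hy0)).2 hP₀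
    have h2 := (VC.ord_nonneg_iff hL P₀ hy0).2 h
    rw [VC.ord_inv hL P₀ hy0] at h1
    omega
  obtain ⟨Q, hQ⟩ : ∃ Q : Fin 5 → L, Q = qt f ![1, y, z] (vG f ![1, y, z]) := ⟨_, rfl⟩
  have hpl : ∀ P : Place k L, Q 0 ≠ 0 ∧ QF.dsc Q ≠ 0 ∧
      ord P.ring (QF.dsc Q) ≤ 4 * ord P.ring (Q 0) ∧
      (y ∉ P.ring → ord P.ring (QF.dsc Q) < 4 * ord P.ring (Q 0)) := fun P => by
    rw [hQ]
    exact place_ord hf hs hn hL hy hp P
  obtain ⟨h1, h2, _, h3⟩ := hpl P₀
  have h4 := h3 hP₀'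
  have hh0 : QF.dsc Q * (Q 0 ^ 4)⁻¹ ≠ 0 := mul_ne_zero h2 (inv_ne_zero (pow_ne_zero 4 h1))
  have ho : ∀ P : Place k L, ord P.ring (QF.dsc Q * (Q 0 ^ 4)⁻¹) =
      ord P.ring (QF.dsc Q) - 4 * ord P.ring (Q 0) := by
    intro P
    rw [VC.ord_mul hL P h2 (inv_ne_zero (pow_ne_zero 4 h1)), VC.ord_inv hL P (pow_ne_zero 4 h1),
      VP.ord_pow hL P h1]
    push_cast
    ring
  have hd := VP.degree_zero hL hh0
  have h5 : ∑ v ∈ (finite_support_ord hL hh0).toFinset,
      ord v.ring (QF.dsc Q * (Q 0 ^ 4)⁻¹) < ∑ v ∈ (finite_support_ord hL hh0).toFinset, (0 : ℤ) := by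
    refine Finset.sum_lt_sum (fun v _ => ?_) ⟨P₀, ?_, ?_⟩
    · have := (hpl v).2.2.1
      rw [ho]
      omega
    · rw [Set.Finite.mem_toFinset]
      change ord P₀.ring (QF.dsc Q * (Q 0 ^ 4)⁻¹) ≠ 0
      rw [ho]
      omega
    · rw [ho]
      omega
  rw [hd, Finset.sum_const_zero] at h5
  exact lt_irrefl _ h5

/-- The relations for all smooth sextic curves. -/
theorem vn_smooth {f : MvPolynomial (Fin 3) k} (hf : f.IsHomogeneous 6) (hs : Smooth f) :
    ∃ n₀ : ℕ, ∀ n, n₀ ≤ n → Vn (surface f hf) n := by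
  obtain ⟨a, b, hab, h⟩ := exists_tgt hf hs
  exact vn_main hf hab h

end Pool.Agent.Helper83.DP
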